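import Mathlib

set_option autoImplicit false

namespace Pool.Agent.Helper13.Dn

open Polynomial Finset

theorem exists_sqrt_poly (R : Type*) [CommRing R] (h2 : IsUnit (2 : R)) (M : ℕ) :
    ∃ Φ Ψ : R[X], Φ.eval 0 = 1 ∧ Φ ^ 2 = 1 + X + X ^ M * Ψ := by
  rcases Nat.eq_zero_or_pos M with rfl | hM
  · exact ⟨1, -X, by simp, by ring⟩
  induction M, hM using Nat.le_induction with
  | base => exact ⟨1, -1, by simp, by ring⟩
  | succ M hM ih =>
    obtain ⟨Φ, Ψ, h0, h⟩ := ih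
    obtain ⟨u, hu⟩ := h2.exists_right_inv
    set c : R := -(u * Ψ.eval 0) with hc
    have hW : (Ψ + 2 * C c * Φ + C c ^ 2 * X ^ M).eval 0 = 0 := by
      simp only [eval_add, eval_mul, eval_C, eval_pow, eval_X, h0, eval_ofNat]
      rw [zero_pow (by omega), hc]
      linear_combination (-(Ψ.eval 0)) * hu
    have hdvd : X ∣ (Ψ + 2 * C c * Φ + C c ^ 2 * X ^ M) := by
      rw [X_dvd_iff, coeff_zero_eq_eval_zero]
      exact hW
    obtain ⟨W, hW'⟩ := hdvd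
    refine ⟨Φ + C c * X ^ M, W, ?_, ?_⟩
    · simp only [eval_add, eval_mul, eval_C, eval_pow, eval_X, h0]
      rw [zero_pow (by omega)]
      ring
    · have e : (Φ + C c * X ^ M) ^ 2 = 1 + X + X ^ M * (Ψ + 2 * C c * Φ + C c ^ 2 * X ^ M) := by
        linear_combination h
      rw [e, hW']
      ring

/-- Truncations of the power series `ψ` with `ψ + X ψ² = 1`. -/
theorem exists_catalan_poly (R : Type*) [CommRing R] (M : ℕ) :
    ∃ Ψ W : R[X], Ψ + X * Ψ ^ 2 = 1 + X ^ M * W := by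
  induction M with
  | zero => exact ⟨0, -1, by ring⟩
  | succ M ih =>
    obtain ⟨Ψ, W, h⟩ := ih
    set c : R := -W.eval 0 with hc
    have hW : (W + C c + X * (2 * C c * Ψ + C c ^ 2 * X ^ M)).eval 0 = 0 := by
      simp [hc]
    have hdvd : X ∣ (W + C c + X * (2 * C c * Ψ + C c ^ 2 * X ^ M)) := by
      rw [X_dvd_iff, coeff_zero_eq_eval_zero]
      exact hW
    obtain ⟨V, hV⟩ := hdvd
    refine ⟨Ψ + C c * X ^ M, V, ?_⟩
    have e : (Ψ + C c * X ^ M) + X * (Ψ + C c * X ^ M) ^ 2 =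
        1 + X ^ M * (W + C c + X * (2 * C c * Ψ + C c ^ 2 * X ^ M)) := by
      linear_combination h
    rw [e, hV]
    ring

/-- Rank one structure of square roots up to a binomial polynomial. -/
theorem factor {R₂ R F F' : Type*} [CommRing R₂] [CommRing R] [Field F] [CommRing F']
    (π : R₂ →+* F) (σ : R₂ →+* F') (ρ : R₂ →+* R)
    (hloc : ∀ r : R₂, π r ≠ 0 → IsUnit r)
    (huv : ∀ U V : R₂, π U ≠ 0 → σ U = σ V → U ^ 2 = V ^ 2 → ρ U = ρ V)
    (q κ : R₂) (Φ : R₂[X]) (hΦv : ∀ r : R₂, Φ.eval (q * r) ^ 2 = 1 + κ * (q * r))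
    (hπΦ : ∀ r : R₂, π (Φ.eval (q * r)) = 1) (hσΦ : ∀ r : R₂, σ (Φ.eval (q * r)) = 1)
    (I : Set ℕ) (T : Set ℤ) (y : ℕ → ℤ → R₂) (ε : ℕ → R₂) (δ : ℤ → R₂)
    (b : ℕ → R₂) (c : ℤ → R₂) (hε : ∀ i ∈ I, π (ε i) ≠ 0) (hδ : ∀ x ∈ T, π (δ x) ≠ 0)
    (hy : ∀ i ∈ I, ∀ x ∈ T, y i x ^ 2 = ε i * δ x * (1 + κ * (q * (b i * c x))))
    (i0 : ℕ) (hi0 : i0 ∈ I) (x0 : ℤ) (hx0 : x0 ∈ T)
    (hsgn : ∀ i ∈ I, ∀ x ∈ T, σ (y i x * y i0 x0) = σ (y i x0 * y i0 x)) :
    ∃ (P : ℕ → R[X]) (τ : ℤ → R), ∀ i ∈ I, ∀ x ∈ T,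
      ρ (y i x) = τ x * (P i).eval (ρ q * ρ (c x)) := by
  have hunit : ∀ r : R₂, ∃ v : R₂, Φ.eval (q * r) * v = 1 := by
    intro r
    exact (hloc _ (by rw [hπΦ]; exact one_ne_zero)).exists_right_inv
  choose inv hinv using hunit
  have hπinv : ∀ r : R₂, π (inv r) = 1 := by
    intro r
    have := congrArg π (hinv r)
    rwa [map_mul, hπΦ, one_mul, map_one] at this
  have hσinv : ∀ r : R₂, σ (inv r) = 1 := by
    intro r
    have := congrArg σ (hinv r)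
    rwa [map_mul, hσΦ, one_mul, map_one] at this
  obtain ⟨e, he⟩ : ∃ e : ℕ → ℤ → R₂, e = fun i x => y i x * inv (b i * c x) := ⟨_, rfl⟩
  have hye : ∀ i x, y i x = e i x * Φ.eval (q * (b i * c x)) := by
    intro i x
    rw [he]
    show y i x = y i x * inv (b i * c x) * Φ.eval (q * (b i * c x))
    rw [mul_assoc, mul_comm (inv _), hinv, mul_one]
  have he2 : ∀ i ∈ I, ∀ x ∈ T, e i x ^ 2 = ε i * δ x := by
    intro i hi x hx
    have h3 : inv (b i * c x) ^ 2 * (1 + κ * (q * (b i * c x))) = 1 := by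
      rw [← hΦv, ← mul_pow, mul_comm, hinv, one_pow]
    rw [he]
    show (y i x * inv (b i * c x)) ^ 2 = ε i * δ x
    rw [mul_pow, hy i hi x hx]
    linear_combination (ε i * δ x) * h3
  have hσe : ∀ i x, σ (e i x) = σ (y i x) := by
    intro i x
    rw [he]
    show σ (y i x * inv (b i * c x)) = _
    rw [map_mul, hσinv, mul_one]
  have hπe0 : ∀ i ∈ I, ∀ x ∈ T, π (e i x) ≠ 0 := by
    intro i hi x hx h
    have := congrArg π (he2 i hi x hx)
    rw [map_pow, h, map_mul] at this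
    have h4 : π (ε i) * π (δ x) = 0 := by rw [← this]; ring
    rcases mul_eq_zero.1 h4 with h4 | h4
    · exact hε i hi h4
    · exact hδ x hx h4
  have hkey : ∀ i ∈ I, ∀ x ∈ T, ρ (e i x * e i0 x0) = ρ (e i x0 * e i0 x) := by
    intro i hi x hx
    refine huv _ _ ?_ ?_ ?_
    · rw [map_mul]
      exact mul_ne_zero (hπe0 i hi x hx) (hπe0 i0 hi0 x0 hx0)
    · rw [map_mul, map_mul, hσe, hσe, hσe, hσe, ← map_mul, ← map_mul]
      exact hsgn i hi x hx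
    · rw [mul_pow, mul_pow, he2 i hi x hx, he2 i0 hi0 x0 hx0, he2 i hi x0 hx0, he2 i0 hi0 x hx]
      ring
  obtain ⟨w, hw⟩ := (hloc _ (hπe0 i0 hi0 x0 hx0)).exists_right_inv
  refine ⟨fun i => C (ρ (e i x0)) * (Φ.map ρ).comp (C (ρ (b i)) * X), fun x => ρ (e i0 x * w), ?_⟩
  intro i hi x hx
  have h8 : ρ (e i x) = ρ (e i0 x * w) * ρ (e i x0) := by
    have := hkey i hi x hx
    calc ρ (e i x) = ρ (e i x * (e i0 x0 * w)) := by rw [hw, mul_one]
      _ = ρ (e i x * e i0 x0) * ρ w := by rw [← map_mul]; congr 1; ring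
      _ = ρ (e i x0 * e i0 x) * ρ w := by rw [this]
      _ = _ := by rw [← map_mul, ← map_mul]; congr 1; ring
  simp only [eval_mul, eval_C, eval_comp, eval_X]
  rw [hye i x, map_mul, h8]
  rw [show ρ (b i) * (ρ q * ρ (c x)) = ρ (q * (b i * c x)) by
    rw [map_mul, map_mul]; ring]
  rw [Polynomial.eval_map_apply]
  ring

end Pool.Agent.Helper13.Dn
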