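import Mathlib
import Pool.Agent.Helper13.Dn.Factor

set_option autoImplicit false

namespace Pool.Agent.Helper13.Dn

open Polynomial Finset

theorem isUnit_of_cast (p k : ℕ) [Fact p.Prime] (hd : p ∣ p ^ k) (r : ZMod (p ^ k))
    (h : ZMod.castHom hd (ZMod p) r ≠ 0) : IsUnit r := by
  have hp : p.Prime := Fact.out
  have : NeZero (p ^ k) := ⟨pow_ne_zero _ hp.ne_zero⟩
  have hr : ((r.val : ℕ) : ZMod (p ^ k)) = r := ZMod.natCast_zmod_val r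
  rw [← hr, map_natCast] at h
  rw [← hr, ZMod.isUnit_iff_coprime]
  apply Nat.Coprime.pow_right
  rw [Nat.coprime_comm]
  refine (Nat.Prime.coprime_iff_not_dvd hp).2 ?_
  intro hdvd
  exact h ((ZMod.natCast_eq_zero_iff _ _).2 hdvd)

theorem isUnit_of_cast' (p : ℕ) [Fact p.Prime] (k N : ℕ) (hN : N = p ^ k) (hd : p ∣ N)
    (r : ZMod N) (h : ZMod.castHom hd (ZMod p) r ≠ 0) : IsUnit r := by
  subst hN
  exact isUnit_of_cast p k hd r h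

/-- The algebraic shape of the data. -/
theorem shape {R₂ F : Type*} [CommRing R₂] [Field F] (π : R₂ →+* F)
    (hloc : ∀ r : R₂, π r ≠ 0 → IsUnit r) (y e d Q b g : R₂) (he : π e ≠ 0) (hd : π d ≠ 0)
    (h : y ^ 2 = e * d + Q * (b * g)) :
    y ^ 2 = e * d * (1 + Q * ((b * Ring.inverse e) * (g * Ring.inverse d))) := by
  have h1 : e * Ring.inverse e = 1 := Ring.mul_inverse_cancel _ (hloc _ he)
  have h3 : d * Ring.inverse d = 1 := Ring.mul_inverse_cancel _ (hloc _ hd)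
  rw [h]
  have h5 : e * d * (1 + Q * ((b * Ring.inverse e) * (g * Ring.inverse d))) =
      e * d + Q * (b * g) * ((e * Ring.inverse e) * (d * Ring.inverse d)) := by ring
  rw [h5, h1, h3]
  ring

theorem padic_odd (p : ℕ) [Fact p.Prime] (hp2 : p ≠ 2) (g M : ℕ) (hg : 1 ≤ g) (hM : 1 ≤ M)
    (s : ℕ) (S : Finset ℤ) (x0 : ℤ) (hx0 : x0 ∈ S) (Y : ℕ → ℤ → ℤ)
    (ε β : ℕ → ℤ) (δ γ : ℤ → ℤ)
    (hpad : ∀ i ≤ s, ∀ x ∈ S, Y i x ^ 2 = ε i * δ x + (p : ℤ) ^ g * (β i * γ x))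
    (hε : ∀ i ≤ s, ¬ (p : ℤ) ∣ ε i) (hδ : ∀ x ∈ S, ¬ (p : ℤ) ∣ δ x) :
    ∃ (Y' : ℕ → ℤ → ℤ) (P : ℕ → (ZMod ((p ^ g) ^ M))[X]) (τ c : ℤ → ZMod ((p ^ g) ^ M)),
      (∀ i x, Y' i x ^ 2 = Y i x ^ 2) ∧
      ∀ i ≤ s, ∀ x ∈ S, ((Y' i x : ℤ) : ZMod ((p ^ g) ^ M)) =
        τ x * (P i).eval (((p ^ g : ℕ) : ZMod ((p ^ g) ^ M)) * c x) := by
  classical
  have hp : p.Prime := Fact.out
  set q := p ^ g with hq
  have hqM : q ^ M = p ^ (g * M) := by rw [hq, ← pow_mul]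
  have hd' : p ∣ q ^ M := by rw [hqM]; exact dvd_pow_self p (by positivity)
  set π := ZMod.castHom hd' (ZMod p) with hπ
  have hloc : ∀ r : ZMod (q ^ M), π r ≠ 0 → IsUnit r := isUnit_of_cast' p (g * M) (q ^ M) hqM hd'
  have h2F : (2 : ZMod p) ≠ 0 := by
    intro h0
    have : ((2 : ℕ) : ZMod p) = 0 := by exact_mod_cast h0
    rw [ZMod.natCast_eq_zero_iff] at this
    exact hp2 ((Nat.prime_dvd_prime_iff_eq hp Nat.prime_two).1 this)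
  have hqR : ((q : ℕ) : ZMod (q ^ M)) ^ M = 0 := by
    rw [← Nat.cast_pow]
    exact ZMod.natCast_self _
  have hπq : π ((q : ℕ) : ZMod (q ^ M)) = 0 := by
    have h0 : π ((q : ℕ) : ZMod (q ^ M)) ^ M = 0 := by rw [← map_pow, hqR, map_zero]
    exact eq_zero_of_pow_eq_zero h0
  have hπint : ∀ z : ℤ, π (z : ZMod (q ^ M)) = (z : ZMod p) := fun z => map_intCast π z
  obtain ⟨Φ, Ψ, h0, hΦ⟩ := exists_sqrt_poly (ZMod (q ^ M)) (hloc 2 (by rwa [map_ofNat])) M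
  have hΦv : ∀ r : ZMod (q ^ M), Φ.eval ((q : ZMod (q ^ M)) * r) ^ 2 =
      1 + 1 * ((q : ZMod (q ^ M)) * r) := by
    intro r
    have h := congrArg (fun P => P.eval ((q : ZMod (q ^ M)) * r)) hΦ
    simp only [eval_pow, eval_add, eval_one, eval_X, eval_mul] at h
    rw [h, mul_pow, hqR]
    ring
  have hπΦ : ∀ r : ZMod (q ^ M), π (Φ.eval ((q : ZMod (q ^ M)) * r)) = 1 := by
    intro r
    rw [← Polynomial.eval_map_apply, map_mul, hπq, zero_mul, ← map_zero π,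
      Polynomial.eval_map_apply, h0, map_one]
  -- sign normalisation
  obtain ⟨Y', hY'⟩ : ∃ Y' : ℕ → ℤ → ℤ, Y' = fun i x =>
    if ((Y i x * Y 0 x0 : ℤ) : ZMod p) = ((Y i x0 * Y 0 x : ℤ) : ZMod p) then Y i x else -Y i x :=
    ⟨_, rfl⟩
  have hY'sq : ∀ i x, Y' i x ^ 2 = Y i x ^ 2 := by
    intro i x
    simp only [hY']
    split_ifs
    · rfl
    · ring
  have hY'0 : ∀ x, Y' 0 x = Y 0 x := by
    intro x
    simp only [hY']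
    rw [if_pos (by rw [mul_comm])]
  have hY'x0 : ∀ i, Y' i x0 = Y i x0 := by
    intro i
    simp only [hY']
    exact if_pos trivial
  have hεu : ∀ i ∈ {i : ℕ | i ≤ s}, π (ε i : ZMod (q ^ M)) ≠ 0 := by
    intro i hi h0
    rw [hπint] at h0
    exact hε i hi ((ZMod.intCast_zmod_eq_zero_iff_dvd _ _).1 h0)
  have hδu : ∀ x ∈ {x : ℤ | x ∈ S}, π (δ x : ZMod (q ^ M)) ≠ 0 := by
    intro x hx h0
    rw [hπint] at h0
    exact hδ x hx ((ZMod.intCast_zmod_eq_zero_iff_dvd _ _).1 h0)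
  have hcast : ∀ i ≤ s, ∀ x ∈ S, ((Y i x : ℤ) : ZMod (q ^ M)) ^ 2 =
      (ε i : ZMod (q ^ M)) * (δ x : ZMod (q ^ M)) +
        ((q : ℕ) : ZMod (q ^ M)) * ((β i : ZMod (q ^ M)) * (γ x : ZMod (q ^ M))) := by
    intro i hi x hx
    have h6 := congrArg (fun z : ℤ => (z : ZMod (q ^ M))) (hpad i hi x hx)
    simp only [Int.cast_pow, Int.cast_add, Int.cast_mul, Int.cast_natCast] at h6
    rw [h6]
    congr 2
    rw [hq, Nat.cast_pow]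
  have hsq : ∀ i ≤ s, ∀ x ∈ S, ((Y i x : ℤ) : ZMod p) ^ 2 = (ε i : ZMod p) * (δ x : ZMod p) := by
    intro i hi x hx
    have h0 := congrArg π (hcast i hi x hx)
    rw [map_pow, map_add, map_mul, map_mul, hπq, zero_mul, add_zero, hπint, hπint, hπint] at h0
    exact h0
  have hyfac : ∀ i ∈ {i : ℕ | i ≤ s}, ∀ x ∈ {x : ℤ | x ∈ S},
      ((Y' i x : ℤ) : ZMod (q ^ M)) ^ 2 =
      (ε i : ZMod (q ^ M)) * (δ x : ZMod (q ^ M)) * (1 + 1 * (((q : ℕ) : ZMod (q ^ M)) *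
        (((β i : ZMod (q ^ M)) * Ring.inverse (ε i : ZMod (q ^ M))) *
        ((γ x : ZMod (q ^ M)) * Ring.inverse (δ x : ZMod (q ^ M)))))) := by
    intro i hi x hx
    rw [one_mul]
    refine shape π hloc _ _ _ _ _ _ (hεu i hi) (hδu x hx) ?_
    rw [← hcast i hi x hx]
    exact_mod_cast congrArg (fun z : ℤ => (z : ZMod (q ^ M))) (hY'sq i x)
  have hsgn : ∀ i ∈ {i : ℕ | i ≤ s}, ∀ x ∈ {x : ℤ | x ∈ S},
      π (((Y' i x : ℤ) : ZMod (q ^ M)) * ((Y' 0 x0 : ℤ) : ZMod (q ^ M))) =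
      π (((Y' i x0 : ℤ) : ZMod (q ^ M)) * ((Y' 0 x : ℤ) : ZMod (q ^ M))) := by
    intro i hi x hx
    rw [map_mul, map_mul, hπint, hπint, hπint, hπint, hY'0, hY'x0, hY'0]
    simp only [hY']
    split_ifs with hc
    · push_cast at hc
      exact hc
    · push_cast at hc ⊢
      have h1 : (((Y i x : ℤ) : ZMod p) * (Y 0 x0 : ℤ)) ^ 2 =
          (((Y i x0 : ℤ) : ZMod p) * (Y 0 x : ℤ)) ^ 2 := by
        rw [mul_pow, mul_pow, hsq i hi x hx, hsq 0 (by omega) x0 hx0, hsq i hi x0 hx0,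
          hsq 0 (by omega) x hx]
        ring
      rcases sq_eq_sq_iff_eq_or_eq_neg.1 h1 with h2 | h2
      · exact absurd h2 hc
      · rw [neg_mul, h2, neg_neg]
  have huv : ∀ U V : ZMod (q ^ M), π U ≠ 0 → π U = π V → U ^ 2 = V ^ 2 →
      RingHom.id _ U = RingHom.id _ V := by
    intro U V hU hUV hsq
    have h5 : (U - V) * (U + V) = 0 := by linear_combination hsq
    have h6 : IsUnit (U + V) := by
      apply hloc
      rw [map_add, ← hUV, ← two_mul]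
      exact mul_ne_zero h2F hU
    exact sub_eq_zero.1 ((h6.mul_left_eq_zero).1 h5)
  obtain ⟨P, τ, hPτ⟩ := factor π π (RingHom.id (ZMod (q ^ M))) hloc huv ((q : ℕ) : ZMod (q ^ M)) 1 Φ
    hΦv hπΦ hπΦ {i : ℕ | i ≤ s}
    {x : ℤ | x ∈ S} (fun i x => ((Y' i x : ℤ) : ZMod (q ^ M))) (fun i => (ε i : ZMod (q ^ M)))
    (fun x => (δ x : ZMod (q ^ M)))
    (fun i => (β i : ZMod (q ^ M)) * Ring.inverse (ε i : ZMod (q ^ M)))
    (fun x => (γ x : ZMod (q ^ M)) * Ring.inverse (δ x : ZMod (q ^ M)))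
    hεu hδu hyfac 0 (by simp) x0 hx0 hsgn
  exact ⟨Y', P, τ, fun x => (γ x : ZMod (q ^ M)) * Ring.inverse (δ x : ZMod (q ^ M)), hY'sq,
    fun i hi x hx => hPτ i hi x hx⟩

/-- The square root comparison at the prime two. -/
theorem huv_two (K : ℕ) (h4 : 4 ∣ 2 * 2 ^ K) (h2 : 2 ∣ 2 * 2 ^ K)
    (hN : 2 ^ K ∣ 2 * 2 ^ K) (U V : ZMod (2 * 2 ^ K))
    (hU : ZMod.castHom h2 (ZMod 2) U ≠ 0)
    (hUV : ZMod.castHom h4 (ZMod 4) U = ZMod.castHom h4 (ZMod 4) V) (hsq : U ^ 2 = V ^ 2) :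
    ZMod.castHom hN (ZMod (2 ^ K)) U = ZMod.castHom hN (ZMod (2 ^ K)) V := by
  have : NeZero (2 * 2 ^ K) := ⟨by positivity⟩
  have hUr : (((U.val : ℤ)) : ZMod (2 * 2 ^ K)) = U := by
    rw [Int.cast_natCast]; exact ZMod.natCast_zmod_val U
  have hVr : (((V.val : ℤ)) : ZMod (2 * 2 ^ K)) = V := by
    rw [Int.cast_natCast]; exact ZMod.natCast_zmod_val V
  set A : ℤ := (U.val : ℤ) with hA
  set B : ℤ := (V.val : ℤ) with hB
  rw [← hUr, map_intCast] at hU hUV ⊢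
  rw [← hVr, map_intCast] at hUV ⊢
  rw [← hUr, ← hVr] at hsq
  have hAodd : ¬ (2 : ℤ) ∣ A := by
    intro h
    apply hU
    rw [ZMod.intCast_zmod_eq_zero_iff_dvd]
    exact_mod_cast h
  have hAB : (4 : ℤ) ∣ A - B := by
    have h1 : ((A - B : ℤ) : ZMod 4) = 0 := by push_cast; rw [hUV]; ring
    have := (ZMod.intCast_zmod_eq_zero_iff_dvd _ _).1 h1
    exact_mod_cast this
  have hsq' : ((2 * 2 ^ K : ℕ) : ℤ) ∣ (A - B) * (A + B) := by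
    rw [← ZMod.intCast_zmod_eq_zero_iff_dvd]
    push_cast
    linear_combination hsq
  obtain ⟨k, hk⟩ := hAB
  have hC : A + B = 2 * (A - 2 * k) := by linarith
  rw [hC] at hsq'
  have h5 : ((2 : ℤ) ^ K) ∣ (A - B) * (A - 2 * k) := by
    have h6 : (2 : ℤ) * 2 ^ K ∣ 2 * ((A - B) * (A - 2 * k)) := by
      have : ((2 * 2 ^ K : ℕ) : ℤ) = 2 * 2 ^ K := by push_cast; ring
      rw [this] at hsq'
      rw [show 2 * ((A - B) * (A - 2 * k)) = (A - B) * (2 * (A - 2 * k)) by ring]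
      exact hsq'
    exact (mul_dvd_mul_iff_left (by norm_num)).1 h6
  have hcop : IsCoprime ((2 : ℤ) ^ K) (A - 2 * k) := by
    apply IsCoprime.pow_left
    rw [Prime.coprime_iff_not_dvd Int.prime_two]
    intro h
    apply hAodd
    have := dvd_add h (Dvd.intro k rfl : (2 : ℤ) ∣ 2 * k)
    simpa using this
  have h7 : ((2 : ℤ) ^ K) ∣ A - B := hcop.dvd_of_dvd_mul_right h5
  have h8 : ((A - B : ℤ) : ZMod (2 ^ K)) = 0 := by
    rw [ZMod.intCast_zmod_eq_zero_iff_dvd]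
    exact_mod_cast h7
  push_cast at h8
  exact sub_eq_zero.1 h8

theorem padic_two (g M : ℕ) (hg : 1 ≤ g) (hM : 1 ≤ M)
    (s : ℕ) (S : Finset ℤ) (x0 : ℤ) (hx0 : x0 ∈ S) (Y : ℕ → ℤ → ℤ)
    (ε β : ℕ → ℤ) (δ γ : ℤ → ℤ)
    (hpad : ∀ i ≤ s, ∀ x ∈ S, Y i x ^ 2 = ε i * δ x + (2 : ℤ) ^ (g + 2) * (β i * γ x))
    (hε : ∀ i ≤ s, ¬ (2 : ℤ) ∣ ε i) (hδ : ∀ x ∈ S, ¬ (2 : ℤ) ∣ δ x) :
    ∃ (Y' : ℕ → ℤ → ℤ) (P : ℕ → (ZMod ((2 ^ g) ^ M))[X]) (τ c : ℤ → ZMod ((2 ^ g) ^ M)),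
      (∀ i x, Y' i x ^ 2 = Y i x ^ 2) ∧
      ∀ i ≤ s, ∀ x ∈ S, ((Y' i x : ℤ) : ZMod ((2 ^ g) ^ M)) =
        τ x * (P i).eval (((2 ^ g : ℕ) : ZMod ((2 ^ g) ^ M)) * c x) := by
  classical
  have hfact : Fact (Nat.Prime 2) := ⟨Nat.prime_two⟩
  have hNK : (2 ^ g) ^ M = 2 ^ (g * M) := by rw [← pow_mul]
  rw [hNK]
  obtain ⟨K, hK⟩ : ∃ K, K = g * M := ⟨_, rfl⟩
  have hK1 : 1 ≤ K := by rw [hK]; exact Nat.one_le_iff_ne_zero.2 (by positivity)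
  rw [← hK]
  have h4 : 4 ∣ 2 * 2 ^ K := by
    obtain ⟨k, rfl⟩ : ∃ k, K = k + 1 := ⟨K - 1, by omega⟩
    exact ⟨2 ^ k, by rw [pow_succ]; ring⟩
  have h2 : 2 ∣ 2 * 2 ^ K := Dvd.intro _ rfl
  have hN : 2 ^ K ∣ 2 * 2 ^ K := Dvd.intro_left _ rfl
  set π := ZMod.castHom h2 (ZMod 2) with hπ
  set σ := ZMod.castHom h4 (ZMod 4) with hσ
  set ρ := ZMod.castHom hN (ZMod (2 ^ K)) with hρ
  have hloc : ∀ r : ZMod (2 * 2 ^ K), π r ≠ 0 → IsUnit r :=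
    isUnit_of_cast' 2 (K + 1) (2 * 2 ^ K) (by rw [pow_succ]; ring) h2
  have huv : ∀ U V : ZMod (2 * 2 ^ K), π U ≠ 0 → σ U = σ V → U ^ 2 = V ^ 2 → ρ U = ρ V :=
    fun U V hU hUV hsq => huv_two K h4 h2 hN U V hU hUV hsq
  set q : ZMod (2 * 2 ^ K) := ((2 ^ g : ℕ) : ZMod (2 * 2 ^ K)) with hq
  have h2qM : 2 * q ^ M = 0 := by
    have h1 : ((2 * 2 ^ K : ℕ) : ZMod (2 * 2 ^ K)) = 0 := ZMod.natCast_self _
    rw [hq, ← Nat.cast_pow, ← pow_mul, ← hK]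
    have h3 : (2 : ZMod (2 * 2 ^ K)) = ((2 : ℕ) : ZMod (2 * 2 ^ K)) := by norm_num
    rw [h3, ← Nat.cast_mul, h1]
  have hσ2q : 2 * σ q = 0 := by
    rw [hq, map_natCast]
    have h3 : (2 : ZMod 4) = ((2 : ℕ) : ZMod 4) := by norm_num
    rw [h3, ← Nat.cast_mul, ZMod.natCast_eq_zero_iff]
    obtain ⟨k, rfl⟩ : ∃ k, g = k + 1 := ⟨g - 1, by omega⟩
    exact ⟨2 ^ k, by rw [pow_succ]; ring⟩
  have hπ2 : (2 : ZMod 2) = 0 := CharTwo.two_eq_zero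
  have hπint : ∀ z : ℤ, π (z : ZMod (2 * 2 ^ K)) = (z : ZMod 2) := fun z => map_intCast π z
  have hσint : ∀ z : ℤ, σ (z : ZMod (2 * 2 ^ K)) = (z : ZMod 4) := fun z => map_intCast σ z
  obtain ⟨Ψ, W, hΨ⟩ := exists_catalan_poly (ZMod (2 * 2 ^ K)) M
  set Φ : (ZMod (2 * 2 ^ K))[X] := 1 + 2 * X * Ψ with hΦ
  have hΦsq : Φ ^ 2 = 1 + 4 * X + 4 * X ^ (M + 1) * W := by
    rw [hΦ]
    linear_combination (4 * X) * hΨ
  have hΦv : ∀ r : ZMod (2 * 2 ^ K), Φ.eval (q * r) ^ 2 = 1 + 4 * (q * r) := by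
    intro r
    have h := congrArg (fun P => P.eval (q * r)) hΦsq
    simp only [eval_pow, eval_add, eval_one, eval_X, eval_mul, eval_ofNat] at h
    rw [h]
    have h6 : 4 * (q * r) ^ (M + 1) = 0 := by
      rw [mul_pow, pow_succ q]
      linear_combination (2 * q * r ^ (M + 1)) * h2qM
    rw [h6]
    ring
  have hπΦ : ∀ r : ZMod (2 * 2 ^ K), π (Φ.eval (q * r)) = 1 := by
    intro r
    simp only [hΦ, eval_add, eval_one, eval_mul, eval_ofNat, eval_X, map_add, map_mul, map_one,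
      map_ofNat]
    rw [hπ2]
    ring
  have hσΦ : ∀ r : ZMod (2 * 2 ^ K), σ (Φ.eval (q * r)) = 1 := by
    intro r
    simp only [hΦ, eval_add, eval_one, eval_mul, eval_ofNat, eval_X, map_add, map_mul, map_one,
      map_ofNat]
    linear_combination (σ r * σ (Ψ.eval (q * r))) * hσ2q
  -- sign normalisation
  obtain ⟨Y', hY'⟩ : ∃ Y' : ℕ → ℤ → ℤ, Y' = fun i x =>
    if ((Y i x * Y 0 x0 : ℤ) : ZMod 4) = ((Y i x0 * Y 0 x : ℤ) : ZMod 4) then Y i x else -Y i x :=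
    ⟨_, rfl⟩
  have hY'sq : ∀ i x, Y' i x ^ 2 = Y i x ^ 2 := by
    intro i x
    simp only [hY']
    split_ifs
    · rfl
    · ring
  have hY'0 : ∀ x, Y' 0 x = Y 0 x := by
    intro x
    simp only [hY']
    rw [if_pos (by rw [mul_comm])]
  have hY'x0 : ∀ i, Y' i x0 = Y i x0 := by
    intro i
    simp only [hY']
    exact if_pos trivial
  have hεu : ∀ i ∈ {i : ℕ | i ≤ s}, π (ε i : ZMod (2 * 2 ^ K)) ≠ 0 := by
    intro i hi h0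
    rw [hπint] at h0
    exact hε i hi (by exact_mod_cast (ZMod.intCast_zmod_eq_zero_iff_dvd _ 2).1 h0)
  have hδu : ∀ x ∈ {x : ℤ | x ∈ S}, π (δ x : ZMod (2 * 2 ^ K)) ≠ 0 := by
    intro x hx h0
    rw [hπint] at h0
    exact hδ x hx (by exact_mod_cast (ZMod.intCast_zmod_eq_zero_iff_dvd _ 2).1 h0)
  have hcast : ∀ i ≤ s, ∀ x ∈ S, ((Y i x : ℤ) : ZMod (2 * 2 ^ K)) ^ 2 =
      (ε i : ZMod (2 * 2 ^ K)) * (δ x : ZMod (2 * 2 ^ K)) +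
        (4 * q) * ((β i : ZMod (2 * 2 ^ K)) * (γ x : ZMod (2 * 2 ^ K))) := by
    intro i hi x hx
    have h6 := congrArg (fun z : ℤ => (z : ZMod (2 * 2 ^ K))) (hpad i hi x hx)
    simp only [Int.cast_pow, Int.cast_add, Int.cast_mul, Int.cast_ofNat] at h6
    rw [h6]
    congr 2
    rw [hq, Nat.cast_pow, pow_add]
    push_cast
    ring
  have hodd : ∀ i ≤ s, ∀ x ∈ S, ¬ (2 : ℤ) ∣ Y i x := by
    intro i hi x hx h
    have h1 := hpad i hi x hx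
    have h3 : (2 : ℤ) ∣ ε i * δ x := by
      have h5 : (2 : ℤ) ∣ Y i x ^ 2 := h.trans (dvd_pow_self _ (by norm_num))
      have h6 : (2 : ℤ) ∣ (2 : ℤ) ^ (g + 2) * (β i * γ x) :=
        (dvd_pow_self _ (by omega)).mul_right _
      have := dvd_sub h5 h6
      rw [h1] at this
      simpa using this
    rcases Int.prime_two.dvd_or_dvd h3 with h3 | h3
    · exact hε i hi h3
    · exact hδ x hx h3
  have hyfac : ∀ i ∈ {i : ℕ | i ≤ s}, ∀ x ∈ {x : ℤ | x ∈ S},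
      ((Y' i x : ℤ) : ZMod (2 * 2 ^ K)) ^ 2 =
      (ε i : ZMod (2 * 2 ^ K)) * (δ x : ZMod (2 * 2 ^ K)) * (1 + 4 * (q *
        (((β i : ZMod (2 * 2 ^ K)) * Ring.inverse (ε i : ZMod (2 * 2 ^ K))) *
        ((γ x : ZMod (2 * 2 ^ K)) * Ring.inverse (δ x : ZMod (2 * 2 ^ K)))))) := by
    intro i hi x hx
    rw [← mul_assoc 4 q]
    refine shape π hloc _ _ _ _ _ _ (hεu i hi) (hδu x hx) ?_
    rw [← hcast i hi x hx]
    exact_mod_cast congrArg (fun z : ℤ => (z : ZMod (2 * 2 ^ K))) (hY'sq i x)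
  have hpm : ∀ A B : ℤ, ¬ (2 : ℤ) ∣ A → ¬ (2 : ℤ) ∣ B →
      (A : ZMod 4) = (B : ZMod 4) ∨ (A : ZMod 4) = -(B : ZMod 4) := by
    intro A B hA hB
    by_cases h : (4 : ℤ) ∣ A - B
    · left
      have : ((A - B : ℤ) : ZMod 4) = 0 := (ZMod.intCast_zmod_eq_zero_iff_dvd _ 4).2 h
      push_cast at this
      exact sub_eq_zero.1 this
    · right
      have h5 : (4 : ℤ) ∣ A + B := by omega
      have : ((A + B : ℤ) : ZMod 4) = 0 := (ZMod.intCast_zmod_eq_zero_iff_dvd _ 4).2 h5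
      push_cast at this
      exact eq_neg_of_add_eq_zero_left this
  have hsgn : ∀ i ∈ {i : ℕ | i ≤ s}, ∀ x ∈ {x : ℤ | x ∈ S},
      σ (((Y' i x : ℤ) : ZMod (2 * 2 ^ K)) * ((Y' 0 x0 : ℤ) : ZMod (2 * 2 ^ K))) =
      σ (((Y' i x0 : ℤ) : ZMod (2 * 2 ^ K)) * ((Y' 0 x : ℤ) : ZMod (2 * 2 ^ K))) := by
    intro i hi x hx
    rw [map_mul, map_mul, hσint, hσint, hσint, hσint, hY'0, hY'x0, hY'0]
    simp only [hY']
    split_ifs with hc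
    · push_cast at hc
      exact hc
    · have hnd : ∀ A B : ℤ, ¬ (2 : ℤ) ∣ A → ¬ (2 : ℤ) ∣ B → ¬ (2 : ℤ) ∣ A * B := by
        intro A B hA hB h
        rcases Int.prime_two.dvd_or_dvd h with h | h
        · exact hA h
        · exact hB h
      have h1 := hpm (Y i x * Y 0 x0) (Y i x0 * Y 0 x)
        (hnd _ _ (hodd i hi x hx) (hodd 0 (by omega) x0 hx0))
        (hnd _ _ (hodd i hi x0 hx0) (hodd 0 (by omega) x hx))
      push_cast at hc h1 ⊢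
      rcases h1 with h1 | h1
      · exact absurd h1 hc
      · rw [neg_mul, h1, neg_neg]
  obtain ⟨P, τ, hPτ⟩ := factor π σ ρ hloc huv q 4 Φ
    hΦv hπΦ hσΦ {i : ℕ | i ≤ s}
    {x : ℤ | x ∈ S} (fun i x => ((Y' i x : ℤ) : ZMod (2 * 2 ^ K)))
    (fun i => (ε i : ZMod (2 * 2 ^ K)))
    (fun x => (δ x : ZMod (2 * 2 ^ K)))
    (fun i => (β i : ZMod (2 * 2 ^ K)) * Ring.inverse (ε i : ZMod (2 * 2 ^ K)))
    (fun x => (γ x : ZMod (2 * 2 ^ K)) * Ring.inverse (δ x : ZMod (2 * 2 ^ K)))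
    hεu hδu hyfac 0 (by simp) x0 hx0 hsgn
  refine ⟨Y', P, τ, fun x => ρ ((γ x : ZMod (2 * 2 ^ K)) *
    Ring.inverse (δ x : ZMod (2 * 2 ^ K))), hY'sq, fun i hi x hx => ?_⟩
  have h9 := hPτ i hi x hx
  rw [map_intCast] at h9
  rw [h9, hq, map_natCast]

/-- The two cases together. -/
theorem padic_factor (p : ℕ) [Fact p.Prime] (h g M : ℕ) (hg : 1 ≤ g) (hM : 1 ≤ M)
    (hcase : (p ≠ 2 ∧ h = g) ∨ (p = 2 ∧ h = g + 2))
    (s : ℕ) (S : Finset ℤ) (x0 : ℤ) (hx0 : x0 ∈ S) (Y : ℕ → ℤ → ℤ)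
    (ε β : ℕ → ℤ) (δ γ : ℤ → ℤ)
    (hpad : ∀ i ≤ s, ∀ x ∈ S, Y i x ^ 2 = ε i * δ x + (p : ℤ) ^ h * (β i * γ x))
    (hε : ∀ i ≤ s, ¬ (p : ℤ) ∣ ε i) (hδ : ∀ x ∈ S, ¬ (p : ℤ) ∣ δ x) :
    ∃ (Y' : ℕ → ℤ → ℤ) (P : ℕ → (ZMod ((p ^ g) ^ M))[X]) (τ c : ℤ → ZMod ((p ^ g) ^ M)),
      (∀ i x, Y' i x ^ 2 = Y i x ^ 2) ∧
      ∀ i ≤ s, ∀ x ∈ S, ((Y' i x : ℤ) : ZMod ((p ^ g) ^ M)) =
        τ x * (P i).eval (((p ^ g : ℕ) : ZMod ((p ^ g) ^ M)) * c x) := by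
  rcases hcase with ⟨hp2, rfl⟩ | ⟨rfl, rfl⟩
  · exact padic_odd p hp2 _ M hg hM s S x0 hx0 Y ε β δ γ hpad hε hδ
  · exact padic_two g M hg hM s S x0 hx0 Y ε β δ γ (by exact_mod_cast hpad)
      (by exact_mod_cast hε) (by exact_mod_cast hδ)

end Pool.Agent.Helper13.Dn
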