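import Mathlib

set_option autoImplicit false

namespace Pool.Agent.Helper13.Dn

open Polynomial Finset

theorem mul_pow_eq_zero_of_cast (q M l : ℕ) (hq : 1 ≤ q) (hl : l ≤ M) (r : ZMod (q ^ M))
    (h : ZMod.castHom (pow_dvd_pow q (Nat.sub_le M l)) (ZMod (q ^ (M - l))) r = 0) :
    (q : ZMod (q ^ M)) ^ l * r = 0 := by
  have : NeZero (q ^ M) := ⟨by positivity⟩
  have hr : ((r.val : ℕ) : ZMod (q ^ M)) = r := ZMod.natCast_zmod_val r
  rw [← hr, map_natCast] at h
  rw [ZMod.natCast_eq_zero_iff] at h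
  rw [← hr, ← Nat.cast_pow, ← Nat.cast_mul, ZMod.natCast_eq_zero_iff]
  obtain ⟨k, hk⟩ := h
  rw [hk, ← mul_assoc, ← pow_add, Nat.add_sub_cancel' hl]
  exact dvd_mul_right _ _

theorem prod_sq (q M : ℕ) : (∏ l ∈ Finset.range M, q ^ (M - l)) ^ 2 = q ^ (M * (M + 1)) := by
  induction M with
  | zero => simp
  | succ M ih =>
    rw [Finset.prod_range_succ']
    have : ∀ l ∈ Finset.range M, q ^ (M + 1 - (l + 1)) = q ^ (M - l) := by
      intro l _
      congr 1
      omega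
    rw [Finset.prod_congr rfl this, mul_pow, ih, Nat.sub_zero, ← pow_mul, ← pow_add]
    congr 1
    ring

theorem pigeon (q M : ℕ) (hq : 1 ≤ q) {κ : Type*} [Fintype κ] [DecidableEq κ]
    (P : κ → (ZMod (q ^ M))[X]) (hκ : Fintype.card κ = M + 1) :
    ∃ δ : κ → ℤ, δ ≠ 0 ∧ (∀ i, δ i ^ 2 ≤ (q : ℤ) ^ M) ∧
      ∀ c : ZMod (q ^ M), ∑ i, (δ i : ZMod (q ^ M)) * (P i).eval ((q : ZMod (q ^ M)) * c) = 0 := by
  classical
  set Λ := Nat.sqrt (q ^ M) with hΛ
  have : NeZero q := ⟨by omega⟩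
  let f : (κ → Fin (Λ + 1)) → (∀ l : Fin M, ZMod (q ^ (M - (l : ℕ)))) := fun lam l =>
    ZMod.castHom (pow_dvd_pow q (Nat.sub_le M l)) (ZMod (q ^ (M - (l : ℕ))))
      (∑ i, ((lam i : ℕ) : ZMod (q ^ M)) * (P i).coeff l)
  have hcard : Fintype.card (∀ l : Fin M, ZMod (q ^ (M - (l : ℕ)))) <
      Fintype.card (κ → Fin (Λ + 1)) := by
    rw [Fintype.card_pi, Fintype.card_fun, Fintype.card_fin, hκ]
    simp only [ZMod.card]
    rw [Fin.prod_univ_eq_prod_range (fun l => q ^ (M - l)) M]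
    refine lt_of_pow_lt_pow_left₀ 2 (by positivity) ?_
    rw [prod_sq, ← pow_mul, mul_comm (M + 1) 2, pow_mul, pow_mul]
    refine Nat.pow_lt_pow_left ?_ (by omega)
    have := Nat.lt_succ_sqrt (q ^ M)
    rw [← hΛ] at this
    calc q ^ M < (Λ + 1) * (Λ + 1) := this
      _ = (Λ + 1) ^ 2 := by ring
  obtain ⟨u, v, huv, hf⟩ := Fintype.exists_ne_map_eq_of_card_lt f hcard
  refine ⟨fun i => ((u i : ℕ) : ℤ) - ((v i : ℕ) : ℤ), ?_, ?_, ?_⟩
  · intro h
    apply huv
    funext i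
    have := congrFun h i
    simp only [Pi.zero_apply] at this
    apply Fin.ext
    omega
  · intro i
    have h1 : ((u i : ℕ) : ℤ) ≤ Λ := by have := (u i).isLt; omega
    have h2 : ((v i : ℕ) : ℤ) ≤ Λ := by have := (v i).isLt; omega
    have h3 : (0 : ℤ) ≤ (u i : ℕ) := by positivity
    have h4 : (0 : ℤ) ≤ (v i : ℕ) := by positivity
    have h5 : ((Λ : ℕ) : ℤ) * Λ ≤ (q : ℤ) ^ M := by
      have := Nat.sqrt_le (q ^ M)
      rw [← hΛ] at this
      exact_mod_cast this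
    show (((u i : ℕ) : ℤ) - ((v i : ℕ) : ℤ)) ^ 2 ≤ (q : ℤ) ^ M
    nlinarith
  · intro c
    -- the combined polynomial
    set Q : (ZMod (q ^ M))[X] := ∑ i, C (((((u i : ℕ) : ℤ) - ((v i : ℕ) : ℤ) : ℤ) : ZMod (q ^ M))) * P i
      with hQ
    have hcoeff : ∀ l < M, (q : ZMod (q ^ M)) ^ l * Q.coeff l = 0 := by
      intro l hl
      apply mul_pow_eq_zero_of_cast q M l hq hl.le
      have h1 := congrFun hf ⟨l, hl⟩
      simp only [f] at h1
      rw [hQ, finsetSum_coeff]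
      have h2 : ∑ i, (C (((((u i : ℕ) : ℤ) - ((v i : ℕ) : ℤ) : ℤ) : ZMod (q ^ M))) * P i).coeff l =
          (∑ i, ((u i : ℕ) : ZMod (q ^ M)) * (P i).coeff l) -
          (∑ i, ((v i : ℕ) : ZMod (q ^ M)) * (P i).coeff l) := by
        rw [← Finset.sum_sub_distrib]
        refine Finset.sum_congr rfl (fun i _ => ?_)
        rw [coeff_C_mul]
        push_cast
        ring
      rw [h2, map_sub, h1, sub_self]
    have hqM : (q : ZMod (q ^ M)) ^ M = 0 := by
      rw [← Nat.cast_pow]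
      exact ZMod.natCast_self _
    have hQeval : Q.eval ((q : ZMod (q ^ M)) * c) = 0 := by
      rw [eval_eq_sum_range]
      refine Finset.sum_eq_zero (fun l _ => ?_)
      rw [mul_pow]
      rcases lt_or_ge l M with hl | hl
      · have := hcoeff l hl
        calc Q.coeff l * ((q : ZMod (q ^ M)) ^ l * c ^ l)
            = ((q : ZMod (q ^ M)) ^ l * Q.coeff l) * c ^ l := by ring
          _ = 0 := by rw [this, zero_mul]
      · have : (q : ZMod (q ^ M)) ^ l = 0 := by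
          rw [← Nat.add_sub_cancel' hl, pow_add, hqM, zero_mul]
        rw [this]; ring
    rw [hQ, eval_finsetSum] at hQeval
    rw [← hQeval]
    refine Finset.sum_congr rfl (fun i _ => ?_)
    rw [eval_mul, eval_C]

end Pool.Agent.Helper13.Dn
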