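import Mathlib

set_option autoImplicit false

namespace Pool.Agent.Helper13.Dn

open Polynomial Finset

section Tower

variable {A₀ : Type*} [CommRing A₀] (φ : ℚ[X] →+* A₀) (t : ℕ → A₀)

/-- Elements of level `j` and weight at most `d`. -/
def Lev : ℕ → ℕ → Set A₀
  | 0, d => {z | ∃ P : ℚ[X], 2 * P.natDegree ≤ d ∧ z = φ P}
  | (j + 1), d => {z | ∃ A B : A₀, A ∈ Lev j d ∧
      (B = 0 ∨ ∃ d' : ℕ, d = d' + 1 ∧ B ∈ Lev j d') ∧ z = A + t j * B}

variable {φ t}

theorem Lev.mem_zero {d : ℕ} {z : A₀} :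
    z ∈ Lev φ t 0 d ↔ ∃ P : ℚ[X], 2 * P.natDegree ≤ d ∧ z = φ P := Iff.rfl

theorem Lev.mem_succ {j d : ℕ} {z : A₀} :
    z ∈ Lev φ t (j + 1) d ↔ ∃ A B : A₀, A ∈ Lev φ t j d ∧
      (B = 0 ∨ ∃ d' : ℕ, d = d' + 1 ∧ B ∈ Lev φ t j d') ∧ z = A + t j * B := Iff.rfl

theorem Lev.poly_mem (j : ℕ) {d : ℕ} {P : ℚ[X]} (hP : 2 * P.natDegree ≤ d) :
    φ P ∈ Lev φ t j d := by
  induction j with
  | zero => exact ⟨P, hP, rfl⟩
  | succ j ih => exact ⟨φ P, 0, ih, Or.inl rfl, by simp⟩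

theorem Lev.zero_mem (j d : ℕ) : (0 : A₀) ∈ Lev φ t j d := by
  have := Lev.poly_mem (φ := φ) (t := t) j (d := d) (P := 0) (by simp)
  simpa using this

theorem Lev.mono {j d d' : ℕ} (h : d ≤ d') {z : A₀} (hz : z ∈ Lev φ t j d) :
    z ∈ Lev φ t j d' := by
  induction j generalizing d d' z with
  | zero =>
    obtain ⟨P, hP, rfl⟩ := hz
    exact ⟨P, hP.trans h, rfl⟩
  | succ j ih =>
    obtain ⟨A, B, hA, hB, rfl⟩ := hz
    refine ⟨A, B, ih h hA, ?_, rfl⟩
    rcases hB with hB | ⟨e, he, hB⟩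
    · exact Or.inl hB
    · refine Or.inr ⟨d' - 1, by omega, ih (by omega) hB⟩

theorem Lev.succ_level {j d : ℕ} {z : A₀} (hz : z ∈ Lev φ t j d) :
    z ∈ Lev φ t (j + 1) d := ⟨z, 0, hz, Or.inl rfl, by simp⟩

theorem Lev.level_mono {j j' d : ℕ} (h : j ≤ j') {z : A₀} (hz : z ∈ Lev φ t j d) :
    z ∈ Lev φ t j' d := by
  induction h with
  | refl => exact hz
  | step _ ih => exact Lev.succ_level ih

theorem Lev.add_mem {j d : ℕ} {z w : A₀} (hz : z ∈ Lev φ t j d) (hw : w ∈ Lev φ t j d) :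
    z + w ∈ Lev φ t j d := by
  induction j generalizing d z w with
  | zero =>
    obtain ⟨P, hP, rfl⟩ := hz
    obtain ⟨Q, hQ, rfl⟩ := hw
    refine ⟨P + Q, ?_, by simp⟩
    have := natDegree_add_le P Q
    omega
  | succ j ih =>
    obtain ⟨A, B, hA, hB, rfl⟩ := hz
    obtain ⟨A', B', hA', hB', rfl⟩ := hw
    refine ⟨A + A', B + B', ih hA hA', ?_, by ring⟩
    rcases hB with rfl | ⟨e, he, hB⟩
    · simpa using hB'
    · rcases hB' with rfl | ⟨e', he', hB'⟩
      · exact Or.inr ⟨e, he, by simpa using hB⟩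
      · refine Or.inr ⟨e, he, ih hB ?_⟩
        have : e' = e := by omega
        rwa [this] at hB'

theorem Lev.neg_mem {j d : ℕ} {z : A₀} (hz : z ∈ Lev φ t j d) :
    -z ∈ Lev φ t j d := by
  induction j generalizing d z with
  | zero =>
    obtain ⟨P, hP, rfl⟩ := hz
    exact ⟨-P, by simpa using hP, by simp⟩
  | succ j ih =>
    obtain ⟨A, B, hA, hB, rfl⟩ := hz
    refine ⟨-A, -B, ih hA, ?_, by ring⟩
    rcases hB with rfl | ⟨e, he, hB⟩
    · exact Or.inl (by simp)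
    · exact Or.inr ⟨e, he, ih hB⟩

theorem Lev.t_mem {i j : ℕ} (h : i < j) : t i ∈ Lev φ t j 1 := by
  have h1 : t i ∈ Lev φ t (i + 1) 1 := by
    refine ⟨0, 1, Lev.zero_mem _ _, Or.inr ⟨0, rfl, ?_⟩, by simp⟩
    have := Lev.poly_mem (φ := φ) (t := t) i (d := 0) (P := 1) (by simp)
    simpa using this
  exact Lev.level_mono h h1

theorem Lev.mul_mem {m : ℕ → ℚ[X]} (hm : ∀ j, (m j).natDegree ≤ 1) {j : ℕ}
    (ht : ∀ i < j, t i ^ 2 = φ (m i)) {d e : ℕ} {z w : A₀}
    (hz : z ∈ Lev φ t j d) (hw : w ∈ Lev φ t j e) :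
    z * w ∈ Lev φ t j (d + e) := by
  induction j generalizing d e z w with
  | zero =>
    obtain ⟨P, hP, rfl⟩ := hz
    obtain ⟨Q, hQ, rfl⟩ := hw
    refine ⟨P * Q, ?_, by simp⟩
    have := natDegree_mul_le (p := P) (q := Q)
    omega
  | succ j ih =>
    have ih' : ∀ {d e : ℕ} {z w : A₀}, z ∈ Lev φ t j d → w ∈ Lev φ t j e →
        z * w ∈ Lev φ t j (d + e) := fun hz hw => ih (fun i hi => ht i (by omega)) hz hw
    have htj := ht j (by omega)
    have hmj : φ (m j) ∈ Lev φ t j 2 := Lev.poly_mem j (by have := hm j; omega)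
    obtain ⟨A, B, hA, hB, rfl⟩ := hz
    obtain ⟨A', B', hA', hB', rfl⟩ := hw
    refine ⟨A * A' + φ (m j) * (B * B'), A * B' + B * A', ?_, ?_, ?_⟩
    · refine Lev.add_mem (ih' hA hA') ?_
      rcases hB with rfl | ⟨f, hf, hB⟩
      · simpa using Lev.zero_mem _ _
      · rcases hB' with rfl | ⟨g, hg, hB'⟩
        · simpa using Lev.zero_mem _ _
        · exact Lev.mono (by omega) (ih' hmj (ih' hB hB'))
    · by_cases h0 : B = 0 ∧ B' = 0
      · left; simp [h0.1, h0.2]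
      · right
        have hpos : 0 < d + e := by
          rcases hB with hB | ⟨f, hf, hB⟩
          · rcases hB' with hB' | ⟨g, hg, hB'⟩
            · exact absurd ⟨hB, hB'⟩ h0
            · omega
          · omega
        refine ⟨d + e - 1, by omega, Lev.add_mem ?_ ?_⟩
        · rcases hB' with rfl | ⟨g, hg, hB'⟩
          · simpa using Lev.zero_mem _ _
          · exact Lev.mono (by omega) (ih' hA hB')
        · rcases hB with rfl | ⟨f, hf, hB⟩
          · simpa using Lev.zero_mem _ _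
          · exact Lev.mono (by omega) (ih' hB hA')
    · rw [← htj]; ring

theorem Lev.map_mem {B₀ : Type*} [CommRing B₀] (ψ : A₀ →+* B₀) {j d : ℕ} {z : A₀}
    (hz : z ∈ Lev φ t j d) : ψ z ∈ Lev (ψ.comp φ) (fun i => ψ (t i)) j d := by
  induction j generalizing d z with
  | zero =>
    obtain ⟨P, hP, rfl⟩ := hz
    exact ⟨P, hP, rfl⟩
  | succ j ih =>
    obtain ⟨A, B, hA, hB, rfl⟩ := hz
    refine ⟨ψ A, ψ B, ih hA, ?_, by simp⟩
    rcases hB with rfl | ⟨e, he, hB⟩
    · exact Or.inl (by simp)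
    · exact Or.inr ⟨e, he, ih hB⟩

end Tower

section Field

variable {Ω : Type*} [Field Ω] {φ : ℚ[X] →+* Ω} {t : ℕ → Ω}

theorem claim (h2 : (2 : Ω) ≠ 0) {m : ℕ → ℚ[X]} (hm : ∀ j, (m j).natDegree ≤ 1)
    (hφ : Function.Injective φ) (s : ℕ) (ht : ∀ i ≤ s, t i ^ 2 = φ (m i))
    (ns : ∀ U : Finset ℕ, U ⊆ Finset.range (s + 1) → U.Nonempty → ∀ P Q : ℚ[X],
      P ^ 2 = (∏ i ∈ U, m i) * Q ^ 2 → Q = 0)
    (j : ℕ) (hj : j ≤ s + 1) :
    ∀ U : Finset ℕ, U ⊆ Finset.range (s + 1) → U.Nonempty → (∀ i ∈ U, j ≤ i) →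
      ∀ (d e : ℕ) (A B : Ω), A ∈ Lev φ t j d → B ∈ Lev φ t j e →
        A ^ 2 = φ (∏ i ∈ U, m i) * B ^ 2 → B = 0 := by
  induction j with
  | zero =>
    intro U hU hne _ d e A B hA hB hAB
    obtain ⟨P, hP, rfl⟩ := hA
    obtain ⟨Q, hQ, rfl⟩ := hB
    have : P ^ 2 = (∏ i ∈ U, m i) * Q ^ 2 := hφ (by simpa using hAB)
    rw [ns U hU hne P Q this, map_zero]
  | succ j ih =>
    have ih := ih (by omega)
    intro U hU hne hUj d e A B hA hB hAB
    by_contra hB0
    have htj : t j ^ 2 = φ (m j) := ht j (by omega)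
    have htj' : ∀ i < j, t i ^ 2 = φ (m i) := fun i hi => ht i (by omega)
    have mulm : ∀ {d e : ℕ} {z w : Ω}, z ∈ Lev φ t j d → w ∈ Lev φ t j e →
        z * w ∈ Lev φ t j (d + e) := fun hz hw => Lev.mul_mem hm htj' hz hw
    -- decompositions
    have dec : ∀ {d : ℕ} {z : Ω}, z ∈ Lev φ t (j + 1) d →
        ∃ A B : Ω, A ∈ Lev φ t j d ∧ B ∈ Lev φ t j d ∧ z = A + t j * B := by
      intro d z hz
      obtain ⟨A, B, hA, hB, rfl⟩ := hz
      refine ⟨A, B, hA, ?_, rfl⟩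
      rcases hB with rfl | ⟨e, he, hB⟩
      · exact Lev.zero_mem _ _
      · exact Lev.mono (by omega) hB
    have single : ∀ (d e : ℕ) (A B : Ω), A ∈ Lev φ t j d → B ∈ Lev φ t j e →
        A ^ 2 = φ (m j) * B ^ 2 → B = 0 := by
      intro d e A B hA hB hAB
      refine ih {j} ?_ (Finset.singleton_nonempty j) ?_ d e A B hA hB ?_
      · intro i hi
        rw [Finset.mem_singleton] at hi
        subst hi
        exact Finset.mem_range.2 (by omega)
      · intro i hi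
        rw [Finset.mem_singleton] at hi
        omega
      · simpa using hAB
    obtain ⟨β0, β1, hβ0, hβ1, hBeq⟩ := dec hB
    obtain ⟨α0, α1, hα0, hα1, hAeq⟩ := dec hA
    -- conjugate and norm
    set N := β0 ^ 2 - φ (m j) * β1 ^ 2 with hN
    have hNmem : ∃ f : ℕ, N ∈ Lev φ t j f := by
      refine ⟨(e + e) + (2 + (e + e)), ?_⟩
      rw [hN, sub_eq_add_neg]
      refine Lev.add_mem ?_ (Lev.neg_mem ?_)
      · rw [pow_two]; exact Lev.mono (by omega) (mulm hβ0 hβ0)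
      · have hmj : φ (m j) ∈ Lev φ t j 2 := Lev.poly_mem j (by have := hm j; omega)
        rw [pow_two]; exact Lev.mono (by omega) (mulm hmj (mulm hβ1 hβ1))
    obtain ⟨f, hNf⟩ := hNmem
    have hN0 : N ≠ 0 := by
      intro h
      have h1 : β0 ^ 2 = φ (m j) * β1 ^ 2 := sub_eq_zero.1 h
      have h3 := single e e β0 β1 hβ0 hβ1 h1
      rw [h3] at h1
      have h4 : β0 = 0 := by
        have : β0 ^ 2 = 0 := by rw [h1]; ring
        exact pow_eq_zero_iff (two_ne_zero) |>.1 this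
      exact hB0 (by rw [hBeq, h3, h4]; ring)
    set γ0 := α0 * β0 - φ (m j) * (α1 * β1) with hγ0
    set γ1 := α1 * β0 - α0 * β1 with hγ1
    have hmj : φ (m j) ∈ Lev φ t j 2 := Lev.poly_mem j (by have := hm j; omega)
    have hγ0m : γ0 ∈ Lev φ t j (2 + (d + e)) := by
      rw [hγ0, sub_eq_add_neg]
      exact Lev.add_mem (Lev.mono (by omega) (mulm hα0 hβ0))
        (Lev.neg_mem (mulm hmj (mulm hα1 hβ1)))
    have hγ1m : γ1 ∈ Lev φ t j (d + e) := by
      rw [hγ1, sub_eq_add_neg]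
      exact Lev.add_mem (mulm hα1 hβ0) (Lev.neg_mem (mulm hα0 hβ1))
    set mU := φ (∏ i ∈ U, m i) with hmU
    have key : (γ0 + t j * γ1) ^ 2 = mU * N ^ 2 := by
      have e1 : γ0 + t j * γ1 = A * (β0 - t j * β1) := by
        rw [hAeq, hγ0, hγ1, ← htj]; ring
      have e2 : N = B * (β0 - t j * β1) := by
        rw [hBeq, hN, ← htj]; ring
      rw [e1, e2, mul_pow, hAB]; ring
    have hmUm : mU ∈ Lev φ t j (2 * (∏ i ∈ U, m i).natDegree) := Lev.poly_mem j le_rfl
    -- 2 γ0 γ1 = 0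
    have hprod : 2 * (γ0 * γ1) = 0 := by
      set c := mU * (N * N) - (γ0 * γ0 + φ (m j) * (γ1 * γ1)) with hc
      have h3 : c = t j * (2 * (γ0 * γ1)) := by
        rw [hc, ← htj]
        linear_combination -key
      have hcm : ∃ g : ℕ, c ∈ Lev φ t j g := by
        refine ⟨(2 * (∏ i ∈ U, m i).natDegree + (f + f)) + ((2 + (d + e)) + (2 + (d + e)) +
          (2 + ((d + e) + (d + e)))), ?_⟩
        rw [hc, sub_eq_add_neg]
        refine Lev.add_mem (Lev.mono (by omega) (mulm hmUm (mulm hNf hNf))) (Lev.neg_mem ?_)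
        refine Lev.add_mem (Lev.mono (by omega) (mulm hγ0m hγ0m))
          (Lev.mono (by omega) (mulm hmj (mulm hγ1m hγ1m)))
      obtain ⟨g, hcg⟩ := hcm
      have h2m : 2 * (γ0 * γ1) ∈ Lev φ t j (0 + ((2 + (d + e)) + (d + e))) := by
        refine mulm ?_ (mulm hγ0m hγ1m)
        have := Lev.poly_mem (φ := φ) (t := t) j (d := 0) (P := 2) (by simp)
        rwa [map_ofNat] at this
      refine single _ _ c _ hcg h2m ?_
      rw [h3, mul_pow, htj]
    have hγ : γ0 = 0 ∨ γ1 = 0 := by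
      rcases mul_eq_zero.1 hprod with h | h
      · exact absurd h h2
      · exact mul_eq_zero.1 h
    rcases hγ with hγ | hγ
    · -- mU * m j is a square
      have hjU : j ∉ U := fun h => by have := hUj j h; omega
      have h5 : (γ1 * φ (m j)) ^ 2 = φ (∏ i ∈ insert j U, m i) * N ^ 2 := by
        rw [Finset.prod_insert hjU, map_mul, ← hmU]
        rw [hγ] at key
        have : t j ^ 2 * γ1 ^ 2 = mU * N ^ 2 := by linear_combination key
        rw [htj] at this
        linear_combination φ (m j) * this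
      refine hN0 (ih (insert j U) ?_ (Finset.insert_nonempty _ _) ?_ _ _ _ _
        (mulm hγ1m hmj) hNf h5)
      · intro i hi
        rcases Finset.mem_insert.1 hi with rfl | hi
        · exact Finset.mem_range.2 (by omega)
        · exact hU hi
      · intro i hi
        rcases Finset.mem_insert.1 hi with rfl | hi
        · exact le_rfl
        · have := hUj i hi; omega
    · have h5 : γ0 ^ 2 = φ (∏ i ∈ U, m i) * N ^ 2 := by
        rw [hγ] at key
        rw [← hmU, ← key]; ring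
      exact hN0 (ih U hU hne (fun i hi => by have := hUj i hi; omega) _ _ _ _ hγ0m hNf h5)

/-- One elimination step after another: a non-vanishing element divides a nonzero polynomial. -/
theorem eliminate {A₀ : Type*} [CommRing A₀] {φ₀ : ℚ[X] →+* A₀} {t₀ : ℕ → A₀}
    (ψ : A₀ →+* Ω) (h2 : (2 : Ω) ≠ 0) {m : ℕ → ℚ[X]} (hm : ∀ j, (m j).natDegree ≤ 1)
    (hφ : Function.Injective (ψ.comp φ₀)) (s : ℕ) (ht : ∀ i ≤ s, t₀ i ^ 2 = φ₀ (m i))
    (ns : ∀ U : Finset ℕ, U ⊆ Finset.range (s + 1) → U.Nonempty → ∀ P Q : ℚ[X],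
      P ^ 2 = (∏ i ∈ U, m i) * Q ^ 2 → Q = 0)
    (j : ℕ) (hj : j ≤ s + 1) :
    ∀ (d : ℕ) (z : A₀), z ∈ Lev φ₀ t₀ j d → ψ z ≠ 0 →
      ∃ (N : ℚ[X]) (w : A₀), N ≠ 0 ∧ 2 * N.natDegree ≤ 2 ^ j * d ∧ z * w = φ₀ N := by
  induction j with
  | zero =>
    intro d z hz hz0
    obtain ⟨P, hP, rfl⟩ := hz
    refine ⟨P, 1, ?_, by simpa using hP, by simp⟩
    rintro rfl
    simp at hz0
  | succ j ih =>
    have ih := ih (by omega)
    intro d z hz hz0
    have hz' := hz
    obtain ⟨A, B, hA, hB, rfl⟩ := hz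
    have ht' : ∀ i < j, t₀ i ^ 2 = φ₀ (m i) := fun i hi => ht i (by omega)
    have htj := ht j (by omega)
    have hmj : φ₀ (m j) ∈ Lev φ₀ t₀ j 2 := Lev.poly_mem j (by have := hm j; omega)
    have e1 : (A + t₀ j * B) * (A - t₀ j * B) = A * A + -(φ₀ (m j) * (B * B)) := by
      rw [← htj]; ring
    have hmem : (A + t₀ j * B) * (A - t₀ j * B) ∈ Lev φ₀ t₀ j (2 * d) := by
      rw [e1]
      refine Lev.add_mem (Lev.mono (by omega) (Lev.mul_mem hm ht' hA hA)) (Lev.neg_mem ?_)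
      rcases hB with rfl | ⟨e, he, hB⟩
      · simpa using Lev.zero_mem _ _
      · exact Lev.mono (by omega) (Lev.mul_mem hm ht' hmj (Lev.mul_mem hm ht' hB hB))
    have hne : ψ ((A + t₀ j * B) * (A - t₀ j * B)) ≠ 0 := by
      intro h
      rw [e1] at h
      have h3 : ψ A ^ 2 = (ψ.comp φ₀) (∏ i ∈ {j}, m i) * ψ B ^ 2 := by
        simp only [map_add, map_neg, map_mul] at h
        simp only [Finset.prod_singleton, RingHom.comp_apply]
        linear_combination h
      have hA' := Lev.map_mem ψ hA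
      have hB' : ψ B ∈ Lev (ψ.comp φ₀) (fun i => ψ (t₀ i)) j d := by
        rcases hB with rfl | ⟨e, he, hB⟩
        · simpa using Lev.zero_mem _ _
        · exact Lev.map_mem ψ (Lev.mono (by omega) hB)
      have h4 := claim (φ := ψ.comp φ₀) (t := fun i => ψ (t₀ i)) h2 hm hφ s
        (fun i hi => by
          have := congrArg ψ (ht i hi)
          simpa using this) ns j (by omega) {j} (by
            intro i hi
            rw [Finset.mem_singleton] at hi
            subst hi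
            exact Finset.mem_range.2 (by omega)) (Finset.singleton_nonempty j) (by
            intro i hi
            rw [Finset.mem_singleton] at hi
            omega) d d _ _ hA' hB' h3
      rw [h4] at h3
      have h5 : ψ A = 0 := by
        have : ψ A ^ 2 = 0 := by rw [h3]; ring
        exact pow_eq_zero_iff (two_ne_zero) |>.1 this
      exact hz0 (by rw [map_add, map_mul, h4, h5]; ring)
    obtain ⟨N, w, hN, hdeg, hw⟩ := ih _ _ hmem hne
    refine ⟨N, (A - t₀ j * B) * w, hN, ?_, by rw [← mul_assoc]; exact hw⟩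
    calc 2 * N.natDegree ≤ 2 ^ j * (2 * d) := hdeg
      _ = 2 ^ (j + 1) * d := by ring

end Field

end Pool.Agent.Helper13.Dn
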