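import Mathlib
import Pool.Agent.Helper13.Dn.Tower

set_option autoImplicit false

namespace Pool.Agent.Helper13.Dn

open Polynomial Finset

section V

variable {A₀ : Type*} [CommRing A₀] {φ : ℚ[X] →+* A₀} {t : ℕ → A₀}

theorem Lev.sum_mem {ι : Type*} (K : Finset ι) (f : ι → A₀) {j d : ℕ}
    (h : ∀ i ∈ K, f i ∈ Lev φ t j d) : ∑ i ∈ K, f i ∈ Lev φ t j d := by
  classical
  induction K using Finset.induction_on with
  | empty => simpa using Lev.zero_mem _ _
  | insert i K hi ih =>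
    rw [Finset.sum_insert hi]
    exact Lev.add_mem (h i (Finset.mem_insert_self _ _))
      (ih (fun k hk => h k (Finset.mem_insert_of_mem hk)))

theorem Lev.one_mem (j d : ℕ) : (1 : A₀) ∈ Lev φ t j d := by
  have := Lev.poly_mem (φ := φ) (t := t) j (d := d) (P := 1) (by simp)
  simpa using this

theorem Lev.prod_mem {ι : Type*} (K : Finset ι) (f : ι → A₀) {m : ℕ → ℚ[X]}
    (hm : ∀ j, (m j).natDegree ≤ 1) {j : ℕ} (ht : ∀ i < j, t i ^ 2 = φ (m i)) {d : ℕ}
    (h : ∀ i ∈ K, f i ∈ Lev φ t j d) : ∏ i ∈ K, f i ∈ Lev φ t j (K.card * d) := by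
  classical
  induction K using Finset.induction_on with
  | empty => simpa using Lev.one_mem _ _
  | insert i K hi ih =>
    rw [Finset.prod_insert hi, Finset.card_insert_of_notMem hi]
    refine Lev.mono ?_ (Lev.mul_mem hm ht (h i (Finset.mem_insert_self _ _))
      (ih (fun k hk => h k (Finset.mem_insert_of_mem hk))))
    ring_nf; exact le_rfl

end V

theorem nonsq (s : ℕ) (a : ℕ → ℤ) (n : ℤ) (hn : n ≠ 0) (ha : ∀ i ≤ s, a i ≠ 0)
    (hinj : ∀ i ≤ s, ∀ j ≤ s, a i = a j → i = j) :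
    ∀ U : Finset ℕ, U ⊆ Finset.range (s + 1) → U.Nonempty → ∀ P Q : ℚ[X],
      P ^ 2 = (∏ i ∈ U, (C (a i : ℚ) * X + C (n : ℚ))) * Q ^ 2 → Q = 0 := by
  classical
  intro U hU hne P Q h
  by_contra hQ
  obtain ⟨k, hk⟩ := hne
  have hks : k ≤ s := by have := Finset.mem_range.1 (hU hk); omega
  have hak : (a k : ℚ) ≠ 0 := by exact_mod_cast ha k hks
  have hnQ : (n : ℚ) ≠ 0 := by exact_mod_cast hn
  set ρ : ℚ := -(n : ℚ) / a k with hρ
  have hlin : ∀ i ∈ U, (C (a i : ℚ) * X + C (n : ℚ)) ≠ (0 : ℚ[X]) := by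
    intro i hi h0
    have := congrArg (fun P => eval 0 P) h0
    simp at this
    exact hn (by exact_mod_cast this)
  have hkeq : (C (a k : ℚ) * X + C (n : ℚ)) = C (a k : ℚ) * (X - C ρ) := by
    rw [mul_sub, ← C_mul, hρ]
    rw [mul_div_cancel₀ _ hak, C_neg]
    ring
  have hprod : (∏ i ∈ U, (C (a i : ℚ) * X + C (n : ℚ))) =
      (C (a k : ℚ) * (X - C ρ)) * ∏ i ∈ U.erase k, (C (a i : ℚ) * X + C (n : ℚ)) := by
    rw [← hkeq]
    exact (Finset.mul_prod_erase U (fun i => (C (a i : ℚ) * X + C (n : ℚ))) hk).symm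
  have hrest : (∏ i ∈ U.erase k, (C (a i : ℚ) * X + C (n : ℚ))).rootMultiplicity ρ = 0 := by
    apply rootMultiplicity_eq_zero
    rw [IsRoot.def, eval_prod]
    apply Finset.prod_ne_zero_iff.2
    intro i hi
    rw [Finset.mem_erase] at hi
    have his : i ≤ s := by have := Finset.mem_range.1 (hU hi.2); omega
    simp only [eval_add, eval_mul, eval_C, eval_X]
    intro h0
    have h1 : (a i : ℚ) * (-(n : ℚ)) + n * a k = 0 := by
      rw [hρ] at h0
      field_simp at h0
      linarith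
    have h2 : (a i : ℚ) = a k := by
      have h3 : (n : ℚ) * (a k - a i) = 0 := by linarith
      rcases mul_eq_zero.1 h3 with h3 | h3
      · exact absurd h3 hnQ
      · linarith
    exact hi.1 (hinj i his k hks (by exact_mod_cast h2))
  have hrest0 : (∏ i ∈ U.erase k, (C (a i : ℚ) * X + C (n : ℚ))) ≠ (0 : ℚ[X]) :=
    Finset.prod_ne_zero_iff.2 (fun i hi => hlin i (Finset.mem_of_mem_erase hi))
  have hXρ : (X - C ρ : ℚ[X]) ≠ 0 := X_sub_C_ne_zero ρ
  have hCak : (C (a k : ℚ) : ℚ[X]) ≠ 0 := by simpa using ha k hks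
  have hk0 : C (a k : ℚ) * (X - C ρ) ≠ 0 := mul_ne_zero hCak hXρ
  have hRHS : (∏ i ∈ U, (C (a i : ℚ) * X + C (n : ℚ))) * Q ^ 2 ≠ 0 :=
    mul_ne_zero (Finset.prod_ne_zero_iff.2 hlin) (pow_ne_zero _ hQ)
  have hP : P ≠ 0 := by
    rintro rfl
    apply hRHS
    rw [← h]; simp
  have e1 : (P ^ 2).rootMultiplicity ρ = 2 * P.rootMultiplicity ρ := by
    rw [pow_two, rootMultiplicity_mul (mul_ne_zero hP hP)]; ring
  have e2 : (Q ^ 2).rootMultiplicity ρ = 2 * Q.rootMultiplicity ρ := by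
    rw [pow_two, rootMultiplicity_mul (mul_ne_zero hQ hQ)]; ring
  have e3 : ((∏ i ∈ U, (C (a i : ℚ) * X + C (n : ℚ))) * Q ^ 2).rootMultiplicity ρ =
      1 + 2 * Q.rootMultiplicity ρ := by
    rw [rootMultiplicity_mul hRHS, e2, hprod,
      rootMultiplicity_mul (mul_ne_zero hk0 hrest0), hrest, rootMultiplicity_mul hk0]
    have : (C (a k : ℚ)).rootMultiplicity ρ = 0 := rootMultiplicity_C _ _
    rw [this, rootMultiplicity_X_sub_C_self]
  have := congrArg (fun P => P.rootMultiplicity ρ) h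
  simp only [e1, e3] at this
  omega

section Field

variable {Ω : Type*} [Field Ω] {φ : ℚ[X] →+* Ω} {t : ℕ → Ω}

theorem indep (h2 : (2 : Ω) ≠ 0) {m : ℕ → ℚ[X]} (hm : ∀ j, (m j).natDegree ≤ 1)
    (hφ : Function.Injective φ) (s : ℕ) (ht : ∀ i ≤ s, t i ^ 2 = φ (m i))
    (ns : ∀ U : Finset ℕ, U ⊆ Finset.range (s + 1) → U.Nonempty → ∀ P Q : ℚ[X],
      P ^ 2 = (∏ i ∈ U, m i) * Q ^ 2 → Q = 0)
    (j : ℕ) (hj : j ≤ s) (d : ℕ) :
    ∀ c : Finset ℕ → Ω, (∀ I, c I ∈ Lev φ t 1 d) →
      ∑ I ∈ (Finset.range j).powerset, c I * ∏ i ∈ I, t (i + 1) = 0 →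
      ∀ I ⊆ Finset.range j, c I = 0 := by
  classical
  induction j with
  | zero =>
    intro c _ h I hI
    have hI' : I = ∅ := by simpa using hI
    subst hI'
    simpa using h
  | succ j ih =>
    have ih := ih (by omega)
    intro c hc h I hI
    have hmem : ∀ c : Finset ℕ → Ω, (∀ I, c I ∈ Lev φ t 1 d) →
        ∑ I ∈ (Finset.range j).powerset, c I * ∏ i ∈ I, t (i + 1) ∈ Lev φ t (j + 1) (d + j * 1) := by
      intro c hc
      refine Lev.sum_mem _ _ ?_
      intro I hI
      have hIj : I ⊆ Finset.range j := Finset.mem_powerset.1 hI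
      have ht' : ∀ i < j + 1, t i ^ 2 = φ (m i) := fun i hi => ht i (by omega)
      refine Lev.mul_mem hm ht' (Lev.level_mono (by omega) (hc I)) ?_
      refine Lev.mono ?_ (Lev.prod_mem I (fun i => t (i + 1)) hm ht' (d := 1) ?_)
      · have := Finset.card_le_card hIj
        rw [Finset.card_range] at this
        omega
      · intro i hi
        have := Finset.mem_range.1 (hIj hi)
        exact Lev.t_mem (by omega)
    have hjr : j ∉ Finset.range j := Finset.notMem_range_self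
    have hrange : Finset.range (j + 1) = insert j (Finset.range j) := Finset.range_add_one
    rw [hrange, Finset.sum_powerset_insert hjr] at h
    set A := ∑ I ∈ (Finset.range j).powerset, c I * ∏ i ∈ I, t (i + 1) with hA
    set B := ∑ I ∈ (Finset.range j).powerset, c (insert j I) * ∏ i ∈ I, t (i + 1) with hB
    have h1 : ∑ I ∈ (Finset.range j).powerset, c (insert j I) * ∏ i ∈ insert j I, t (i + 1) =
        t (j + 1) * B := by
      rw [hB, Finset.mul_sum]
      refine Finset.sum_congr rfl (fun I hI => ?_)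
      have hjI : j ∉ I := fun h => hjr (Finset.mem_powerset.1 hI h)
      rw [Finset.prod_insert hjI]
      ring
    rw [h1] at h
    have hAmem := hmem c hc
    have hBmem := hmem (fun I => c (insert j I)) (fun I => hc _)
    have htj := ht (j + 1) (by omega)
    have hsq : A ^ 2 = φ (∏ i ∈ {j + 1}, m i) * B ^ 2 := by
      rw [Finset.prod_singleton, ← htj]
      have : A = -(t (j + 1) * B) := by linear_combination h
      rw [this]; ring
    have hB0 : B = 0 := claim h2 hm hφ s ht ns (j + 1) (by omega) {j + 1} (by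
        intro i hi
        rw [Finset.mem_singleton] at hi
        subst hi
        exact Finset.mem_range.2 (by omega)) (Finset.singleton_nonempty _) (by
        intro i hi
        rw [Finset.mem_singleton] at hi
        omega) _ _ A B hAmem hBmem hsq
    have hA0 : A = 0 := by rw [hB0] at h; simpa using h
    have cA := ih c hc hA0
    have cB := ih (fun I => c (insert j I)) (fun I => hc _) hB0
    by_cases hjI : j ∈ I
    · have : insert j (I.erase j) = I := Finset.insert_erase hjI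
      rw [← this]
      refine cB (I.erase j) ?_
      intro i hi
      rw [Finset.mem_erase] at hi
      have := Finset.mem_range.1 (hI hi.2)
      exact Finset.mem_range.2 (by omega)
    · refine cA I ?_
      intro i hi
      have h3 := Finset.mem_range.1 (hI hi)
      have h4 : i ≠ j := fun h => hjI (h ▸ hi)
      exact Finset.mem_range.2 (by omega)

end Field

/-- The zero estimate. -/
theorem zero_estimate (s : ℕ) (a : ℕ → ℤ) (n : ℤ) (hn : n ≠ 0) (ha : ∀ i ≤ s, a i ≠ 0)
    (hinj : ∀ i ≤ s, ∀ j ≤ s, a i = a j → i = j) (S : Finset ℤ) (y : ℕ → ℤ → ℚ)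
    (hy : ∀ i ≤ s, ∀ x ∈ S, y i x ^ 2 = a i * x + n) (c : Finset ℕ → ℚ)
    (hc : ∃ I ⊆ Finset.range s, c I ≠ 0)
    (hrel : ∀ x ∈ S, ∑ I ∈ (Finset.range s).powerset,
      c I * ∏ i ∈ Finset.range s, (if i ∈ I then y (i + 1) x else y 0 x) = 0) :
    S.card ≤ 2 ^ s * s := by
  classical
  set Ω := AlgebraicClosure (FractionRing ℚ[X]) with hΩ
  set φΩ : ℚ[X] →+* Ω := (algebraMap (FractionRing ℚ[X]) Ω).comp
    (algebraMap ℚ[X] (FractionRing ℚ[X])) with hφΩ
  have hinjφ : Function.Injective φΩ :=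
    (algebraMap (FractionRing ℚ[X]) Ω).injective.comp (IsFractionRing.injective ℚ[X] _)
  have h2 : (2 : Ω) ≠ 0 := by
    have h : φΩ (2 : ℚ[X]) ≠ φΩ 0 := fun h => by
      have := hinjφ h
      norm_num at this
    rwa [map_ofNat, map_zero] at h
  set m : ℕ → ℚ[X] := fun i => C (a i : ℚ) * X + C (n : ℚ) with hmdef
  have hm : ∀ j, (m j).natDegree ≤ 1 := fun j => natDegree_linear_le
  have hτ : ∀ i, ∃ τ : Ω, τ ^ 2 = φΩ (m i) := fun i =>
    IsAlgClosed.exists_pow_nat_eq (φΩ (m i)) (by norm_num)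
  choose τ hτ using hτ
  set φ₀ : ℚ[X] →+* Ω × ({x // x ∈ S} → ℚ) :=
    RingHom.prod φΩ (RingHom.pi fun x => Polynomial.evalRingHom ((x : ℤ) : ℚ)) with hφ₀
  set t₀ : ℕ → Ω × ({x // x ∈ S} → ℚ) := fun i => (τ i, fun x => y i (x : ℤ)) with ht₀
  have ht : ∀ i ≤ s, t₀ i ^ 2 = φ₀ (m i) := by
    intro i hi
    refine Prod.ext ?_ ?_
    · exact hτ i
    · funext x
      have := hy i hi x x.2
      show y i (x : ℤ) ^ 2 = (m i).eval ((x : ℤ) : ℚ)
      rw [this, hmdef]
      simp
  set ψ : Ω × ({x // x ∈ S} → ℚ) →+* Ω := RingHom.fst _ _ with hψ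
  have hψφ : ψ.comp φ₀ = φΩ := by
    ext <;> rfl
  have ns := nonsq s a n hn ha hinj
  set z : Ω × ({x // x ∈ S} → ℚ) := ∑ I ∈ (Finset.range s).powerset,
      φ₀ (C (c I)) * ∏ i ∈ Finset.range s, (if i ∈ I then t₀ (i + 1) else t₀ 0) with hz
  have hzmem : z ∈ Lev φ₀ t₀ (s + 1) s := by
    refine Lev.sum_mem _ _ ?_
    intro I hI
    have ht' : ∀ i < s + 1, t₀ i ^ 2 = φ₀ (m i) := fun i hi => ht i (by omega)
    have h1 : φ₀ (C (c I)) ∈ Lev φ₀ t₀ (s + 1) 0 := Lev.poly_mem _ (by simp)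
    have h3 := Lev.prod_mem (Finset.range s) (fun i => if i ∈ I then t₀ (i + 1) else t₀ 0) hm ht'
      (d := 1) (by
        intro i hi
        have hi' := Finset.mem_range.1 hi
        show (if i ∈ I then t₀ (i + 1) else t₀ 0) ∈ _
        split_ifs
        · exact Lev.t_mem (by omega)
        · exact Lev.t_mem (by omega))
    refine Lev.mono ?_ (Lev.mul_mem hm ht' h1 h3)
    simp
  have hz0 : ψ z ≠ 0 := by
    intro h0
    have htΩ : ∀ i ≤ s, τ i ^ 2 = φΩ (m i) := fun i _ => hτ i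
    have hτ0 : τ 0 ≠ 0 := by
      intro h
      have h3 := hτ 0
      rw [h] at h3
      have h4 : m 0 = 0 := hinjφ (by rw [← h3, map_zero]; ring)
      have := congrArg (fun P => eval 0 P) h4
      simp [hmdef] at this
      exact hn (by exact_mod_cast this)
    -- rewrite the sum
    have h5 : ψ z = ∑ I ∈ (Finset.range s).powerset,
        (φΩ (C (c I)) * τ 0 ^ (s - I.card)) * ∏ i ∈ I, τ (i + 1) := by
      rw [hz, map_sum]
      refine Finset.sum_congr rfl (fun I hI => ?_)
      have hIs : I ⊆ Finset.range s := Finset.mem_powerset.1 hI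
      rw [map_mul, map_prod]
      have e1 : ψ (φ₀ (C (c I))) = φΩ (C (c I)) := rfl
      have e2 : ∀ i, ψ (if i ∈ I then t₀ (i + 1) else t₀ 0) = if i ∈ I then τ (i + 1) else τ 0 := by
        intro i
        split_ifs <;> rfl
      rw [e1, Finset.prod_congr rfl (fun i _ => e2 i), Finset.prod_ite]
      have e3 : (Finset.range s).filter (fun i => i ∈ I) = I := by
        rw [Finset.filter_mem_eq_inter, Finset.inter_eq_right.2 hIs]
      have e4 : ((Finset.range s).filter (fun i => ¬ i ∈ I)).card = s - I.card := by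
        have h6 := Finset.card_filter_add_card_filter_not (s := Finset.range s) (fun i => i ∈ I)
        rw [e3, Finset.card_range] at h6
        omega
      rw [e3, Finset.prod_const, e4]
      ring
    rw [h5] at h0
    obtain ⟨I, hIs, hcI⟩ := hc
    have h7 := indep (φ := φΩ) (t := τ) h2 hm hinjφ s htΩ ns s le_rfl s
      (fun I => φΩ (C (c I)) * τ 0 ^ (s - I.card)) (by
        intro I
        have ht' : ∀ i < 1, τ i ^ 2 = φΩ (m i) := fun i _ => hτ i
        have h8 : φΩ (C (c I)) ∈ Lev φΩ τ 1 0 := Lev.poly_mem _ (by simp)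
        have h9 := Lev.prod_mem (φ := φΩ) (t := τ) (Finset.range (s - I.card)) (fun _ => τ 0) hm ht'
          (d := 1) (fun i _ => Lev.t_mem (by omega))
        rw [Finset.prod_const, Finset.card_range] at h9
        refine Lev.mono ?_ (Lev.mul_mem hm ht' h8 h9)
        omega) h0 I hIs
    have h8 : φΩ (C (c I)) = 0 := by
      rcases mul_eq_zero.1 h7 with h | h
      · exact h
      · exact absurd h (pow_ne_zero _ hτ0)
    have h9 : C (c I) = (0 : ℚ[X]) := hinjφ (by rw [h8, map_zero])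
    exact hcI (by simpa using h9)
  have hinj' : Function.Injective (ψ.comp φ₀) := by rw [hψφ]; exact hinjφ
  obtain ⟨N, w, hN, hdeg, hw⟩ := eliminate ψ h2 hm hinj' s ht ns (s + 1) le_rfl s z hzmem hz0
  have hroot : ∀ x ∈ S, N.eval ((x : ℤ) : ℚ) = 0 := by
    intro x hx
    have h3 := congrArg (fun v : Ω × ({x // x ∈ S} → ℚ) => v.2 ⟨x, hx⟩) hw
    have h4 : (φ₀ N).2 ⟨x, hx⟩ = N.eval ((x : ℤ) : ℚ) := rfl
    have h5 : z.2 ⟨x, hx⟩ = 0 := by
      have h6 : z.2 ⟨x, hx⟩ = (Pi.evalRingHom (fun _ : {x // x ∈ S} => ℚ) ⟨x, hx⟩).comp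
        (RingHom.snd Ω ({x // x ∈ S} → ℚ)) z := rfl
      rw [h6, hz, map_sum]
      rw [← hrel x hx]
      refine Finset.sum_congr rfl (fun I _ => ?_)
      rw [map_mul, map_prod]
      congr 1
      · show (C (c I)).eval ((x : ℤ) : ℚ) = c I
        exact eval_C
      · refine Finset.prod_congr rfl (fun i _ => ?_)
        split_ifs <;> rfl
    have h7 : (z * w).2 ⟨x, hx⟩ = z.2 ⟨x, hx⟩ * w.2 ⟨x, hx⟩ := rfl
    simp only [h7, h4, h5, zero_mul] at h3
    exact h3.symm
  have hcard : (S.image (fun x : ℤ => (x : ℚ))).card = S.card :=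
    Finset.card_image_of_injective _ Int.cast_injective
  have hle : (S.image (fun x : ℤ => (x : ℚ))).card ≤ N.natDegree := by
    apply Polynomial.card_le_degree_of_subset_roots
    intro r hr
    rw [Finset.mem_val, Finset.mem_image] at hr
    obtain ⟨x, hx, rfl⟩ := hr
    exact (mem_roots hN).2 (hroot x hx)
  rw [hcard] at hle
  have h8 : 2 ^ (s + 1) * s = 2 * (2 ^ s * s) := by ring
  rw [h8] at hdeg
  omega

end Pool.Agent.Helper13.Dn
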