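import Mathlib
import Pool.Agent.Helper13.Dn.ZeroEst
import Pool.Agent.Helper13.Dn.Padic
import Pool.Agent.Helper13.Dn.Pigeon

set_option autoImplicit false

namespace Pool.Agent.Helper13.Dn

open Polynomial Finset

/-- The relation produced by the pigeonhole principle. -/
theorem relation (p : ℕ) [Fact p.Prime] (h g : ℕ) (hg : 1 ≤ g)
    (hcase : (p ≠ 2 ∧ h = g) ∨ (p = 2 ∧ h = g + 2)) (s : ℕ) (hs : 1 ≤ s)
    (S : Finset ℤ) (x0 : ℤ) (hx0 : x0 ∈ S) (Y : ℕ → ℤ → ℤ)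
    (B : ℕ) (hB : ∀ i ≤ s, ∀ x ∈ S, Y i x ^ 2 ≤ B)
    (ε β : ℕ → ℤ) (δ γ : ℤ → ℤ)
    (hpad : ∀ i ≤ s, ∀ x ∈ S, Y i x ^ 2 = ε i * δ x + (p : ℤ) ^ h * (β i * γ x))
    (hε : ∀ i ≤ s, ¬ (p : ℤ) ∣ ε i) (hδ : ∀ x ∈ S, ¬ (p : ℤ) ∣ δ x)
    (hsize : (4 * B) ^ s < (p ^ g) ^ (2 ^ s - 1)) :
    ∃ (Y' : ℕ → ℤ → ℤ) (c : Finset ℕ → ℤ), (∀ i x, Y' i x ^ 2 = Y i x ^ 2) ∧
      (∃ I ⊆ Finset.range s, c I ≠ 0) ∧
      ∀ x ∈ S, ∑ I ∈ (Finset.range s).powerset,
        c I * ∏ i ∈ Finset.range s, (if i ∈ I then Y' (i + 1) x else Y' 0 x) = 0 := by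
  classical
  have hp : p.Prime := Fact.out
  have h2s : 2 ≤ 2 ^ s := by
    calc 2 = 2 ^ 1 := by norm_num
      _ ≤ 2 ^ s := Nat.pow_le_pow_right (by norm_num) hs
  set q := p ^ g with hq
  have hq1 : 1 ≤ q := Nat.one_le_pow _ _ hp.pos
  set M := 2 ^ s - 1 with hM
  obtain ⟨Y', P, τ, cx, hY'sq, hPτ⟩ : ∃ (Y' : ℕ → ℤ → ℤ) (P : ℕ → (ZMod (q ^ M))[X])
      (τ c : ℤ → ZMod (q ^ M)), (∀ i x, Y' i x ^ 2 = Y i x ^ 2) ∧
      ∀ i ≤ s, ∀ x ∈ S, ((Y' i x : ℤ) : ZMod (q ^ M)) =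
        τ x * (P i).eval (((q : ℕ) : ZMod (q ^ M)) * c x) :=
    padic_factor p h g (2 ^ s - 1) hg (by omega) hcase s S x0 hx0 Y ε β δ γ hpad hε hδ
  set PP : Finset ℕ → (ZMod (q ^ M))[X] := fun I =>
    ∏ i ∈ Finset.range s, if i ∈ I then P (i + 1) else P 0 with hPP
  obtain ⟨d, hd0, hdsq, hdrel⟩ := pigeon q M hq1
    (κ := {I // I ∈ (Finset.range s).powerset}) (fun I => PP I) (by
      rw [Fintype.card_coe, Finset.card_powerset, Finset.card_range]
      omega)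
  set c : Finset ℕ → ℤ := fun I => if hI : I ∈ (Finset.range s).powerset then d ⟨I, hI⟩ else 0
    with hc
  have hcd : ∀ I : {I // I ∈ (Finset.range s).powerset}, c I = d I := by
    intro I
    simp only [hc]
    rw [dif_pos I.2]
  have hsum : ∀ {A₀ : Type} [CommRing A₀] (f : Finset ℕ → A₀),
      ∑ I ∈ (Finset.range s).powerset, f I =
      ∑ I : {I // I ∈ (Finset.range s).powerset}, f I := by
    intro A₀ _ f
    exact (Finset.sum_coe_sort _ f).symm
  refine ⟨Y', c, hY'sq, ?_, ?_⟩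
  · obtain ⟨I, hI⟩ := Function.ne_iff.1 hd0
    refine ⟨I, Finset.mem_powerset.1 I.2, ?_⟩
    rw [hcd]
    exact hI
  · intro x hx
    set G : Finset ℕ → ℤ := fun I =>
      ∏ i ∈ Finset.range s, (if i ∈ I then Y' (i + 1) x else Y' 0 x) with hG
    -- divisibility
    have hGR : ∀ I : Finset ℕ, ((G I : ℤ) : ZMod (q ^ M)) =
        τ x ^ s * (PP I).eval (((q : ℕ) : ZMod (q ^ M)) * cx x) := by
      intro I
      simp only [hG, hPP]
      rw [Int.cast_prod, eval_prod]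
      have h1 : ∀ i ∈ Finset.range s,
          (((if i ∈ I then Y' (i + 1) x else Y' 0 x : ℤ)) : ZMod (q ^ M)) =
          τ x * (if i ∈ I then P (i + 1) else P 0).eval (((q : ℕ) : ZMod (q ^ M)) * cx x) := by
        intro i hi
        have hi' := Finset.mem_range.1 hi
        split_ifs
        · exact hPτ (i + 1) (by omega) x hx
        · exact hPτ 0 (by omega) x hx
      rw [Finset.prod_congr rfl h1, Finset.prod_mul_distrib, Finset.prod_const, Finset.card_range]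
    have hdvd : ((q ^ M : ℕ) : ℤ) ∣ ∑ I ∈ (Finset.range s).powerset, c I * G I := by
      rw [← ZMod.intCast_zmod_eq_zero_iff_dvd, Int.cast_sum]
      rw [hsum (fun I => ((c I * G I : ℤ) : ZMod (q ^ M)))]
      have h1 := hdrel (cx x)
      calc ∑ I : {I // I ∈ (Finset.range s).powerset}, ((c I * G I : ℤ) : ZMod (q ^ M))
          = ∑ I : {I // I ∈ (Finset.range s).powerset}, τ x ^ s *
            ((d I : ZMod (q ^ M)) * (PP I).eval (((q : ℕ) : ZMod (q ^ M)) * cx x)) := by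
            refine Finset.sum_congr rfl (fun I _ => ?_)
            rw [Int.cast_mul, hGR, hcd]
            ring
        _ = 0 := by rw [← Finset.mul_sum, h1, mul_zero]
    -- size
    have hcs : (∑ I ∈ (Finset.range s).powerset, c I * G I) ^ 2 ≤
        (∑ I ∈ (Finset.range s).powerset, c I ^ 2) * (∑ I ∈ (Finset.range s).powerset, G I ^ 2) :=
      Finset.sum_mul_sq_le_sq_mul_sq _ _ _
    have hc2 : ∑ I ∈ (Finset.range s).powerset, c I ^ 2 ≤ 2 ^ s * (q : ℤ) ^ M := by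
      calc ∑ I ∈ (Finset.range s).powerset, c I ^ 2 ≤
          ∑ I ∈ (Finset.range s).powerset, (q : ℤ) ^ M := by
            refine Finset.sum_le_sum (fun I hI => ?_)
            have := hdsq ⟨I, hI⟩
            rw [← hcd ⟨I, hI⟩] at this
            exact this
        _ = 2 ^ s * (q : ℤ) ^ M := by
            rw [Finset.sum_const, Finset.card_powerset, Finset.card_range, nsmul_eq_mul]
            push_cast
            ring
    have hG2 : ∑ I ∈ (Finset.range s).powerset, G I ^ 2 ≤ 2 ^ s * (B : ℤ) ^ s := by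
      calc ∑ I ∈ (Finset.range s).powerset, G I ^ 2 ≤
          ∑ I ∈ (Finset.range s).powerset, (B : ℤ) ^ s := by
            refine Finset.sum_le_sum (fun I _ => ?_)
            simp only [hG]
            rw [← Finset.prod_pow]
            calc ∏ i ∈ Finset.range s, (if i ∈ I then Y' (i + 1) x else Y' 0 x) ^ 2 ≤
                ∏ i ∈ Finset.range s, (B : ℤ) := by
                  refine Finset.prod_le_prod (fun i _ => sq_nonneg _) (fun i hi => ?_)
                  have hi' := Finset.mem_range.1 hi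
                  split_ifs
                  · rw [hY'sq]; exact hB _ (by omega) x hx
                  · rw [hY'sq]; exact hB _ (by omega) x hx
              _ = (B : ℤ) ^ s := by rw [Finset.prod_const, Finset.card_range]
        _ = 2 ^ s * (B : ℤ) ^ s := by
            rw [Finset.sum_const, Finset.card_powerset, Finset.card_range, nsmul_eq_mul]
            push_cast
            ring
    have hsizeZ : ((4 * B : ℕ) : ℤ) ^ s < (q : ℤ) ^ M := by exact_mod_cast hsize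
    have hqpos : (0 : ℤ) < (q : ℤ) ^ M := by positivity
    have hW : (∑ I ∈ (Finset.range s).powerset, c I * G I) ^ 2 < ((q : ℤ) ^ M) ^ 2 := by
      calc (∑ I ∈ (Finset.range s).powerset, c I * G I) ^ 2 ≤
          (2 ^ s * (q : ℤ) ^ M) * (2 ^ s * (B : ℤ) ^ s) := by
            refine hcs.trans ?_
            refine mul_le_mul hc2 hG2 (Finset.sum_nonneg (fun I _ => sq_nonneg _)) (by positivity)
        _ = (q : ℤ) ^ M * ((4 * B : ℕ) : ℤ) ^ s := by
            push_cast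
            rw [mul_pow]
            rw [show (4 : ℤ) = 2 * 2 by norm_num, mul_pow]
            ring
        _ < (q : ℤ) ^ M * (q : ℤ) ^ M := by
            exact mul_lt_mul_of_pos_left hsizeZ hqpos
        _ = ((q : ℤ) ^ M) ^ 2 := by ring
    have habs : |∑ I ∈ (Finset.range s).powerset, c I * G I| < ((q ^ M : ℕ) : ℤ) := by
      have := abs_lt_of_sq_lt_sq hW hqpos.le
      rw [Nat.cast_pow]
      exact abs_lt.2 ⟨by have := (abs_lt.1 this).1; linarith, by have := (abs_lt.1 this).2; linarith⟩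
    exact Int.eq_zero_of_abs_lt_dvd hdvd habs

/-- The core bound. -/
theorem core (p : ℕ) [Fact p.Prime] (h g : ℕ) (hg : 1 ≤ g)
    (hcase : (p ≠ 2 ∧ h = g) ∨ (p = 2 ∧ h = g + 2)) (s : ℕ) (hs : 1 ≤ s)
    (n : ℤ) (hn : n ≠ 0) (a : ℕ → ℤ) (ha : ∀ i ≤ s, a i ≠ 0)
    (hinj : ∀ i ≤ s, ∀ j ≤ s, a i = a j → i = j)
    (S : Finset ℤ) (Y : ℕ → ℤ → ℤ) (w : ℕ → ℚ) (v : ℤ → ℚ) (hw : ∀ i ≤ s, w i ≠ 0)
    (hY : ∀ i ≤ s, ∀ x ∈ S, (w i * v x * Y i x) ^ 2 = a i * x + n)
    (B : ℕ) (hB : ∀ i ≤ s, ∀ x ∈ S, Y i x ^ 2 ≤ B)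
    (ε β : ℕ → ℤ) (δ γ : ℤ → ℤ)
    (hpad : ∀ i ≤ s, ∀ x ∈ S, Y i x ^ 2 = ε i * δ x + (p : ℤ) ^ h * (β i * γ x))
    (hε : ∀ i ≤ s, ¬ (p : ℤ) ∣ ε i) (hδ : ∀ x ∈ S, ¬ (p : ℤ) ∣ δ x)
    (hsize : (4 * B) ^ s < (p ^ g) ^ (2 ^ s - 1)) :
    S.card ≤ 2 ^ s * s := by
  classical
  rcases S.eq_empty_or_nonempty with rfl | ⟨x0, hx0⟩
  · simp
  obtain ⟨Y', c, hY'sq, ⟨I0, hI0, hcI0⟩, hrel⟩ :=
    relation p h g hg hcase s hs S x0 hx0 Y B hB ε β δ γ hpad hε hδ hsize
  set wp : Finset ℕ → ℚ := fun I => ∏ i ∈ Finset.range s, (if i ∈ I then w (i + 1) else w 0)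
    with hwp
  have hwp0 : ∀ I, wp I ≠ 0 := by
    intro I
    apply Finset.prod_ne_zero_iff.2
    intro i hi
    have hi' := Finset.mem_range.1 hi
    split_ifs
    · exact hw _ (by omega)
    · exact hw _ (by omega)
  refine zero_estimate s a n hn ha hinj S (fun i x => w i * v x * Y' i x) ?_
    (fun I => (c I : ℚ) / wp I) ⟨I0, hI0, ?_⟩ ?_
  · intro i hi x hx
    have h1 : ((Y' i x : ℤ) : ℚ) ^ 2 = ((Y i x : ℤ) : ℚ) ^ 2 := by exact_mod_cast hY'sq i x
    show (w i * v x * Y' i x) ^ 2 = _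
    rw [← hY i hi x hx, mul_pow, h1, ← mul_pow]
  · exact div_ne_zero (by exact_mod_cast hcI0) (hwp0 _)
  · intro x hx
    have h1 : ∀ I ∈ (Finset.range s).powerset,
        (c I : ℚ) / wp I * ∏ i ∈ Finset.range s,
          (if i ∈ I then w (i + 1) * v x * Y' (i + 1) x else w 0 * v x * Y' 0 x) =
        v x ^ s * ((c I * ∏ i ∈ Finset.range s, (if i ∈ I then Y' (i + 1) x else Y' 0 x) : ℤ) : ℚ) := by
      intro I _
      have h2 : ∀ i ∈ Finset.range s,
          (if i ∈ I then w (i + 1) * v x * Y' (i + 1) x else w 0 * v x * Y' 0 x) =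
          (if i ∈ I then w (i + 1) else w 0) * v x *
            (((if i ∈ I then Y' (i + 1) x else Y' 0 x : ℤ)) : ℚ) := by
        intro i _
        split_ifs <;> rfl
      rw [Finset.prod_congr rfl h2, Finset.prod_mul_distrib, Finset.prod_mul_distrib,
        Finset.prod_const, Finset.card_range]
      push_cast
      have h3 : wp I ≠ 0 := hwp0 I
      simp only [hwp] at h3 ⊢
      field_simp
    rw [Finset.sum_congr rfl h1, ← Finset.mul_sum]
    have h4 := hrel x hx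
    have h5 : ∑ I ∈ (Finset.range s).powerset,
        ((c I * ∏ i ∈ Finset.range s, (if i ∈ I then Y' (i + 1) x else Y' 0 x) : ℤ) : ℚ) = 0 := by
      rw [← Int.cast_sum, h4, Int.cast_zero]
    rw [h5, mul_zero]

end Pool.Agent.Helper13.Dn
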