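import Mathlib
import Pool.Agent.Helper13.Dn.Core

set_option autoImplicit false

namespace Pool.Agent.Helper13.Dn

open Finset

theorem of_pairs (p : ℕ) [Fact p.Prime] (h g : ℕ) (hg : 1 ≤ g)
    (hcase : (p ≠ 2 ∧ h = g) ∨ (p = 2 ∧ h = g + 2)) (s : ℕ) (hs : 1 ≤ s)
    (n : ℤ) (hn : n ≠ 0) (S : Finset ℤ) (h0 : ∀ a ∈ S, a ≠ 0)
    (Y : ℤ → ℤ → ℤ) (w v : ℤ → ℚ) (hw : ∀ a ∈ S, w a ≠ 0)
    (hY : ∀ a ∈ S, ∀ b ∈ S, a ≠ b → (w a * v b * Y a b) ^ 2 = a * b + n)
    (B : ℕ) (hB : ∀ a ∈ S, ∀ b ∈ S, a ≠ b → Y a b ^ 2 ≤ B)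
    (ε β δ γ : ℤ → ℤ)
    (hpad : ∀ a ∈ S, ∀ b ∈ S, a ≠ b → Y a b ^ 2 = ε a * δ b + (p : ℤ) ^ h * (β a * γ b))
    (hε : ∀ a ∈ S, ¬ (p : ℤ) ∣ ε a) (hδ : ∀ b ∈ S, ¬ (p : ℤ) ∣ δ b)
    (hsize : (4 * B) ^ s < (p ^ g) ^ (2 ^ s - 1)) :
    S.card ≤ s + 1 + 2 ^ s * s := by
  classical
  rcases le_or_gt S.card (s + 1) with hc | hc
  · omega
  obtain ⟨R, hRS, hRc⟩ := Finset.exists_subset_card_eq hc.le
  set E := R.equivFinOfCardEq hRc with hE
  set a : ℕ → ℤ := fun i => if hi : i < s + 1 then ((E.symm ⟨i, hi⟩ : R) : ℤ) else 0 with ha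
  have haR : ∀ i ≤ s, a i ∈ R := by
    intro i hi
    simp only [ha]
    rw [dif_pos (by omega)]
    exact (E.symm ⟨i, by omega⟩).2
  have hinj : ∀ i ≤ s, ∀ j ≤ s, a i = a j → i = j := by
    intro i hi j hj hij
    simp only [ha] at hij
    rw [dif_pos (by omega), dif_pos (by omega)] at hij
    have h1 := E.symm.injective (Subtype.ext hij)
    exact congrArg Fin.val h1
  have hcols : (S \ R).card ≤ 2 ^ s * s := by
    have hne : ∀ i ≤ s, ∀ x ∈ S \ R, a i ≠ x := by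
      intro i hi x hx h1
      rw [Finset.mem_sdiff] at hx
      exact hx.2 (h1 ▸ haR i hi)
    refine core p h g hg hcase s hs n hn a (fun i hi => h0 _ (hRS (haR i hi))) hinj (S \ R)
      (fun i x => Y (a i) x) (fun i => w (a i)) v (fun i hi => hw _ (hRS (haR i hi))) ?_ B ?_
      (fun i => ε (a i)) (fun i => β (a i)) δ γ ?_ (fun i hi => hε _ (hRS (haR i hi))) ?_ hsize
    · intro i hi x hx
      exact hY _ (hRS (haR i hi)) x (Finset.mem_sdiff.1 hx).1 (hne i hi x hx)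
    · intro i hi x hx
      exact hB _ (hRS (haR i hi)) x (Finset.mem_sdiff.1 hx).1 (hne i hi x hx)
    · intro i hi x hx
      exact hpad _ (hRS (haR i hi)) x (Finset.mem_sdiff.1 hx).1 (hne i hi x hx)
    · intro x hx
      exact hδ x (Finset.mem_sdiff.1 hx).1
  have := Finset.card_sdiff_add_card_eq_card hRS
  omega

theorem exists_unit_part (p : ℕ) [Fact p.Prime] (a : ℤ) (ha : a ≠ 0) :
    ∃ u : ℤ, a = (p : ℤ) ^ (padicValInt p a) * u ∧ ¬ (p : ℤ) ∣ u := by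
  obtain ⟨u, hu⟩ := padicValInt_dvd (p := p) a
  refine ⟨u, hu, ?_⟩
  rintro ⟨w, hw⟩
  have h1 : (p : ℤ) ^ (padicValInt p a + 1) ∣ a := by
    refine ⟨w, ?_⟩
    rw [pow_succ, mul_assoc, ← hw]
    exact hu
  have h2 := (padicValInt_dvd_iff (p := p) _ a).1 h1
  rcases h2 with h2 | h2
  · exact ha h2
  · omega

theorem sqrt_decomp (p : ℕ) [Fact p.Prime] (k : ℕ) (u r : ℤ) (hu : ¬ (p : ℤ) ∣ u)
    (h : r * r = (p : ℤ) ^ k * u) :
    ∃ (j : ℕ) (r' : ℤ), k = 2 * j ∧ r = (p : ℤ) ^ j * r' ∧ r' * r' = u := by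
  have hp : p.Prime := Fact.out
  have hpZ : Prime (p : ℤ) := Nat.prime_iff_prime_int.1 hp
  have hp0 : (p : ℤ) ≠ 0 := hpZ.ne_zero
  have hr : r ≠ 0 := by
    rintro rfl
    have h1 : (p : ℤ) ^ k * u = 0 := by rw [← h]; ring
    rcases mul_eq_zero.1 h1 with h1 | h1
    · exact pow_ne_zero _ hp0 h1
    · exact hu (h1 ▸ dvd_zero _)
  obtain ⟨r', hr', hnd⟩ := exists_unit_part p r hr
  set j := padicValInt p r with hj
  have hnd2 : ¬ (p : ℤ) ∣ r' * r' := fun h1 => by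
    rcases hpZ.dvd_or_dvd h1 with h1 | h1 <;> exact hnd h1
  have h1 : (p : ℤ) ^ (2 * j) * (r' * r') = (p : ℤ) ^ k * u := by
    rw [← h, hr', two_mul, pow_add]
    ring
  have hk : k = 2 * j := by
    rcases lt_trichotomy k (2 * j) with hlt | heq | hgt
    · exfalso
      obtain ⟨d, hd⟩ := Nat.exists_eq_add_of_lt hlt
      rw [hd, show k + d + 1 = k + (d + 1) by ring, pow_add, mul_assoc] at h1
      have h2 := mul_left_cancel₀ (pow_ne_zero k hp0) h1
      apply hu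
      rw [← h2, pow_succ]
      exact Dvd.intro_left ((p : ℤ) ^ d) rfl |>.mul_right _
    · exact heq
    · exfalso
      obtain ⟨d, hd⟩ := Nat.exists_eq_add_of_lt hgt
      rw [hd, show 2 * j + d + 1 = 2 * j + (d + 1) by ring, pow_add, mul_assoc] at h1
      have h2 := mul_left_cancel₀ (pow_ne_zero _ hp0) h1
      apply hnd2
      rw [h2, pow_succ]
      exact (Dvd.intro_left ((p : ℤ) ^ d) rfl).mul_right _
  refine ⟨j, r', hk, hr', ?_⟩
  rw [hk] at h1
  exact mul_left_cancel₀ (pow_ne_zero _ hp0) h1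

/-- Both groups: elements of small and elements of large `p`-adic valuation. -/
theorem group_small (p : ℕ) [Fact p.Prime] (h g : ℕ) (hg : 1 ≤ g)
    (hcase : (p ≠ 2 ∧ h = g) ∨ (p = 2 ∧ h = g + 2)) (s : ℕ) (hs : 1 ≤ s)
    (n : ℤ) (hn : n ≠ 0) (S : Finset ℤ) (h0 : ∀ a ∈ S, a ≠ 0)
    (hsq : ∀ a ∈ S, ∀ b ∈ S, a ≠ b → IsSquare (a * b + n))
    (B : ℕ) (hB : ∀ a ∈ S, ∀ b ∈ S, a ≠ b → a * b + n ≤ B)
    (hwin : ∀ a ∈ S, 2 * padicValInt p a + h ≤ padicValInt p n)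
    (hsize : (4 * B) ^ s < (p ^ g) ^ (2 ^ s - 1)) :
    S.card ≤ s + 1 + 2 ^ s * s := by
  classical
  have hh : 1 ≤ h := by omega
  have hp : p.Prime := Fact.out
  have hpZ : Prime (p : ℤ) := Nat.prime_iff_prime_int.1 hp
  have hp0 : (p : ℤ) ≠ 0 := hpZ.ne_zero
  have hp1 : (1 : ℤ) ≤ p := by exact_mod_cast hp.one_lt.le
  obtain ⟨n', hn', hnd⟩ := exists_unit_part p n hn
  set e := padicValInt p n with he
  have hup : ∀ a : ℤ, ∃ u : ℤ, a ≠ 0 → a = (p : ℤ) ^ (padicValInt p a) * u ∧ ¬ (p : ℤ) ∣ u := by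
    intro a
    by_cases ha : a = 0
    · exact ⟨0, fun h1 => absurd ha h1⟩
    · obtain ⟨u, hu⟩ := exists_unit_part p a ha
      exact ⟨u, fun _ => hu⟩
  choose up hup using hup
  have hpair : ∀ a b : ℤ, ∃ y : ℤ, a ∈ S → b ∈ S → a ≠ b →
      ∃ j : ℕ, padicValInt p a + padicValInt p b = 2 * j ∧
        ((p : ℤ) ^ j * y) ^ 2 = a * b + n ∧
        y ^ 2 = up a * up b + (p : ℤ) ^ (e - (padicValInt p a + padicValInt p b)) * n' := by
    intro a b
    by_cases hab : a ∈ S ∧ b ∈ S ∧ a ≠ b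
    · obtain ⟨ha, hb, hne⟩ := hab
      obtain ⟨r, hr⟩ := hsq a ha b hb hne
      have e1 := hup a (h0 a ha)
      have e2 := hup b (h0 b hb)
      have w1 := hwin a ha
      have w2 := hwin b hb
      set va := padicValInt p a with hva
      set vb := padicValInt p b with hvb
      set u := up a * up b + (p : ℤ) ^ (e - (va + vb)) * n' with hu
      have h3 : r * r = (p : ℤ) ^ (va + vb) * u := by
        rw [← hr, hu]
        have h4 : (p : ℤ) ^ e = (p : ℤ) ^ (va + vb) * (p : ℤ) ^ (e - (va + vb)) := by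
          rw [← pow_add]; congr 1; omega
        calc a * b + n = ((p : ℤ) ^ va * up a) * ((p : ℤ) ^ vb * up b) + (p : ℤ) ^ e * n' := by
              rw [← e1.1, ← e2.1, ← hn']
          _ = _ := by rw [h4, pow_add]; ring
      have h5 : ¬ (p : ℤ) ∣ u := by
        intro hd
        have h6 : (p : ℤ) ∣ (p : ℤ) ^ (e - (va + vb)) * n' :=
          (dvd_pow_self _ (by omega)).mul_right _
        have h7 : (p : ℤ) ∣ up a * up b := by
          have := dvd_sub hd h6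
          rw [hu] at this
          simpa using this
        rcases hpZ.dvd_or_dvd h7 with h7 | h7
        · exact e1.2 h7
        · exact e2.2 h7
      obtain ⟨j, r', hj, hr', hrr⟩ := sqrt_decomp p _ u r h5 h3
      refine ⟨r', fun _ _ _ => ⟨j, hj, ?_, ?_⟩⟩
      · rw [← hr', pow_two]; exact hr.symm
      · rw [pow_two]; exact hrr
    · exact ⟨0, fun h1 h2 h3 => absurd ⟨h1, h2, h3⟩ hab⟩
  choose Y hY using hpair
  set A := (e - h) / 2 with hA
  refine of_pairs p h g hg hcase s hs n hn S h0 Y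
    (fun a => (p : ℚ) ^ (padicValInt p a / 2)) (fun b => (p : ℚ) ^ ((padicValInt p b + 1) / 2))
    (fun a _ => pow_ne_zero _ (by exact_mod_cast hp.ne_zero)) ?_ B ?_
    up (fun a => (p : ℤ) ^ (A - padicValInt p a)) up
    (fun b => (p : ℤ) ^ (e - h - A - padicValInt p b) * n') ?_
    (fun a ha => (hup a (h0 a ha)).2) (fun a ha => (hup a (h0 a ha)).2) hsize
  · intro a ha b hb hab
    obtain ⟨j, hj, hj2, _⟩ := hY a b ha hb hab
    have h1 : padicValInt p a / 2 + (padicValInt p b + 1) / 2 = j := by omega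
    show ((p : ℚ) ^ (padicValInt p a / 2) * (p : ℚ) ^ ((padicValInt p b + 1) / 2) * Y a b) ^ 2 = _
    rw [← pow_add, h1]
    exact_mod_cast hj2
  · intro a ha b hb hab
    obtain ⟨j, hj, hj2, _⟩ := hY a b ha hb hab
    refine le_trans ?_ (hB a ha b hb hab)
    rw [← hj2, mul_pow]
    have h1 : (1 : ℤ) ≤ ((p : ℤ) ^ j) ^ 2 := one_le_pow₀ (one_le_pow₀ hp1)
    nlinarith [sq_nonneg (Y a b)]
  · intro a ha b hb hab
    obtain ⟨j, hj, _, hj3⟩ := hY a b ha hb hab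
    have w1 := hwin a ha
    have w2 := hwin b hb
    rw [hj3]
    have h1 : (p : ℤ) ^ (e - (padicValInt p a + padicValInt p b)) =
        (p : ℤ) ^ h * ((p : ℤ) ^ (A - padicValInt p a) * (p : ℤ) ^ (e - h - A - padicValInt p b)) := by
      rw [← pow_add, ← pow_add]
      congr 1
      omega
    show _ = up a * up b + (p : ℤ) ^ h * ((p : ℤ) ^ (A - padicValInt p a) *
      ((p : ℤ) ^ (e - h - A - padicValInt p b) * n'))
    rw [h1]
    ring

theorem group_large (p : ℕ) [Fact p.Prime] (h g : ℕ) (hg : 1 ≤ g)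
    (hcase : (p ≠ 2 ∧ h = g) ∨ (p = 2 ∧ h = g + 2)) (s : ℕ) (hs : 1 ≤ s)
    (n : ℤ) (hn : n ≠ 0) (S : Finset ℤ) (h0 : ∀ a ∈ S, a ≠ 0)
    (hsq : ∀ a ∈ S, ∀ b ∈ S, a ≠ b → IsSquare (a * b + n))
    (B : ℕ) (hB : ∀ a ∈ S, ∀ b ∈ S, a ≠ b → a * b + n ≤ B)
    (hwin : ∀ a ∈ S, padicValInt p n + h ≤ 2 * padicValInt p a)
    (hsize : (4 * B) ^ s < (p ^ g) ^ (2 ^ s - 1)) :
    S.card ≤ s + 1 + 2 ^ s * s := by
  classical
  have hh : 1 ≤ h := by omega
  have hp : p.Prime := Fact.out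
  have hpZ : Prime (p : ℤ) := Nat.prime_iff_prime_int.1 hp
  have hp0 : (p : ℤ) ≠ 0 := hpZ.ne_zero
  have hp1 : (1 : ℤ) ≤ p := by exact_mod_cast hp.one_lt.le
  obtain ⟨n', hn', hnd⟩ := exists_unit_part p n hn
  set e := padicValInt p n with he
  have hup : ∀ a : ℤ, ∃ u : ℤ, a ≠ 0 → a = (p : ℤ) ^ (padicValInt p a) * u ∧ ¬ (p : ℤ) ∣ u := by
    intro a
    by_cases ha : a = 0
    · exact ⟨0, fun h1 => absurd ha h1⟩
    · obtain ⟨u, hu⟩ := exists_unit_part p a ha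
      exact ⟨u, fun _ => hu⟩
  choose up hup using hup
  have hpair : ∀ a b : ℤ, ∃ y : ℤ, a ∈ S → b ∈ S → a ≠ b →
      e = 2 * (e / 2) ∧
        ((p : ℤ) ^ (e / 2) * y) ^ 2 = a * b + n ∧
        y ^ 2 = n' + (p : ℤ) ^ (padicValInt p a + padicValInt p b - e) * (up a * up b) := by
    intro a b
    by_cases hab : a ∈ S ∧ b ∈ S ∧ a ≠ b
    · obtain ⟨ha, hb, hne⟩ := hab
      obtain ⟨r, hr⟩ := hsq a ha b hb hne
      have e1 := hup a (h0 a ha)
      have e2 := hup b (h0 b hb)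
      have w1 := hwin a ha
      have w2 := hwin b hb
      set va := padicValInt p a with hva
      set vb := padicValInt p b with hvb
      set u := n' + (p : ℤ) ^ (va + vb - e) * (up a * up b) with hu
      have h3 : r * r = (p : ℤ) ^ e * u := by
        rw [← hr, hu]
        have h4 : (p : ℤ) ^ va * (p : ℤ) ^ vb = (p : ℤ) ^ e * (p : ℤ) ^ (va + vb - e) := by
          rw [← pow_add, ← pow_add]; congr 1; omega
        calc a * b + n = ((p : ℤ) ^ va * up a) * ((p : ℤ) ^ vb * up b) + (p : ℤ) ^ e * n' := by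
              rw [← e1.1, ← e2.1, ← hn']
          _ = ((p : ℤ) ^ va * (p : ℤ) ^ vb) * (up a * up b) + (p : ℤ) ^ e * n' := by ring
          _ = _ := by rw [h4]; ring
      have h5 : ¬ (p : ℤ) ∣ u := by
        intro hd
        have h6 : (p : ℤ) ∣ (p : ℤ) ^ (va + vb - e) * (up a * up b) :=
          (dvd_pow_self _ (by omega)).mul_right _
        have h7 : (p : ℤ) ∣ n' := by
          have := dvd_sub hd h6
          rw [hu] at this
          simpa using this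
        exact hnd h7
      obtain ⟨j, r', hj, hr', hrr⟩ := sqrt_decomp p _ u r h5 h3
      have hj' : e / 2 = j := by omega
      refine ⟨r', fun _ _ _ => ⟨by omega, ?_, ?_⟩⟩
      · rw [hj', ← hr', pow_two]; exact hr.symm
      · rw [pow_two]; exact hrr
    · exact ⟨0, fun h1 h2 h3 => absurd ⟨h1, h2, h3⟩ hab⟩
  choose Y hY using hpair
  set A := (e + h + 1) / 2 with hA
  refine of_pairs p h g hg hcase s hs n hn S h0 Y
    (fun _ => 1) (fun _ => (p : ℚ) ^ (e / 2))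
    (fun a _ => one_ne_zero) ?_ B ?_
    (fun _ => 1) (fun a => (p : ℤ) ^ (padicValInt p a - A) * up a) (fun _ => n')
    (fun b => (p : ℤ) ^ (padicValInt p b - (e + h - A)) * up b) ?_
    (fun a ha => fun h1 => ?_) (fun a ha => hnd) hsize
  · intro a ha b hb hab
    obtain ⟨hj, hj2, _⟩ := hY a b ha hb hab
    show ((1 : ℚ) * (p : ℚ) ^ (e / 2) * Y a b) ^ 2 = _
    rw [one_mul]
    exact_mod_cast hj2
  · intro a ha b hb hab
    obtain ⟨hj, hj2, _⟩ := hY a b ha hb hab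
    refine le_trans ?_ (hB a ha b hb hab)
    rw [← hj2, mul_pow]
    have h1 : (1 : ℤ) ≤ ((p : ℤ) ^ (e / 2)) ^ 2 := one_le_pow₀ (one_le_pow₀ hp1)
    nlinarith [sq_nonneg (Y a b)]
  · intro a ha b hb hab
    obtain ⟨hj, _, hj3⟩ := hY a b ha hb hab
    have w1 := hwin a ha
    have w2 := hwin b hb
    rw [hj3]
    have h1 : (p : ℤ) ^ (padicValInt p a + padicValInt p b - e) =
        (p : ℤ) ^ h * ((p : ℤ) ^ (padicValInt p a - A) *
          (p : ℤ) ^ (padicValInt p b - (e + h - A))) := by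
      rw [← pow_add, ← pow_add]
      congr 1
      omega
    show _ = 1 * n' + (p : ℤ) ^ h * (((p : ℤ) ^ (padicValInt p a - A) * up a) *
      ((p : ℤ) ^ (padicValInt p b - (e + h - A)) * up b))
    rw [h1]
    ring
  · exact hpZ.not_isUnit (isUnit_of_dvd_one h1)

end Pool.Agent.Helper13.Dn
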