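import Mathlib
import Pool.Agent.Helper13.Dn.Groups
import Pool.Agent.Results.MP_ea94d5_nt.UniformOutsideWindow

set_option autoImplicit false

namespace Pool.Agent.Helper13.Dn

open Finset

theorem choose_s (L : ℕ) (hL : 1 ≤ L) :
    ∃ s : ℕ, 1 ≤ s ∧ s * L + 2 ≤ 2 ^ s ∧ s + 1 + 2 ^ s * s ≤ 17 * L * (Nat.clog 2 L + 2) ^ 2 := by
  set c := Nat.clog 2 L with hc
  set t := Nat.clog 2 (2 * c + 4) with ht
  have h1 : L ≤ 2 ^ c := Nat.le_pow_clog (by norm_num) L
  have h2 : 2 * c + 4 ≤ 2 ^ t := Nat.le_pow_clog (by norm_num) _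
  have h3 : 2 ^ c ≤ 2 * L := by
    rcases Nat.eq_zero_or_pos c with h | h
    · rw [h]; omega
    · have hL1 : 1 < L := by
        by_contra hcon
        have : L = 1 := by omega
        rw [hc, this] at h
        simp at h
      have := Nat.pow_pred_clog_lt_self (b := 2) (by norm_num) hL1
      rw [← hc] at this
      have e : 2 ^ c = 2 * 2 ^ (c - 1) := by
        rw [← pow_succ']; congr 1; omega
      have h5 : 2 ^ c.pred = 2 ^ (c - 1) := rfl
      omega
  have h4 : 2 ^ t ≤ 2 * (2 * c + 4) := by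
    have h40 : 1 < 2 * c + 4 := by omega
    have := Nat.pow_pred_clog_lt_self (b := 2) (by norm_num) h40
    rw [← ht] at this
    have htpos : 0 < t := Nat.clog_pos (by norm_num) (by omega)
    have e : 2 ^ t = 2 * 2 ^ (t - 1) := by
      obtain ⟨k, hk⟩ : ∃ k, t = k + 1 := ⟨t - 1, by omega⟩
      rw [hk, pow_succ', Nat.add_sub_cancel]
    have h5 : 2 ^ t.pred = 2 ^ (t - 1) := rfl
    omega
  have h5 : t ≤ c + 2 := by
    rw [ht]
    apply Nat.clog_le_of_le_pow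
    have : ∀ c : ℕ, 2 * c + 4 ≤ 2 ^ (c + 2) := by
      intro c
      induction c with
      | zero => norm_num
      | succ c ih =>
        calc 2 * (c + 1) + 4 = (2 * c + 4) + 2 := by ring
          _ ≤ 2 ^ (c + 2) + 2 ^ (c + 2) := by omega
          _ = 2 ^ (c + 1 + 2) := by ring
    exact this c
  have htpos : 1 ≤ t := Nat.clog_pos (by norm_num) (by omega)
  refine ⟨c + t, by omega, ?_, ?_⟩
  · rw [pow_add]
    have h6 : L * (2 * c + 4) ≤ 2 ^ c * 2 ^ t := Nat.mul_le_mul h1 h2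
    have h7 : (c + t) * L + 2 ≤ L * (2 * c + 4) := by nlinarith
    omega
  · have h6 : 2 ^ (c + t) ≤ 8 * L * (c + 2) := by
      rw [pow_add]
      calc 2 ^ c * 2 ^ t ≤ (2 * L) * (2 * (2 * c + 4)) := Nat.mul_le_mul h3 h4
        _ = 8 * L * (c + 2) := by ring
    have h7 : c + t ≤ 2 * (c + 2) := by omega
    have h8 : 2 ^ (c + t) * (c + t) ≤ (8 * L * (c + 2)) * (2 * (c + 2)) := Nat.mul_le_mul h6 h7
    have h9 : c + t + 1 ≤ (c + 2) ^ 2 := by nlinarith
    have h10 : (c + 2) ^ 2 ≤ L * (c + 2) ^ 2 := Nat.le_mul_of_pos_left _ (by omega)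
    calc c + t + 1 + 2 ^ (c + t) * (c + t) ≤ L * (c + 2) ^ 2 + (8 * L * (c + 2)) * (2 * (c + 2)) := by
          omega
      _ = 17 * L * (c + 2) ^ 2 := by ring

theorem log_bounds : (0.69 : ℝ) < Real.log 2 ∧ Real.log 20 < 3 := by
  refine ⟨by linarith [Real.log_two_gt_d9], ?_⟩
  rw [Real.log_lt_iff_lt_exp (by norm_num)]
  have h := Real.exp_one_gt_d9
  have h1 : Real.exp 3 = Real.exp 1 ^ 3 := by
    rw [← Real.exp_nat_mul]; norm_num
  rw [h1]
  have h2 : (2.718 : ℝ) ^ 3 < Real.exp 1 ^ 3 := by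
    apply pow_lt_pow_left₀ (by linarith) (by norm_num) (by norm_num)
  have h3 : (20 : ℝ) < 2.718 ^ 3 := by norm_num
  linarith

/-- The bound for the final exponent. -/
theorem L_bound (q : ℕ) (hq : 2 ≤ q) (N : ℕ) (hN : 1 ≤ N) (V : ℝ)
    (hV : V = Real.log N / Real.log q) :
    ((Nat.clog q (20 * N ^ 2) : ℕ) : ℝ) ≤ 6 + 2 * V := by
  obtain ⟨hl2, hl20⟩ := log_bounds
  have hq2 : (2 : ℝ) ≤ q := by exact_mod_cast hq
  have hlq : Real.log 2 ≤ Real.log q := Real.log_le_log (by norm_num) hq2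
  have hlq0 : 0 < Real.log q := by linarith
  have hNR : (1 : ℝ) ≤ N := by exact_mod_cast hN
  have hlN : 0 ≤ Real.log N := Real.log_nonneg hNR
  have hb : 1 < 20 * N ^ 2 := by
    have : 1 ≤ N ^ 2 := Nat.one_le_pow _ _ hN
    omega
  have h1 := Nat.pow_pred_clog_lt_self (b := q) (by omega) hb
  set C := Nat.clog q (20 * N ^ 2) with hC
  have hCpos : 0 < C := Nat.clog_pos (by omega) (by omega)
  have h2 : ((q : ℝ)) ^ (C - 1) < 20 * (N : ℝ) ^ 2 := by exact_mod_cast h1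
  have h3 := Real.log_lt_log (by positivity) h2
  rw [Real.log_pow, Real.log_mul (by norm_num) (by positivity), Real.log_pow] at h3
  have h4 : (((C - 1 : ℕ)) : ℝ) = (C : ℝ) - 1 := by
    rw [Nat.cast_sub (by omega), Nat.cast_one]
  rw [h4] at h3
  have h5 : V * Real.log q = Real.log N := by rw [hV]; field_simp
  push_cast at h3
  have h6 : ((C : ℝ) - 1) * Real.log q < (5 + 2 * V) * Real.log q := by
    have : (5 : ℝ) * Real.log q ≥ 5 * 0.69 := by nlinarith
    nlinarith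
  have h7 := lt_of_mul_lt_mul_right h6 hlq0.le
  linarith

theorem final_bound (L : ℕ) (hL : 1 ≤ L) (V : ℝ) (hV : 0 ≤ V) (hLV : (L : ℝ) ≤ 6 + 2 * V) :
    2 * ((17 * L * (Nat.clog 2 L + 2) ^ 2 : ℕ) : ℝ) + 1378 ≤
      9000 * (1 + V) * (1 + Real.log (1 + V)) ^ 2 := by
  obtain ⟨hl2, hl20⟩ := log_bounds
  set c := Nat.clog 2 L with hc
  have h3 : 2 ^ c ≤ 2 * L := by
    rcases Nat.eq_zero_or_pos c with h | h
    · rw [h]; omega
    · have hL1 : 1 < L := by
        by_contra hcon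
        have : L = 1 := by omega
        rw [hc, this] at h
        simp at h
      have := Nat.pow_pred_clog_lt_self (b := 2) (by norm_num) hL1
      rw [← hc] at this
      have e : 2 ^ c = 2 * 2 ^ (c - 1) := by
        rw [← pow_succ']; congr 1; omega
      have h5 : 2 ^ c.pred = 2 ^ (c - 1) := rfl
      omega
  have h3R : (2 : ℝ) ^ c ≤ 2 * L := by exact_mod_cast h3
  have hlV : 0 ≤ Real.log (1 + V) := Real.log_nonneg (by linarith)
  have h4 : (2 : ℝ) ^ c ≤ 12 * (1 + V) := by nlinarith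
  have h5 : (c : ℝ) * Real.log 2 ≤ Real.log 12 + Real.log (1 + V) := by
    rw [← Real.log_pow, ← Real.log_mul (by norm_num) (by positivity)]
    exact Real.log_le_log (by positivity) h4
  have hl12 : Real.log 12 ≤ 4 * Real.log 2 := by
    have : Real.log 12 ≤ Real.log (2 ^ 4) := Real.log_le_log (by norm_num) (by norm_num)
    rwa [Real.log_pow] at this
  have h6 : (c : ℝ) ≤ 4 + 1.5 * Real.log (1 + V) := by
    have h7 : (c : ℝ) * Real.log 2 ≤ (4 + 1.5 * Real.log (1 + V)) * Real.log 2 := by nlinarith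
    exact le_of_mul_le_mul_right h7 (by linarith)
  have h8 : (c : ℝ) + 2 ≤ 6 * (1 + Real.log (1 + V)) := by nlinarith
  have h9 : ((c : ℝ) + 2) ^ 2 ≤ 36 * (1 + Real.log (1 + V)) ^ 2 := by
    have h0 : 0 ≤ (c : ℝ) + 2 := by positivity
    calc ((c : ℝ) + 2) ^ 2 ≤ (6 * (1 + Real.log (1 + V))) ^ 2 := pow_le_pow_left₀ h0 h8 2
      _ = 36 * (1 + Real.log (1 + V)) ^ 2 := by ring
  have h10 : (L : ℝ) ≤ 6 * (1 + V) := by linarith
  have h11 : (L : ℝ) * ((c : ℝ) + 2) ^ 2 ≤ (6 * (1 + V)) * (36 * (1 + Real.log (1 + V)) ^ 2) :=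
    mul_le_mul h10 h9 (by positivity) (by positivity)
  have h12 : 1 ≤ (1 + V) * (1 + Real.log (1 + V)) ^ 2 := by
    have : 1 ≤ (1 + Real.log (1 + V)) ^ 2 := by nlinarith
    nlinarith
  push_cast
  nlinarith

theorem abs_log (n : ℤ) : Real.log |(n : ℝ)| = Real.log (n.natAbs : ℕ) := by
  rw [Nat.cast_natAbs, Int.cast_abs]

/-- At most `1378` elements have absolute value at least `2 |n|`. -/
theorem huge_count (n : ℤ) (hn : n ≠ 0) (S : Finset ℤ) (h0 : ∀ a ∈ S, a ≠ 0)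
    (hsq : ∀ a ∈ S, ∀ b ∈ S, a ≠ b → IsSquare (a * b + n)) :
    ((S.filter (fun a : ℤ => 2 * |n| ≤ |a|)).card : ℝ) ≤ 1378 := by
  have hn1 : 1 ≤ |n| := Int.one_le_abs hn
  have hnR : (1 : ℝ) ≤ |(n : ℝ)| := by exact_mod_cast hn1
  have hs1 : 1 ≤ Real.sqrt |(n : ℝ)| := by rw [Real.one_le_sqrt]; exact hnR
  set T : ℝ := 2 * Real.sqrt |(n : ℝ)| with hT
  have hT1 : 1 < T := by rw [hT]; linarith
  have h := Pool.Agent.Results.MP_ea94d5_nt.UniformOutsideWindow.result n hn T hT1 S h0 hsq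
  have hlT : 0 < Real.log T := Real.log_pos hT1
  have hl : Real.log |(n : ℝ)| / Real.log T ≤ 2 := by
    rw [div_le_iff₀ hlT]
    have h1 : Real.log T = Real.log 2 + Real.log |(n : ℝ)| / 2 := by
      rw [hT, Real.log_mul (by norm_num) (by positivity), Real.log_sqrt (abs_nonneg _)]
    have := Real.log_two_gt_d9
    rw [h1]
    linarith
  have hsub : (S.filter (fun a : ℤ => 2 * |n| ≤ |a|)).card ≤
      (S.filter (fun a : ℤ => T * |(a : ℝ)| ≤ Real.sqrt |(n : ℝ)| ∨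
      T * Real.sqrt |(n : ℝ)| ≤ |(a : ℝ)|)).card := by
    apply Finset.card_le_card
    intro a ha
    rw [Finset.mem_filter] at ha ⊢
    refine ⟨ha.1, Or.inr ?_⟩
    have h2 : T * Real.sqrt |(n : ℝ)| = 2 * |(n : ℝ)| := by
      rw [hT, mul_assoc, Real.mul_self_sqrt (abs_nonneg _)]
    rw [h2]
    exact_mod_cast ha.2
  have hsub' : ((S.filter (fun a : ℤ => 2 * |n| ≤ |a|)).card : ℝ) ≤
      ((S.filter (fun a : ℤ => T * |(a : ℝ)| ≤ Real.sqrt |(n : ℝ)| ∨
      T * Real.sqrt |(n : ℝ)| ≤ |(a : ℝ)|)).card : ℝ) := by exact_mod_cast hsub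
  linarith

/-- The window theorem. -/
theorem window (p : ℕ) (hp : p.Prime) (h g : ℕ) (hg : 1 ≤ g)
    (hcase : (p ≠ 2 ∧ h = g) ∨ (p = 2 ∧ h = g + 2))
    (n : ℤ) (hn : n ≠ 0) (S : Finset ℤ) (h0 : ∀ a ∈ S, a ≠ 0)
    (hsq : ∀ a ∈ S, ∀ b ∈ S, a ≠ b → IsSquare (a * b + n))
    (V : ℝ) (hV : V = Real.log |(n : ℝ)| / (g * Real.log p)) :
    ((S.filter (fun a : ℤ => 2 * padicValInt p a + h ≤ padicValInt p n ∨
      padicValInt p n + h ≤ 2 * padicValInt p a)).card : ℝ) ≤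
      9000 * (1 + V) * (1 + Real.log (1 + V)) ^ 2 := by
  classical
  have : Fact p.Prime := ⟨hp⟩
  have hn1 : 1 ≤ |n| := Int.one_le_abs hn
  set N : ℕ := n.natAbs with hN
  have hNZ : (N : ℤ) = |n| := Int.natCast_natAbs n
  have hN1 : 1 ≤ N := by
    have : (1 : ℤ) ≤ N := by rw [hNZ]; exact hn1
    exact_mod_cast this
  set q := p ^ g with hq
  have hq2 : 2 ≤ q := by
    calc 2 ≤ p := hp.two_le
      _ = p ^ 1 := by ring
      _ ≤ p ^ g := Nat.pow_le_pow_right hp.pos hg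
  have hVq : V = Real.log N / Real.log q := by
    rw [hV, abs_log, hq, Nat.cast_pow, Real.log_pow]
  set L := Nat.clog q (20 * N ^ 2) with hL
  have hLV : (L : ℝ) ≤ 6 + 2 * V := L_bound q hq2 N hN1 V hVq
  have hN2 : 1 ≤ N ^ 2 := Nat.one_le_pow _ _ hN1
  have hL1 : 1 ≤ L := Nat.clog_pos (by omega) (by omega)
  have hLpow : 20 * N ^ 2 ≤ q ^ L := Nat.le_pow_clog (by omega) _
  have hV0 : 0 ≤ V := by
    rw [hVq]
    exact div_nonneg (Real.log_nonneg (by exact_mod_cast hN1))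
      (Real.log_nonneg (by exact_mod_cast (by omega : 1 ≤ q)))
  obtain ⟨s, hs1, hsL, hsb⟩ := choose_s L hL1
  set B := 5 * N ^ 2 with hB
  have hsize : (4 * B) ^ s < (p ^ g) ^ (2 ^ s - 1) := by
    rw [← hq]
    calc (4 * B) ^ s = (20 * N ^ 2) ^ s := by rw [hB]; ring
      _ ≤ (q ^ L) ^ s := Nat.pow_le_pow_left hLpow s
      _ = q ^ (s * L) := by rw [← pow_mul, mul_comm]
      _ < q ^ (2 ^ s - 1) := Nat.pow_lt_pow_right (by omega) (by omega)
  -- the three parts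
  set S1 := S.filter (fun a : ℤ => 2 * |n| ≤ |a|) with hS1
  set S2 := S.filter (fun a : ℤ => |a| < 2 * |n| ∧ 2 * padicValInt p a + h ≤ padicValInt p n)
    with hS2
  set S3 := S.filter (fun a : ℤ => |a| < 2 * |n| ∧ padicValInt p n + h ≤ 2 * padicValInt p a)
    with hS3
  have hsub : S.filter (fun a : ℤ => 2 * padicValInt p a + h ≤ padicValInt p n ∨
      padicValInt p n + h ≤ 2 * padicValInt p a) ⊆ S1 ∪ S2 ∪ S3 := by
    intro a ha
    rw [Finset.mem_filter] at ha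
    simp only [hS1, hS2, hS3, Finset.mem_union, Finset.mem_filter]
    rcases le_or_gt (2 * |n|) |a| with h1 | h1
    · exact Or.inl (Or.inl ⟨ha.1, h1⟩)
    · rcases ha.2 with h2 | h2
      · exact Or.inl (Or.inr ⟨ha.1, h1, h2⟩)
      · exact Or.inr ⟨ha.1, h1, h2⟩
  have hbd : ∀ a b : ℤ, |a| < 2 * |n| → |b| < 2 * |n| → a * b + n ≤ (B : ℕ) := by
    intro a b ha hb
    have h1 : a * b ≤ (2 * |n|) * (2 * |n|) := by
      calc a * b ≤ |a * b| := le_abs_self _
        _ = |a| * |b| := abs_mul _ _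
        _ ≤ (2 * |n|) * (2 * |n|) := mul_le_mul ha.le hb.le (abs_nonneg _) (by positivity)
    have h2 : n ≤ |n| := le_abs_self n
    have h3 : ((B : ℕ) : ℤ) = 5 * |n| ^ 2 := by
      rw [hB]; push_cast; rw [hNZ]
    rw [h3]
    nlinarith
  have b1 : (S1.card : ℝ) ≤ 1378 := huge_count n hn S h0 hsq
  have b2 : S2.card ≤ 17 * L * (Nat.clog 2 L + 2) ^ 2 := by
    refine le_trans (group_small p h g hg hcase s hs1 n hn S2 ?_ ?_ B ?_ ?_ hsize) hsb
    · intro a ha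
      exact h0 a (Finset.mem_filter.1 ha).1
    · intro a ha b hb hab
      exact hsq a (Finset.mem_filter.1 ha).1 b (Finset.mem_filter.1 hb).1 hab
    · intro a ha b hb _
      exact hbd a b (Finset.mem_filter.1 ha).2.1 (Finset.mem_filter.1 hb).2.1
    · intro a ha
      exact (Finset.mem_filter.1 ha).2.2
  have b3 : S3.card ≤ 17 * L * (Nat.clog 2 L + 2) ^ 2 := by
    refine le_trans (group_large p h g hg hcase s hs1 n hn S3 ?_ ?_ B ?_ ?_ hsize) hsb
    · intro a ha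
      exact h0 a (Finset.mem_filter.1 ha).1
    · intro a ha b hb hab
      exact hsq a (Finset.mem_filter.1 ha).1 b (Finset.mem_filter.1 hb).1 hab
    · intro a ha b hb _
      exact hbd a b (Finset.mem_filter.1 ha).2.1 (Finset.mem_filter.1 hb).2.1
    · intro a ha
      exact (Finset.mem_filter.1 ha).2.2
  have hc := Finset.card_le_card hsub
  have hc2 : (S1 ∪ S2 ∪ S3).card ≤ S1.card + S2.card + S3.card :=
    (Finset.card_union_le _ _).trans (Nat.add_le_add_right (Finset.card_union_le _ _) _)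
  have hc3 : ((S.filter (fun a : ℤ => 2 * padicValInt p a + h ≤ padicValInt p n ∨
      padicValInt p n + h ≤ 2 * padicValInt p a)).card : ℝ) ≤
      (S1.card : ℝ) + (S2.card : ℝ) + (S3.card : ℝ) := by exact_mod_cast hc.trans hc2
  have b2' : (S2.card : ℝ) ≤ ((17 * L * (Nat.clog 2 L + 2) ^ 2 : ℕ) : ℝ) := by exact_mod_cast b2
  have b3' : (S3.card : ℝ) ≤ ((17 * L * (Nat.clog 2 L + 2) ^ 2 : ℕ) : ℝ) := by exact_mod_cast b3
  have hfin := final_bound L hL1 V hV0 hLV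
  linarith

end Pool.Agent.Helper13.Dn
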