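import Mathlib
import Pool.Agent.Helper13.Dn.Window

set_option autoImplicit false

namespace Pool.Agent.Helper13.Dn

open Finset

/-- Trivial bound: at most `1379 + 4 |n|` elements. -/
theorem trivial_bound (n : ℤ) (hn : n ≠ 0) (S : Finset ℤ) (h0 : ∀ a ∈ S, a ≠ 0)
    (hsq : ∀ a ∈ S, ∀ b ∈ S, a ≠ b → IsSquare (a * b + n)) :
    (S.card : ℝ) ≤ 1379 + 4 * |(n : ℝ)| := by
  classical
  have h1 := huge_count n hn S h0 hsq
  have h2 : S ⊆ S.filter (fun a : ℤ => 2 * |n| ≤ |a|) ∪ Finset.Icc (-(2 * |n|)) (2 * |n|) := by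
    intro a ha
    rw [Finset.mem_union, Finset.mem_filter, Finset.mem_Icc]
    rcases le_or_gt (2 * |n|) |a| with h | h
    · exact Or.inl ⟨ha, h⟩
    · exact Or.inr ⟨by have := (abs_lt.1 h).1; omega, (abs_lt.1 h).2.le⟩
  have h3 := (Finset.card_le_card h2).trans (Finset.card_union_le _ _)
  rw [Int.card_Icc] at h3
  have h4 : ((2 * |n| + 1 - -(2 * |n|)).toNat : ℤ) = 4 * |n| + 1 := by
    rw [Int.toNat_of_nonneg (by have := abs_nonneg n; omega)]; ring
  have h5 : ((2 * |n| + 1 - -(2 * |n|)).toNat : ℝ) = 4 * |(n : ℝ)| + 1 := by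
    have := congrArg (fun z : ℤ => (z : ℝ)) h4
    push_cast at this ⊢
    exact this
  have h6 : (S.card : ℝ) ≤ ((S.filter (fun a : ℤ => 2 * |n| ≤ |a|)).card : ℝ) +
      ((2 * |n| + 1 - -(2 * |n|)).toNat : ℝ) := by exact_mod_cast h3
  rw [h5] at h6
  linarith

/-- Dividing a `D(n)`-set by a common factor. -/
theorem divide (d : ℤ) (hd : d ≠ 0) (n n' : ℤ) (hn : n = d ^ 2 * n') (S : Finset ℤ)
    (h0 : ∀ a ∈ S, a ≠ 0) (hsq : ∀ a ∈ S, ∀ b ∈ S, a ≠ b → IsSquare (a * b + n))
    (hdvd : ∀ a ∈ S, d ∣ a) :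
    ∃ S' : Finset ℤ, S'.card = S.card ∧ (∀ a ∈ S', a ≠ 0) ∧
      (∀ a ∈ S', ∀ b ∈ S', a ≠ b → IsSquare (a * b + n')) := by
  classical
  refine ⟨S.image (fun a => a / d), ?_, ?_, ?_⟩
  · apply Finset.card_image_of_injOn
    intro a ha b hb hab
    have h1 := Int.ediv_mul_cancel (hdvd a ha)
    have h2 := Int.ediv_mul_cancel (hdvd b hb)
    have hab' : a / d = b / d := hab
    rw [← h1, ← h2, hab']
  · intro a' ha'
    obtain ⟨a, ha, rfl⟩ := Finset.mem_image.1 ha'
    intro h
    have h1 := Int.ediv_mul_cancel (hdvd a ha)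
    rw [h, zero_mul] at h1
    exact h0 a ha h1.symm
  · intro a' ha' b' hb' hab
    obtain ⟨a, ha, rfl⟩ := Finset.mem_image.1 ha'
    obtain ⟨b, hb, rfl⟩ := Finset.mem_image.1 hb'
    have h1 := Int.ediv_mul_cancel (hdvd a ha)
    have h2 := Int.ediv_mul_cancel (hdvd b hb)
    have hne : a ≠ b := fun h => hab (by rw [h])
    obtain ⟨r, hr⟩ := hsq a ha b hb hne
    have h3 : r ^ 2 = d ^ 2 * (a / d * (b / d) + n') := by
      rw [pow_two r, ← hr, hn]
      nth_rewrite 1 [← h1]
      nth_rewrite 1 [← h2]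
      ring
    have h4 : d ∣ r := by
      have : d ^ 2 ∣ r ^ 2 := ⟨_, h3⟩
      exact (Int.pow_dvd_pow_iff (by norm_num)).1 this
    obtain ⟨k, rfl⟩ := h4
    refine ⟨k, ?_⟩
    have h5 : d ^ 2 * (a / d * (b / d) + n') = d ^ 2 * (k * k) := by
      rw [← h3]; ring
    exact mul_left_cancel₀ (pow_ne_zero 2 hd) h5

theorem exists_large_prime_power (N r : ℕ) (hN : 2 ≤ N) (hr : N.primeFactors.card ≤ r) :
    ∃ p : ℕ, p.Prime ∧ 1 ≤ N.factorization p ∧
      Real.log N ≤ r * (N.factorization p * Real.log p) := by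
  classical
  by_contra hcon
  push Not at hcon
  have hlN : 0 < Real.log N := Real.log_pos (by exact_mod_cast (by omega : 1 < N))
  have h1 : Real.log N = ∑ p ∈ N.primeFactors, (N.factorization p : ℝ) * Real.log p := by
    rw [Real.log_nat_eq_sum_factorization, Finsupp.sum, Nat.support_factorization]
  have hne : N.primeFactors.Nonempty := Nat.nonempty_primeFactors.2 (by omega)
  have hr0 : (0 : ℝ) < r := by
    have : 0 < N.primeFactors.card := Finset.card_pos.2 hne
    exact_mod_cast (by omega : 0 < r)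
  have h2 : ∑ p ∈ N.primeFactors, (r : ℝ) * ((N.factorization p : ℝ) * Real.log p) <
      ∑ p ∈ N.primeFactors, Real.log N := by
    apply Finset.sum_lt_sum_of_nonempty hne
    intro p hp
    have hpp := Nat.prime_of_mem_primeFactors hp
    have hpos : 1 ≤ N.factorization p := by
      have := (Nat.Prime.dvd_iff_one_le_factorization hpp (by omega : N ≠ 0)).1
        (Nat.dvd_of_mem_primeFactors hp)
      exact this
    exact hcon p hpp hpos
  rw [← Finset.mul_sum, ← h1, Finset.sum_const, nsmul_eq_mul] at h2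
  have h3 : (N.primeFactors.card : ℝ) ≤ r := by exact_mod_cast hr
  nlinarith

/-- Sets of integers with at most `r` prime factors. -/
theorem few_primes (r : ℕ) : ∃ C : ℝ, ∀ n : ℤ, n ≠ 0 → n.natAbs.primeFactors.card ≤ r →
    ∀ S : Finset ℤ, (∀ a ∈ S, a ≠ 0) → (∀ a ∈ S, ∀ b ∈ S, a ≠ b → IsSquare (a * b + n)) →
      (S.card : ℝ) ≤ C * (1 + Real.log (1 + Real.log |(n : ℝ)|)) := by
  classical
  set C0 : ℝ := 1379 + 4 * (32 : ℝ) ^ r with hC0
  set C1 : ℝ := 9000 * (1 + 6 * r) * (1 + Real.log (1 + 6 * r)) ^ 2 with hC1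
  have hC1pos : 0 ≤ C1 := by rw [hC1]; positivity
  set C : ℝ := C0 + C1 * (4 * r + 1) with hC
  refine ⟨C, ?_⟩
  suffices H : ∀ m : ℕ, ∀ n : ℤ, n.natAbs = m → n ≠ 0 → n.natAbs.primeFactors.card ≤ r →
      ∀ S : Finset ℤ, (∀ a ∈ S, a ≠ 0) → (∀ a ∈ S, ∀ b ∈ S, a ≠ b → IsSquare (a * b + n)) →
      (S.card : ℝ) ≤ C * (1 + Real.log (1 + Real.log |(n : ℝ)|)) from
    fun n hn hr S h0 hsq => H _ n rfl hn hr S h0 hsq
  intro m
  induction m using Nat.strong_induction_on with
  | _ m ih =>
  intro n hnm hn hr S h0 hsq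
  have hn1 : 1 ≤ |n| := Int.one_le_abs hn
  have hnR : (1 : ℝ) ≤ |(n : ℝ)| := by exact_mod_cast hn1
  have hl0 : 0 ≤ Real.log |(n : ℝ)| := Real.log_nonneg hnR
  have hll0 : 0 ≤ Real.log (1 + Real.log |(n : ℝ)|) := Real.log_nonneg (by linarith)
  rcases le_or_gt |(n : ℝ)| ((32 : ℝ) ^ r) with hsmall | hbig
  · -- small n
    have h1 := trivial_bound n hn S h0 hsq
    have h2 : (S.card : ℝ) ≤ C0 := by rw [hC0]; linarith
    have h3 : C0 ≤ C := by
      rw [hC]
      have : 0 ≤ C1 * (4 * r + 1) := by positivity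
      linarith
    have hC0pos : 0 ≤ C0 := by rw [hC0]; positivity
    nlinarith
  · -- large n
    set ℓ := Real.log |(n : ℝ)| with hℓ
    have h32 : (1 : ℝ) ≤ (32 : ℝ) ^ r := one_le_pow₀ (by norm_num)
    have hN2 : 2 ≤ n.natAbs := by
      have h1 : (1 : ℝ) < |(n : ℝ)| := lt_of_le_of_lt h32 hbig
      have h2 : (1 : ℝ) < (n.natAbs : ℝ) := by rw [Nat.cast_natAbs, Int.cast_abs]; exact h1
      have h3 : 1 < n.natAbs := by exact_mod_cast h2
      omega
    obtain ⟨p, hp, he1, hple⟩ := exists_large_prime_power n.natAbs r hN2 hr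
    have : Fact p.Prime := ⟨hp⟩
    set e := n.natAbs.factorization p with he
    have hev : padicValInt p n = e := by
      rw [he, padicValInt, Nat.factorization_def _ hp]
    have hℓN : Real.log (n.natAbs : ℕ) = ℓ := by rw [hℓ, abs_log]
    rw [hℓN] at hple
    have hlp : 0 < Real.log p := Real.log_pos (by exact_mod_cast hp.one_lt)
    have hℓ32 : r * Real.log 32 < ℓ := by
      rw [hℓ, ← Real.log_pow]
      exact Real.log_lt_log (by positivity) hbig
    have hℓpos : 0 < ℓ := by
      have : 0 ≤ (r : ℝ) * Real.log 32 := by positivity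
      linarith
    have hr0 : (0 : ℝ) < r := by
      rcases Nat.eq_zero_or_pos r with h | h
      · rw [h] at hple
        simp at hple
        linarith
      · exact_mod_cast h
    -- e log p > log 32
    have helog : Real.log 32 < e * Real.log p := by
      have h1 : r * Real.log 32 < r * (e * Real.log p) := lt_of_lt_of_le hℓ32 hple
      exact lt_of_mul_lt_mul_left h1 hr0.le
    set h := (e + 1) / 2 with hh
    obtain ⟨g, hg1, hcase, hg6⟩ : ∃ g : ℕ, 1 ≤ g ∧ ((p ≠ 2 ∧ h = g) ∨ (p = 2 ∧ h = g + 2)) ∧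
        e ≤ 6 * g := by
      by_cases hp2 : p = 2
      · have he6 : 6 ≤ e := by
          rw [hp2] at helog
          have h1 : Real.log 32 = 5 * Real.log 2 := by
            rw [show (32 : ℝ) = 2 ^ 5 by norm_num, Real.log_pow]; norm_num
          rw [h1] at helog
          have h2 : (5 : ℝ) < e := lt_of_mul_lt_mul_right helog (Real.log_nonneg (by norm_num))
          exact_mod_cast h2
        exact ⟨h - 2, by omega, Or.inr ⟨hp2, by omega⟩, by omega⟩
      · exact ⟨h, by omega, Or.inl ⟨hp2, rfl⟩, by omega⟩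
    set V := ℓ / (g * Real.log p) with hV
    have hgR : (1 : ℝ) ≤ g := by exact_mod_cast hg1
    have hglp : 0 < (g : ℝ) * Real.log p := by positivity
    have hV6 : V ≤ 6 * r := by
      rw [hV, div_le_iff₀ hglp]
      have h1 : (e : ℝ) ≤ 6 * g := by exact_mod_cast hg6
      calc ℓ ≤ r * (e * Real.log p) := hple
        _ ≤ r * ((6 * g) * Real.log p) := by
          apply mul_le_mul_of_nonneg_left _ hr0.le
          exact mul_le_mul_of_nonneg_right h1 hlp.le
        _ = 6 * r * (g * Real.log p) := by ring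
    have hV0 : 0 ≤ V := by rw [hV]; positivity
    have hwin := window p hp h g hg1 hcase n hn S h0 hsq V hV
    have hwin' : ((S.filter (fun a : ℤ => 2 * padicValInt p a + h ≤ padicValInt p n ∨
        padicValInt p n + h ≤ 2 * padicValInt p a)).card : ℝ) ≤ C1 := by
      refine hwin.trans ?_
      rw [hC1]
      have h1 : Real.log (1 + V) ≤ Real.log (1 + 6 * r) :=
        Real.log_le_log (by linarith) (by linarith)
      have h2 : 0 ≤ Real.log (1 + V) := Real.log_nonneg (by linarith)
      gcongr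
    -- the remaining elements
    set S1 := S.filter (fun a : ℤ => ¬ (2 * padicValInt p a + h ≤ padicValInt p n ∨
        padicValInt p n + h ≤ 2 * padicValInt p a)) with hS1
    have hsplit : (S.card : ℝ) = ((S.filter (fun a : ℤ => 2 * padicValInt p a + h ≤
        padicValInt p n ∨ padicValInt p n + h ≤ 2 * padicValInt p a)).card : ℝ) + S1.card := by
      rw [hS1]
      exact_mod_cast (Finset.card_filter_add_card_filter_not _).symm
    have hS1v : ∀ a ∈ S1, e / 4 + 1 ≤ padicValInt p a ∧ 2 ≤ e := by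
      intro a ha
      have h1 := (Finset.mem_filter.1 ha).2
      push Not at h1
      rw [hev] at h1
      omega
    rcases S1.eq_empty_or_nonempty with hemp | ⟨a0, ha0⟩
    · rw [hemp, Finset.card_empty, Nat.cast_zero, add_zero] at hsplit
      have h3 : C1 ≤ C := by
        rw [hC, hC0]
        have h4 : C1 ≤ C1 * (4 * r + 1) := by nlinarith
        have : (0 : ℝ) ≤ 1379 + 4 * 32 ^ r := by positivity
        linarith
      nlinarith
    · have he2 : 2 ≤ e := (hS1v a0 ha0).2
      set k := e / 4 + 1 with hk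
      have h2k : 2 * k ≤ e := by omega
      have hpkn : ((p : ℤ) ^ k) ^ 2 ∣ n := by
        rw [← pow_mul, mul_comm k 2]
        refine (padicValInt_dvd_iff (p := p) _ n).2 (Or.inr ?_)
        rw [hev]; exact h2k
      obtain ⟨n', hn'⟩ := hpkn
      have hpZ0 : (p : ℤ) ≠ 0 := by exact_mod_cast hp.ne_zero
      have hn'0 : n' ≠ 0 := by
        rintro rfl
        exact hn (by rw [hn']; ring)
      obtain ⟨S', hS'c, hS'0, hS'sq⟩ := divide ((p : ℤ) ^ k) (pow_ne_zero _ hpZ0) n n' hn' S1
        (fun a ha => h0 a (Finset.mem_filter.1 ha).1)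
        (fun a ha b hb hab => hsq a (Finset.mem_filter.1 ha).1 b (Finset.mem_filter.1 hb).1 hab)
        (fun a ha => (padicValInt_dvd_iff (p := p) _ a).2 (Or.inr (hS1v a ha).1))
      -- sizes
      have hnatAbs : n.natAbs = (p ^ k) ^ 2 * n'.natAbs := by
        rw [hn', Int.natAbs_mul, Int.natAbs_pow, Int.natAbs_pow, Int.natAbs_natCast]
      have hpk1 : 1 < p ^ k := Nat.one_lt_pow (by omega) hp.one_lt
      have hn'pos : 0 < n'.natAbs := Int.natAbs_pos.2 hn'0
      have hlt : n'.natAbs < m := by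
        rw [← hnm, hnatAbs]
        have : 1 < (p ^ k) ^ 2 := Nat.one_lt_pow (by norm_num) hpk1
        nlinarith
      have hr' : n'.natAbs.primeFactors.card ≤ r := by
        refine le_trans (Finset.card_le_card ?_) hr
        apply Nat.primeFactors_mono
        · rw [hnatAbs]; exact Dvd.intro_left _ rfl
        · omega
      have hIH := ih n'.natAbs hlt n' rfl hn'0 hr' S' hS'0 hS'sq
      set ℓ' := Real.log |(n' : ℝ)| with hℓ'
      have hℓℓ' : ℓ = 2 * (k * Real.log p) + ℓ' := by
        rw [hℓ, hℓ', abs_log, abs_log, hnatAbs]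
        push_cast
        have hp0 : (0 : ℝ) < p := by exact_mod_cast hp.pos
        rw [Real.log_mul (by positivity) (by exact_mod_cast hn'pos.ne'), Real.log_pow,
          Real.log_pow]
        push_cast
        ring
      have hℓ'0 : 0 ≤ ℓ' := by
        rw [hℓ']
        exact Real.log_nonneg (by exact_mod_cast Int.one_le_abs hn'0)
      have hk4 : (e : ℝ) ≤ 4 * k := by
        have : e ≤ 4 * k := by omega
        exact_mod_cast this
      -- ℓ' ≤ ℓ (1 - 1/(2r))
      have hdec : ℓ ≤ 2 * r * (ℓ - ℓ') := by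
        have h1 : ℓ - ℓ' = 2 * (k * Real.log p) := by rw [hℓℓ']; ring
        rw [h1]
        calc ℓ ≤ r * (e * Real.log p) := hple
          _ ≤ r * ((4 * k) * Real.log p) := by
            apply mul_le_mul_of_nonneg_left _ hr0.le
            exact mul_le_mul_of_nonneg_right hk4 hlp.le
          _ = 2 * r * (2 * (k * Real.log p)) := by ring
      have hr1 : (1 : ℝ) ≤ r := by
        have : 0 < r := by exact_mod_cast hr0
        exact_mod_cast this
      have hℓ1 : 1 ≤ ℓ := by
        have h1 : (1 : ℝ) ≤ Real.log 32 := by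
          rw [Real.le_log_iff_exp_le (by norm_num)]
          have := Real.exp_one_lt_d9
          linarith
        have h2 : (1 : ℝ) * 1 ≤ r * Real.log 32 := mul_le_mul hr1 h1 (by norm_num) hr0.le
        linarith
      have hlogdiff : Real.log (1 + ℓ') + 1 / (4 * r + 1) ≤ Real.log (1 + ℓ) := by
        have h1 : 0 < 1 + ℓ' := by linarith
        have h2 : 0 < 1 + ℓ := by linarith
        have h3 : Real.log (1 + ℓ) - Real.log (1 + ℓ') = Real.log ((1 + ℓ) / (1 + ℓ')) :=
          (Real.log_div h2.ne' h1.ne').symm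
        have h4 : 1 - ((1 + ℓ) / (1 + ℓ'))⁻¹ ≤ Real.log ((1 + ℓ) / (1 + ℓ')) :=
          Real.one_sub_inv_le_log_of_pos (by positivity)
        have h5 : 1 / (4 * r + 1) ≤ 1 - ((1 + ℓ) / (1 + ℓ'))⁻¹ := by
          rw [inv_div]
          have h6 : 1 - (1 + ℓ') / (1 + ℓ) = (ℓ - ℓ') / (1 + ℓ) := by
            field_simp; ring
          rw [h6, div_le_div_iff₀ (by positivity) h2]
          have h7 : 0 ≤ ℓ - ℓ' := by
            rw [hℓℓ']
            have : 0 ≤ 2 * ((k : ℝ) * Real.log p) := by positivity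
            linarith
          have h8 : (ℓ - ℓ') * (4 * r + 1) = 2 * (2 * r * (ℓ - ℓ')) + (ℓ - ℓ') := by ring
          rw [h8]
          linarith
        linarith
      have hfin : C1 + C * (1 + Real.log (1 + ℓ')) ≤ C * (1 + Real.log (1 + ℓ)) := by
        have h1 : C1 ≤ C * (1 / (4 * r + 1)) := by
          rw [mul_one_div, le_div_iff₀ (by positivity), hC, hC0]
          have : (0 : ℝ) ≤ 1379 + 4 * 32 ^ r := by positivity
          linarith
        have hCpos : 0 ≤ C := by
          rw [hC, hC0]; positivity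
        have h2 := mul_le_mul_of_nonneg_left hlogdiff hCpos
        calc C1 + C * (1 + Real.log (1 + ℓ')) ≤
            C * (1 / (4 * r + 1)) + C * (1 + Real.log (1 + ℓ')) := by linarith
          _ = C + C * (Real.log (1 + ℓ') + 1 / (4 * r + 1)) := by ring
          _ ≤ C + C * Real.log (1 + ℓ) := by linarith
          _ = C * (1 + Real.log (1 + ℓ)) := by ring
      have hc1 : (S1.card : ℝ) ≤ C * (1 + Real.log (1 + ℓ')) := by
        rw [← hS'c]; exact hIH
      linarith

end Pool.Agent.Helper13.Dn
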