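import Mathlib
import Pool.Agent.Helper13.Dn.FewPrimes

set_option autoImplicit false

namespace Pool.Agent.Helper13.Dn

open Finset

/-- Upper bound in Mertens' first theorem. -/
theorem mertens_upper (n : ℕ) (hn : 1 ≤ n) :
    ∑ p ∈ n.primesLE, Real.log p / p ≤ Real.log n + Real.log 4 := by
  have h1 : ∑ p ∈ n.primesLE, ((n / p : ℕ) : ℝ) * Real.log p ≤ Real.log (n.factorial : ℕ) := by
    rw [Real.log_nat_eq_sum_factorization, Finsupp.sum]
    have hsub : n.primesLE ⊆ (n.factorial).factorization.support := by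
      intro p hp
      rw [Nat.mem_primesLE] at hp
      rw [Nat.support_factorization, Nat.mem_primeFactors]
      exact ⟨hp.2, hp.2.dvd_factorial.2 hp.1, Nat.factorial_ne_zero n⟩
    refine le_trans ?_ (Finset.sum_le_sum_of_subset_of_nonneg hsub
      (fun p _ _ => mul_nonneg (Nat.cast_nonneg _) (Real.log_natCast_nonneg p)))
    refine Finset.sum_le_sum fun p hp => ?_
    rw [Nat.mem_primesLE] at hp
    refine mul_le_mul_of_nonneg_right ?_ (Real.log_natCast_nonneg p)
    have hfac := Nat.factorization_factorial hp.2 (n := n) (b := Nat.log p n + 1) (by omega)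
    rw [hfac]
    have hlog : 1 ≤ Nat.log p n := Nat.log_pos hp.2.one_lt hp.1
    have : n / p ^ 1 ≤ ∑ i ∈ Ico 1 (Nat.log p n + 1), n / p ^ i :=
      Finset.single_le_sum (f := fun i => n / p ^ i) (fun i _ => Nat.zero_le _)
        (Finset.mem_Ico.2 ⟨le_rfl, by omega⟩)
    rw [pow_one] at this
    exact_mod_cast this
  have h2 : Real.log (n.factorial : ℕ) ≤ n * Real.log n := by
    have : ((n.factorial : ℕ) : ℝ) ≤ (n : ℝ) ^ n := by exact_mod_cast Nat.factorial_le_pow n
    rw [← Real.log_pow]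
    exact Real.log_le_log (by exact_mod_cast Nat.factorial_pos n) this
  have h3 : ∑ p ∈ n.primesLE, Real.log p ≤ Real.log 4 * n := by
    rw [← Chebyshev.theta_eq_sum_primesLE_log]
    exact Chebyshev.theta_le_log4_mul_x (by positivity)
  have h4 : (n : ℝ) * ∑ p ∈ n.primesLE, Real.log p / p ≤
      ∑ p ∈ n.primesLE, ((n / p : ℕ) : ℝ) * Real.log p + ∑ p ∈ n.primesLE, Real.log p := by
    rw [Finset.mul_sum, ← Finset.sum_add_distrib]
    refine Finset.sum_le_sum fun p hp => ?_
    rw [Nat.mem_primesLE] at hp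
    have hp0 : (0 : ℝ) < p := by exact_mod_cast hp.2.pos
    have hlog := Real.log_natCast_nonneg p
    have hdiv : (n : ℝ) / p ≤ ((n / p : ℕ) : ℝ) + 1 := by
      rw [div_le_iff₀ hp0]
      have h5 := Nat.div_add_mod n p
      have h6 := Nat.mod_lt n hp.2.pos
      have h7 : n ≤ (n / p + 1) * p := by nlinarith
      exact_mod_cast h7
    calc (n : ℝ) * (Real.log p / p) = (n : ℝ) / p * Real.log p := by ring
      _ ≤ (((n / p : ℕ) : ℝ) + 1) * Real.log p := mul_le_mul_of_nonneg_right hdiv hlog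
      _ = _ := by ring
  have hn0 : (0 : ℝ) < n := by exact_mod_cast hn
  have h5 : (n : ℝ) * ∑ p ∈ n.primesLE, Real.log p / p ≤ n * (Real.log n + Real.log 4) := by
    nlinarith
  exact le_of_mul_le_mul_left h5 hn0

/-- Few integers have a large smooth part. -/
theorem smooth_sum (N y : ℕ) (hy : 1 ≤ y) :
    ∑ m ∈ Finset.Icc 1 N, ∑ p ∈ y.primesLE, (m.factorization p : ℝ) * Real.log p ≤
      2 * N * (Real.log y + Real.log 4) := by
  rw [Finset.sum_comm]
  have h1 : ∀ p ∈ y.primesLE, ∑ m ∈ Finset.Icc 1 N, (m.factorization p : ℝ) * Real.log p ≤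
      2 * N * (Real.log p / p) := by
    intro p hp
    rw [Nat.mem_primesLE] at hp
    have hpp := hp.2
    have h2 : ∑ m ∈ Finset.Icc 1 N, m.factorization p = (N.factorial).factorization p := by
      have hIcc : Finset.Icc 1 N = Finset.Ico 1 (N + 1) := by
        ext m; simp [Finset.mem_Icc, Finset.mem_Ico]
      rw [← Finset.prod_Ico_id_eq_factorial, Nat.factorization_prod (fun m hm => by
        rw [Finset.mem_Ico] at hm; omega)]
      rw [Finsupp.finsetSum_apply, hIcc]
    have h3 := Nat.factorization_factorial_le_div_pred hpp N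
    rw [← h2] at h3
    have hp2 := hpp.two_le
    have h4 : (((∑ m ∈ Finset.Icc 1 N, m.factorization p : ℕ)) : ℝ) ≤ 2 * N / p := by
      have h5 : (((∑ m ∈ Finset.Icc 1 N, m.factorization p : ℕ)) : ℝ) ≤
          ((N / (p - 1) : ℕ) : ℝ) := by exact_mod_cast h3
      refine h5.trans (Nat.cast_div_le.trans ?_)
      rw [Nat.cast_sub (by omega), Nat.cast_one]
      have hpR : (2 : ℝ) ≤ p := by exact_mod_cast hp2
      rw [div_le_div_iff₀ (by linarith) (by linarith)]
      have hN0 : (0 : ℝ) ≤ N := Nat.cast_nonneg N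
      nlinarith
    rw [← Finset.sum_mul, ← Nat.cast_sum]
    have hlog : 0 ≤ Real.log p := Real.log_natCast_nonneg p
    calc _ ≤ 2 * N / p * Real.log p := mul_le_mul_of_nonneg_right h4 hlog
      _ = 2 * N * (Real.log p / p) := by ring
  refine (Finset.sum_le_sum h1).trans ?_
  rw [← Finset.mul_sum]
  have := mertens_upper y hy
  exact mul_le_mul_of_nonneg_left this (by positivity)

open Classical in
theorem count_bad (N y : ℕ) (hN : 2 ≤ N) (hy : 1 ≤ y) (hyN : y ≤ N) :
    (((Finset.Icc 1 N).filter (fun m : ℕ => ∀ p : ℕ, p.Prime → y < p →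
      m.factorization p ≠ 1)).card : ℝ) ≤
      4 * N * (Real.log y + Real.log 4) / Real.log N + N / y + Real.sqrt N := by
  set E := (Finset.Icc 1 N).filter (fun m : ℕ => ∀ p : ℕ, p.Prime → y < p →
      m.factorization p ≠ 1) with hE
  set E1 := (Finset.Icc 1 N).filter (fun m : ℕ => Nat.sqrt N < m ∧
    ∀ p : ℕ, p.Prime → p ∣ m → p ≤ y) with hE1
  set E2 := (Finset.Ioc y N).biUnion (fun d => (Finset.Ioc 0 N).filter (fun m => d ^ 2 ∣ m))
    with hE2
  set E3 := Finset.Icc 1 (Nat.sqrt N) with hE3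
  have hsub : E ⊆ E1 ∪ E2 ∪ E3 := by
    intro m hm
    rw [hE, Finset.mem_filter, Finset.mem_Icc] at hm
    simp only [Finset.mem_union]
    by_cases h1 : m ≤ Nat.sqrt N
    · right
      rw [hE3, Finset.mem_Icc]
      exact ⟨hm.1.1, h1⟩
    · left
      by_cases h2 : ∃ p : ℕ, p.Prime ∧ y < p ∧ p ∣ m
      · right
        obtain ⟨p, hp, hyp, hpm⟩ := h2
        rw [hE2, Finset.mem_biUnion]
        have hm0 : m ≠ 0 := by omega
        have h3 : 1 ≤ m.factorization p := (hp.dvd_iff_one_le_factorization hm0).1 hpm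
        have h4 := hm.2 p hp hyp
        have h5 : p ^ 2 ∣ m := (hp.pow_dvd_iff_le_factorization hm0).2 (by omega)
        refine ⟨p, Finset.mem_Ioc.2 ⟨hyp, (Nat.le_of_dvd (by omega) hpm).trans hm.1.2⟩, ?_⟩
        rw [Finset.mem_filter, Finset.mem_Ioc]
        exact ⟨⟨by omega, hm.1.2⟩, h5⟩
      · left
        push Not at h2
        rw [hE1, Finset.mem_filter, Finset.mem_Icc]
        refine ⟨hm.1, by omega, ?_⟩
        intro p hp hpm
        by_contra hcon
        exact h2 p hp (by omega) hpm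
  have hNR : (2 : ℝ) ≤ N := by exact_mod_cast hN
  have hlN : 0 < Real.log N := Real.log_pos (by linarith)
  -- E1
  have b1 : (E1.card : ℝ) ≤ 4 * N * (Real.log y + Real.log 4) / Real.log N := by
    rw [le_div_iff₀ hlN]
    have h1 : ∀ m ∈ E1, Real.log N / 2 ≤ ∑ p ∈ y.primesLE, (m.factorization p : ℝ) * Real.log p := by
      intro m hm
      rw [hE1, Finset.mem_filter, Finset.mem_Icc] at hm
      obtain ⟨⟨hm1, hm2⟩, hm3, hm4⟩ := hm
      have h2 : Real.log m = ∑ p ∈ y.primesLE, (m.factorization p : ℝ) * Real.log p := by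
        rw [Real.log_nat_eq_sum_factorization, Finsupp.sum, Nat.support_factorization]
        apply Finset.sum_subset
        · intro p hp
          rw [Nat.mem_primeFactors] at hp
          rw [Nat.mem_primesLE]
          exact ⟨hm4 p hp.1 hp.2.1, hp.1⟩
        · intro p _ hp2
          rw [← Nat.support_factorization, Finsupp.notMem_support_iff] at hp2
          rw [hp2]; simp
      rw [← h2]
      have h3 : N < m * m := by
        have := Nat.lt_succ_sqrt N
        have h4 : Nat.succ (Nat.sqrt N) ≤ m := hm3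
        exact lt_of_lt_of_le this (Nat.mul_le_mul h4 h4)
      have h4 : Real.log N ≤ Real.log ((m : ℝ) * m) :=
        Real.log_le_log (by linarith) (by exact_mod_cast h3.le)
      have hm0 : (m : ℝ) ≠ 0 := by
        have : m ≠ 0 := by omega
        exact_mod_cast this
      rw [Real.log_mul hm0 hm0] at h4
      linarith
    have h2 : (E1.card : ℝ) * (Real.log N / 2) ≤
        ∑ m ∈ E1, ∑ p ∈ y.primesLE, (m.factorization p : ℝ) * Real.log p := by
      rw [← nsmul_eq_mul]
      exact Finset.card_nsmul_le_sum _ _ _ h1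
    have h3 : ∑ m ∈ E1, ∑ p ∈ y.primesLE, (m.factorization p : ℝ) * Real.log p ≤
        ∑ m ∈ Finset.Icc 1 N, ∑ p ∈ y.primesLE, (m.factorization p : ℝ) * Real.log p := by
      apply Finset.sum_le_sum_of_subset_of_nonneg (Finset.filter_subset _ _)
      intro m _ _
      exact Finset.sum_nonneg (fun p _ => mul_nonneg (Nat.cast_nonneg _)
        (Real.log_natCast_nonneg p))
    have h4 := smooth_sum N y hy
    linarith
  -- E2
  have b2 : (E2.card : ℝ) ≤ N / y := by
    have h1 : (E2.card : ℝ) ≤ ∑ d ∈ Finset.Ioc y N, ((N / d ^ 2 : ℕ) : ℝ) := by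
      have : E2.card ≤ ∑ d ∈ Finset.Ioc y N, N / d ^ 2 := by
        refine Finset.card_biUnion_le.trans (le_of_eq ?_)
        refine Finset.sum_congr rfl (fun d _ => ?_)
        exact Nat.Ioc_filter_dvd_card_eq_div N (d ^ 2)
      exact_mod_cast this
    have h2 : ∑ d ∈ Finset.Ioc y N, ((N / d ^ 2 : ℕ) : ℝ) ≤
        ∑ d ∈ Finset.Ioc y N, (N : ℝ) * (((d : ℝ) ^ 2)⁻¹) := by
      refine Finset.sum_le_sum (fun d _ => ?_)
      refine Nat.cast_div_le.trans (le_of_eq ?_)
      push_cast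
      rw [div_eq_mul_inv]
    rw [← Finset.mul_sum] at h2
    have h3 := sum_Ioc_inv_sq_le_sub (α := ℝ) (k := y) (n := N) (by omega) hyN
    have hN0 : (0 : ℝ) ≤ N := Nat.cast_nonneg N
    have h4 : (N : ℝ) * ∑ d ∈ Finset.Ioc y N, (((d : ℝ) ^ 2)⁻¹) ≤ N * ((y : ℝ)⁻¹ - (N : ℝ)⁻¹) :=
      mul_le_mul_of_nonneg_left h3 hN0
    have h5 : (N : ℝ) * ((y : ℝ)⁻¹ - (N : ℝ)⁻¹) ≤ N / y := by
      rw [mul_sub, div_eq_mul_inv]
      have : 0 ≤ (N : ℝ) * (N : ℝ)⁻¹ := by positivity
      linarith
    linarith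
  have b3 : (E3.card : ℝ) ≤ Real.sqrt N := by
    rw [hE3, Nat.card_Icc, Nat.add_sub_cancel]
    exact Real.nat_sqrt_le_real_sqrt
  have hc := (Finset.card_le_card hsub).trans ((Finset.card_union_le _ _).trans
    (Nat.add_le_add_right (Finset.card_union_le _ _) _))
  have hc' : (E.card : ℝ) ≤ E1.card + E2.card + E3.card := by exact_mod_cast hc
  linarith

/-- Almost all integers. -/
theorem density (u : ℝ) (hu : 1 ≤ u) :
    ∃ N₀ : ℕ, ∀ N : ℕ, N₀ ≤ N →
      (({n : ℤ | n ≠ 0 ∧ |n| ≤ N ∧ ∃ S : Finset ℤ, (∀ a ∈ S, a ≠ 0) ∧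
        (∀ a ∈ S, ∀ b ∈ S, a ≠ b → IsSquare (a * b + n)) ∧
        9000 * (1 + u) * (1 + Real.log (1 + u)) ^ 2 < (S.card : ℝ)}.ncard : ℕ) : ℝ) ≤
      9 / u * N := by
  classical
  set c : ℝ := 1 / u with hc
  have hu0 : 0 < u := by linarith
  have hc0 : 0 < c := by rw [hc]; positivity
  have hc1 : c ≤ 1 := by rw [hc, div_le_one hu0]; exact hu
  have t1 : Filter.Tendsto (fun N : ℕ => Real.log (N : ℝ)) Filter.atTop Filter.atTop :=
    Real.tendsto_log_atTop.comp tendsto_natCast_atTop_atTop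
  have t2 : Filter.Tendsto (fun N : ℕ => (N : ℝ) ^ c) Filter.atTop Filter.atTop :=
    (tendsto_rpow_atTop hc0).comp tendsto_natCast_atTop_atTop
  have t3 : Filter.Tendsto (fun N : ℕ => Real.sqrt (N : ℝ)) Filter.atTop Filter.atTop :=
    Real.tendsto_sqrt_atTop.comp tendsto_natCast_atTop_atTop
  have ev := ((t1.eventually_ge_atTop (24 * Real.log 4 / c)).and
    ((t2.eventually_ge_atTop (6 / c + 1)).and (t3.eventually_ge_atTop (6 / c)))).and
    (Filter.eventually_ge_atTop (3 : ℕ))
  obtain ⟨N₀, hN₀⟩ := Filter.eventually_atTop.1 ev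
  refine ⟨N₀, fun N hN => ?_⟩
  obtain ⟨⟨e1, e2, e3⟩, e4⟩ := hN₀ N hN
  have hNR : (3 : ℝ) ≤ N := by exact_mod_cast e4
  have hN0 : (0 : ℝ) < N := by linarith
  have hlN : 0 < Real.log N := Real.log_pos (by linarith)
  have hl4 : 0 < Real.log 4 := Real.log_pos (by norm_num)
  set y := ⌊(N : ℝ) ^ c⌋₊ with hy
  have hNc0 : 0 ≤ (N : ℝ) ^ c := by positivity
  have hyle : (y : ℝ) ≤ (N : ℝ) ^ c := Nat.floor_le hNc0
  have hylt : (N : ℝ) ^ c < y + 1 := Nat.lt_floor_add_one _
  have h6c : 0 < 6 / c := by positivity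
  have hy6 : 6 / c < y + 0 := by linarith
  have hyR : 0 < (y : ℝ) := by linarith
  have hy1 : 1 ≤ y := by exact_mod_cast hyR
  have h6c6 : 6 ≤ 6 / c := by rw [le_div_iff₀ hc0]; nlinarith
  have hy2 : 6 < (y : ℝ) := by linarith
  have hyN : y ≤ N := by
    have h1 : (N : ℝ) ^ c ≤ (N : ℝ) ^ (1 : ℝ) :=
      Real.rpow_le_rpow_of_exponent_le (by linarith) hc1
    rw [Real.rpow_one] at h1
    exact_mod_cast hyle.trans h1
  have hcount := count_bad N y (by omega) hy1 hyN
  set E := (Finset.Icc 1 N).filter (fun m : ℕ => ∀ p : ℕ, p.Prime → y < p →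
      m.factorization p ≠ 1) with hE
  -- the set is contained in the two copies of E
  have hsub : {n : ℤ | n ≠ 0 ∧ |n| ≤ N ∧ ∃ S : Finset ℤ, (∀ a ∈ S, a ≠ 0) ∧
        (∀ a ∈ S, ∀ b ∈ S, a ≠ b → IsSquare (a * b + n)) ∧
        9000 * (1 + u) * (1 + Real.log (1 + u)) ^ 2 < (S.card : ℝ)} ⊆
      ((E.image (fun m : ℕ => (m : ℤ)) ∪ E.image (fun m : ℕ => -(m : ℤ)) : Finset ℤ) : Set ℤ) := by
    rintro n ⟨hn, hnN, S, h0, hsq, hbig⟩
    have hnat1 : 1 ≤ n.natAbs := Int.natAbs_pos.2 hn
    have hnatN : n.natAbs ≤ N := by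
      have : ((n.natAbs : ℕ) : ℤ) ≤ N := by rw [Int.natCast_natAbs]; exact hnN
      exact_mod_cast this
    have hmem : n.natAbs ∈ E := by
      rw [hE, Finset.mem_filter, Finset.mem_Icc]
      refine ⟨⟨hnat1, hnatN⟩, ?_⟩
      intro p hp hyp hfac
      have hfact : Fact p.Prime := ⟨hp⟩
      have hev : padicValInt p n = 1 := by
        rw [← hfac, padicValInt, Nat.factorization_def _ hp]
      have hp6 : (6 : ℝ) < p := lt_trans hy2 (by exact_mod_cast hyp)
      have hp2 : p ≠ 2 := by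
        rintro rfl
        norm_num at hp6
      have hplog : c * Real.log N ≤ Real.log p := by
        have h1 : (N : ℝ) ^ c ≤ p := by
          have : (y : ℝ) + 1 ≤ p := by exact_mod_cast hyp
          linarith
        have h2 := Real.log_le_log (by positivity) h1
        rwa [Real.log_rpow hN0] at h2
      have hlogn : Real.log |(n : ℝ)| ≤ Real.log N := by
        apply Real.log_le_log
        · exact abs_pos.2 (by exact_mod_cast hn)
        · exact_mod_cast hnN
      set V := Real.log |(n : ℝ)| / ((1 : ℕ) * Real.log p) with hV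
      have hlp : 0 < Real.log p := lt_of_lt_of_le (by positivity) hplog
      have hVu : V ≤ u := by
        rw [hV, Nat.cast_one, one_mul, div_le_iff₀ hlp]
        have h1 : u * (c * Real.log N) ≤ u * Real.log p :=
          mul_le_mul_of_nonneg_left hplog hu0.le
        have h2 : u * (c * Real.log N) = Real.log N := by
          rw [hc]; field_simp
        linarith
      have hV0 : 0 ≤ V := by
        rw [hV]
        have : 0 ≤ Real.log |(n : ℝ)| :=
          Real.log_nonneg (by exact_mod_cast Int.one_le_abs hn)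
        positivity
      have hwin := window p hp 1 1 le_rfl (Or.inl ⟨hp2, rfl⟩) n hn S h0 hsq V hV
      have hall : S.filter (fun a : ℤ => 2 * padicValInt p a + 1 ≤ padicValInt p n ∨
          padicValInt p n + 1 ≤ 2 * padicValInt p a) = S := by
        rw [Finset.filter_eq_self]
        intro a _
        rw [hev]
        omega
      rw [hall] at hwin
      have h3 : 9000 * (1 + V) * (1 + Real.log (1 + V)) ^ 2 ≤
          9000 * (1 + u) * (1 + Real.log (1 + u)) ^ 2 := by
        have h1 : Real.log (1 + V) ≤ Real.log (1 + u) :=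
          Real.log_le_log (by linarith) (by linarith)
        have h2 : 0 ≤ Real.log (1 + V) := Real.log_nonneg (by linarith)
        gcongr
      linarith
    rw [Finset.mem_coe, Finset.mem_union, Finset.mem_image, Finset.mem_image]
    rcases Int.natAbs_eq n with h | h
    · exact Or.inl ⟨n.natAbs, hmem, h.symm⟩
    · exact Or.inr ⟨n.natAbs, hmem, h.symm⟩
  have hcard : {n : ℤ | n ≠ 0 ∧ |n| ≤ N ∧ ∃ S : Finset ℤ, (∀ a ∈ S, a ≠ 0) ∧
        (∀ a ∈ S, ∀ b ∈ S, a ≠ b → IsSquare (a * b + n)) ∧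
        9000 * (1 + u) * (1 + Real.log (1 + u)) ^ 2 < (S.card : ℝ)}.ncard ≤ 2 * E.card := by
    refine (Set.ncard_le_ncard hsub (Finset.finite_toSet _)).trans ?_
    rw [Set.ncard_coe_finset]
    refine (Finset.card_union_le _ _).trans ?_
    have h1 := Finset.card_image_le (s := E) (f := fun m : ℕ => (m : ℤ))
    have h2 := Finset.card_image_le (s := E) (f := fun m : ℕ => -(m : ℤ))
    omega
  have hcardR : (({n : ℤ | n ≠ 0 ∧ |n| ≤ N ∧ ∃ S : Finset ℤ, (∀ a ∈ S, a ≠ 0) ∧
        (∀ a ∈ S, ∀ b ∈ S, a ≠ b → IsSquare (a * b + n)) ∧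
        9000 * (1 + u) * (1 + Real.log (1 + u)) ^ 2 < (S.card : ℝ)}.ncard : ℕ) : ℝ) ≤
      2 * (E.card : ℝ) := by exact_mod_cast hcard
  refine hcardR.trans ?_
  have hlogy : Real.log y ≤ c * Real.log N := by
    have := Real.log_le_log hyR hyle
    rwa [Real.log_rpow hN0] at this
  have g1 : 4 * N * (Real.log y + Real.log 4) / Real.log N ≤ 4 * c * N + c / 6 * N := by
    rw [div_le_iff₀ hlN]
    have h1 : 24 * Real.log 4 ≤ Real.log N * c := by rwa [div_le_iff₀ hc0] at e1
    have h2 : 4 * N * (Real.log y + Real.log 4) ≤ 4 * N * (c * Real.log N + Real.log N * c / 24) := by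
      apply mul_le_mul_of_nonneg_left _ (by positivity)
      linarith
    calc _ ≤ _ := h2
      _ = (4 * c * N + c / 6 * N) * Real.log N := by ring
  have g2 : (N : ℝ) / y ≤ c / 6 * N := by
    rw [div_le_iff₀ hyR]
    have h1 : 6 < y * c := by
      rw [add_zero, div_lt_iff₀ hc0] at hy6
      exact hy6
    nlinarith
  have g3 : Real.sqrt N ≤ c / 6 * N := by
    have h1 : 6 ≤ Real.sqrt N * c := by rwa [div_le_iff₀ hc0] at e3
    have h2 : Real.sqrt N * Real.sqrt N = N := Real.mul_self_sqrt hN0.le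
    have h3 : 0 ≤ Real.sqrt N := Real.sqrt_nonneg _
    nlinarith
  have h9 : 9 / u * N = 9 * c * N := by rw [hc]; ring
  rw [h9]
  linarith

end Pool.Agent.Helper13.Dn
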