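import Mathlib

set_option autoImplicit false

namespace Pool.Agent.Helper13.Dn

open Finset

/-- A correlation sum of quadratic characters of two linear forms. -/
theorem char_corr (p : ℕ) [Fact p.Prime] (hp2 : p ≠ 2) (n a b : ZMod p) (hn : n ≠ 0)
    (hab : a ≠ b) :
    |∑ x : ZMod p, quadraticChar (ZMod p) ((a * x + n) * (b * x + n))| ≤ 1 := by
  classical
  set χ := quadraticChar (ZMod p) with hχ
  set T : Finset (ZMod p) := univ.filter fun x => b * x + n ≠ 0 with hT
  set f : ZMod p → ZMod p := fun x => (a * x + n) / (b * x + n) with hf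
  have h1 : ∑ x : ZMod p, χ ((a * x + n) * (b * x + n)) = ∑ x ∈ T, χ (f x) := by
    rw [hT, Finset.sum_filter]
    refine Finset.sum_congr rfl fun x _ => ?_
    split_ifs with h
    · have h2 : (a * x + n) * (b * x + n) = f x * (b * x + n) ^ 2 := by
        simp only [hf]
        field_simp
      rw [h2, map_mul, hχ, quadraticChar_sq_one' h, mul_one]
    · push Not at h
      rw [h, mul_zero, hχ, quadraticChar_zero]
  have hinj : Set.InjOn f T := by
    intro x hx y hy hxy
    rw [Finset.mem_coe, hT, mem_filter] at hx hy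
    simp only [hf] at hxy
    have h2 : (a * x + n) * (b * y + n) = (a * y + n) * (b * x + n) :=
      (div_eq_div_iff hx.2 hy.2).1 hxy
    have h5 : n * (a - b) * (x - y) = 0 := by linear_combination h2
    rcases mul_eq_zero.1 h5 with h6 | h6
    · rcases mul_eq_zero.1 h6 with h7 | h7
      · exact absurd h7 hn
      · exact absurd (sub_eq_zero.1 h7) hab
    · exact sub_eq_zero.1 h6
  have h2 : ∑ x ∈ T, χ (f x) = ∑ t ∈ T.image f, χ t := (Finset.sum_image hinj).symm
  have hcard : (T.image f).card = T.card := Finset.card_image_of_injOn hinj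
  have hTc : Fintype.card (ZMod p) ≤ T.card + 1 := by
    have h3 : (univ : Finset (ZMod p)) ⊆ T ∪ (univ.filter fun x => b * x + n = 0) := by
      intro x _
      rw [mem_union, hT, mem_filter, mem_filter]
      by_cases h : b * x + n = 0
      · exact Or.inr ⟨mem_univ _, h⟩
      · exact Or.inl ⟨mem_univ _, h⟩
    have h4 : (univ.filter fun x : ZMod p => b * x + n = 0).card ≤ 1 := by
      rw [Finset.card_le_one]
      intro x hx y hy
      rw [mem_filter] at hx hy
      have h5 : b * (x - y) = 0 := by linear_combination hx.2 - hy.2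
      rcases mul_eq_zero.1 h5 with h6 | h6
      · exfalso
        apply hn
        have := hx.2
        rw [h6, zero_mul, zero_add] at this
        exact this
      · exact sub_eq_zero.1 h6
    have h5 := (Finset.card_le_card h3).trans (Finset.card_union_le _ _)
    rw [Finset.card_univ] at h5
    omega
  have h3 : ∑ t ∈ T.image f, χ t + ∑ t ∈ (T.image f)ᶜ, χ t = 0 := by
    rw [Finset.sum_add_sum_compl]
    apply quadraticChar_sum_zero
    rw [ZMod.ringChar_zmod_n]
    exact hp2
  have h4 : |∑ t ∈ (T.image f)ᶜ, χ t| ≤ 1 := by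
    calc |∑ t ∈ (T.image f)ᶜ, χ t| ≤ ∑ t ∈ (T.image f)ᶜ, |χ t| := Finset.abs_sum_le_sum_abs _ _
      _ ≤ ∑ t ∈ (T.image f)ᶜ, 1 := by
          refine Finset.sum_le_sum fun t _ => ?_
          rcases quadraticChar_isQuadratic (F := ZMod p) t with h | h | h <;> rw [hχ, h] <;>
            norm_num
      _ = ((T.image f)ᶜ.card : ℤ) := by simp
      _ ≤ 1 := by
          rw [Finset.card_compl, hcard]
          have : Fintype.card (ZMod p) - T.card ≤ 1 := by omega
          exact_mod_cast this
  rw [h1, h2]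
  have h5 : ∑ t ∈ T.image f, χ t = -∑ t ∈ (T.image f)ᶜ, χ t := by linarith
  rw [h5, abs_neg]
  exact h4

/-- Sets with the property `D(n)` in a prime field are small. -/
theorem paley (p : ℕ) [Fact p.Prime] (hp2 : p ≠ 2) (n : ZMod p) (hn : n ≠ 0)
    (A : Finset (ZMod p)) (hA : ∀ a ∈ A, ∀ b ∈ A, a ≠ b → IsSquare (a * b + n)) :
    (A.card : ℝ) ≤ Real.sqrt p + 5 := by
  classical
  set χ := quadraticChar (ZMod p) with hχ
  set T : ZMod p → ℤ := fun x => ∑ a ∈ A, χ (a * x + n) with hT
  have hp1 : (1 : ℝ) ≤ p := by exact_mod_cast (Fact.out : p.Prime).one_lt.le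
  have hs0 : 0 ≤ Real.sqrt p := Real.sqrt_nonneg _
  have hs1 : 1 ≤ Real.sqrt p := by rw [Real.one_le_sqrt]; exact hp1
  have hss : Real.sqrt p * Real.sqrt p = p := Real.mul_self_sqrt (by linarith)
  rcases le_or_gt A.card 3 with hc | hc
  · have : (A.card : ℝ) ≤ 3 := by exact_mod_cast hc
    linarith
  have hval : ∀ t : ZMod p, -1 ≤ χ t ∧ χ t ≤ 1 := by
    intro t
    rcases quadraticChar_isQuadratic (F := ZMod p) t with h | h | h <;> rw [hχ, h] <;> norm_num
  -- lower bound on `A`
  have h1 : ∀ x ∈ A, (A.card : ℤ) - 3 ≤ T x := by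
    intro x hx
    simp only [hT]
    rw [← Finset.add_sum_erase A _ hx]
    have h2 : ∀ a ∈ A.erase x, (1 : ℤ) - (if a * x + n = 0 then 1 else 0) ≤ χ (a * x + n) := by
      intro a ha
      rw [Finset.mem_erase] at ha
      split_ifs with h
      · rw [h, hχ, quadraticChar_zero]; norm_num
      · rw [hχ, (quadraticChar_one_iff_isSquare h).2 (hA a ha.2 x hx ha.1)]
        norm_num
    have h3 := Finset.sum_le_sum h2
    rw [Finset.sum_sub_distrib, Finset.sum_const, Finset.card_erase_of_mem hx, nsmul_eq_mul,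
      mul_one] at h3
    have h4 : ∑ a ∈ A.erase x, (if a * x + n = 0 then (1 : ℤ) else 0) ≤ 1 := by
      rw [← Finset.sum_filter, Finset.sum_const, nsmul_eq_mul, mul_one]
      have h5 : ((A.erase x).filter fun a => a * x + n = 0).card ≤ 1 := by
        rw [Finset.card_le_one]
        intro a ha b hb
        rw [mem_filter] at ha hb
        have h6 : (a - b) * x = 0 := by linear_combination ha.2 - hb.2
        rcases mul_eq_zero.1 h6 with h7 | h7
        · exact sub_eq_zero.1 h7
        · exfalso
          apply hn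
          have := ha.2
          rw [h7, mul_zero, zero_add] at this
          exact this
      exact_mod_cast h5
    have h5 := (hval (x * x + n)).1
    have h6 : ((A.card - 1 : ℕ) : ℤ) = (A.card : ℤ) - 1 := by
      rw [Nat.cast_sub (by omega)]; norm_num
    rw [h6] at h3
    linarith
  -- second moment
  have h2 : ∑ x, T x ^ 2 ≤ (A.card : ℤ) * p + (A.card : ℤ) ^ 2 := by
    have h3 : ∑ x, T x ^ 2 = ∑ a ∈ A, ∑ b ∈ A, ∑ x, χ ((a * x + n) * (b * x + n)) := by
      have h4 : ∀ x, T x ^ 2 = ∑ a ∈ A, ∑ b ∈ A, χ ((a * x + n) * (b * x + n)) := by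
        intro x
        simp only [hT]
        rw [sq, Finset.sum_mul_sum]
        refine Finset.sum_congr rfl fun a _ => Finset.sum_congr rfl fun b _ => ?_
        rw [map_mul]
      rw [Finset.sum_congr rfl (fun x _ => h4 x), Finset.sum_comm]
      refine Finset.sum_congr rfl fun a _ => ?_
      rw [Finset.sum_comm]
    rw [h3]
    have h4 : ∀ a ∈ A, ∀ b ∈ A, ∑ x, χ ((a * x + n) * (b * x + n)) ≤
        (if a = b then (p : ℤ) else 0) + 1 := by
      intro a _ b _
      split_ifs with h
      · calc ∑ x, χ ((a * x + n) * (b * x + n)) ≤ ∑ x : ZMod p, 1 :=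
              Finset.sum_le_sum fun x _ => (hval _).2
          _ = p := by simp [ZMod.card]
          _ ≤ _ := by linarith
      · have := char_corr p hp2 n a b hn h
        rw [← hχ] at this
        rw [zero_add]
        exact (abs_le.1 this).2
    calc ∑ a ∈ A, ∑ b ∈ A, ∑ x, χ ((a * x + n) * (b * x + n)) ≤
        ∑ a ∈ A, ∑ b ∈ A, ((if a = b then (p : ℤ) else 0) + 1) :=
          Finset.sum_le_sum fun a ha => Finset.sum_le_sum fun b hb => h4 a ha b hb
      _ = ∑ a ∈ A, ((p : ℤ) + A.card) := by
          refine Finset.sum_congr rfl fun a ha => ?_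
          rw [Finset.sum_add_distrib, Finset.sum_ite_eq, if_pos ha, Finset.sum_const, nsmul_eq_mul,
            mul_one]
      _ = _ := by rw [Finset.sum_const, nsmul_eq_mul]; ring
  have h3 : (A.card : ℤ) * ((A.card : ℤ) - 3) ^ 2 ≤ ∑ x, T x ^ 2 := by
    calc (A.card : ℤ) * ((A.card : ℤ) - 3) ^ 2 = ∑ x ∈ A, ((A.card : ℤ) - 3) ^ 2 := by
          rw [Finset.sum_const, nsmul_eq_mul]
      _ ≤ ∑ x ∈ A, T x ^ 2 := by
          refine Finset.sum_le_sum fun x hx => ?_
          have h4 := h1 x hx
          have h5 : (0 : ℤ) ≤ (A.card : ℤ) - 3 := by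
            have : (3 : ℤ) < A.card := by exact_mod_cast hc
            linarith
          exact pow_le_pow_left₀ h5 h4 2
      _ ≤ ∑ x, T x ^ 2 :=
          Finset.sum_le_sum_of_subset_of_nonneg (Finset.subset_univ _) fun x _ _ => sq_nonneg _
  have h4 : (A.card : ℤ) * ((A.card : ℤ) - 3) ^ 2 ≤ (A.card : ℤ) * (p + A.card) := by
    calc _ ≤ _ := h3.trans h2
      _ = _ := by ring
  have hpos : (0 : ℤ) < A.card := by exact_mod_cast (by omega : 0 < A.card)
  have h5 : ((A.card : ℤ) - 3) ^ 2 ≤ p + A.card := le_of_mul_le_mul_left h4 hpos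
  have h6 : ((A.card : ℝ) - 3) ^ 2 ≤ p + A.card := by exact_mod_cast h5
  by_contra hcon
  push Not at hcon
  nlinarith

end Pool.Agent.Helper13.Dn
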