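import Mathlib
import Pool.Agent.Helper13.Dn.Paley
import Pool.Agent.Helper13.Dn.Window

set_option autoImplicit false

namespace Pool.Agent.Helper13.Dn

open Finset

open Classical in
/-- Pairs in the same residue class, by the Cauchy-Schwarz inequality. -/
theorem pair_count (p : ℕ) (S : Finset ℤ) (V : ℝ) (hV : 0 < V)
    (hcard : ((S.image (fun a : ℤ => (a : ZMod p))).card : ℝ) ≤ V) :
    (S.card : ℝ) ^ 2 / V ≤
      ∑ a ∈ S, ∑ b ∈ S, (if (a : ZMod p) = (b : ZMod p) then (1 : ℝ) else 0) := by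
  have h1 : ∑ a ∈ S, ∑ b ∈ S, (if (a : ZMod p) = (b : ZMod p) then (1 : ℝ) else 0) =
      ∑ r ∈ S.image (fun a : ℤ => (a : ZMod p)),
        ((S.filter (fun a : ℤ => (a : ZMod p) = r)).card : ℝ) ^ 2 := by
    have h2 := Finset.sum_comp (s := S)
      (fun r : ZMod p => ((S.filter (fun a : ℤ => (a : ZMod p) = r)).card : ℝ))
      (fun a : ℤ => (a : ZMod p))
    have h3 : ∀ a ∈ S, ∑ b ∈ S, (if (a : ZMod p) = (b : ZMod p) then (1 : ℝ) else 0) =
        ((S.filter (fun b : ℤ => (b : ZMod p) = (a : ZMod p))).card : ℝ) := by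
      intro a _
      rw [Finset.card_filter]
      push_cast
      refine Finset.sum_congr rfl fun b _ => ?_
      by_cases h : (a : ZMod p) = b
      · rw [if_pos h, if_pos h.symm]
      · rw [if_neg h, if_neg (fun h' => h h'.symm)]
    rw [Finset.sum_congr rfl h3, h2]
    refine Finset.sum_congr rfl fun r _ => ?_
    rw [nsmul_eq_mul, sq]
  rw [h1]
  have h4 : (S.card : ℝ) = ∑ r ∈ S.image (fun a : ℤ => (a : ZMod p)),
        ((S.filter (fun a : ℤ => (a : ZMod p) = r)).card : ℝ) := by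
    have := Finset.card_eq_sum_card_image (fun a : ℤ => (a : ZMod p)) S
    exact_mod_cast this
  have h5 := sq_sum_le_card_mul_sum_sq (s := S.image (fun a : ℤ => (a : ZMod p)))
    (f := fun r => ((S.filter (fun a : ℤ => (a : ZMod p) = r)).card : ℝ))
  rw [← h4] at h5
  rw [div_le_iff₀ hV]
  refine h5.trans ?_
  rw [mul_comm]
  exact mul_le_mul_of_nonneg_left hcard (Finset.sum_nonneg fun r _ => sq_nonneg _)

/-- The sum of `log p` over distinct primes dividing a nonzero integer. -/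
theorem sum_log_le (P : Finset ℕ) (hP : ∀ p ∈ P, p.Prime) (d : ℤ) (hd : d ≠ 0)
    (hdvd : ∀ p ∈ P, (p : ℤ) ∣ d) : ∑ p ∈ P, Real.log p ≤ Real.log |(d : ℝ)| := by
  have h1 : ∏ p ∈ P, p ∣ d.natAbs := by
    apply Finset.prod_primes_dvd
    · intro p hp; exact (hP p hp).prime
    · intro p hp; exact Int.natCast_dvd.1 (hdvd p hp)
  have h2 : ∏ p ∈ P, p ≤ d.natAbs := Nat.le_of_dvd (Int.natAbs_pos.2 hd) h1
  have h3 : ∑ p ∈ P, Real.log p = Real.log ((∏ p ∈ P, p : ℕ) : ℝ) := by
    rw [Nat.cast_prod, Real.log_prod]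
    intro p hp
    exact_mod_cast (hP p hp).ne_zero
  rw [h3, abs_log]
  apply Real.log_le_log
  · exact_mod_cast Finset.prod_pos fun p hp => (hP p hp).pos
  · exact_mod_cast h2

open Classical in
/-- Gallagher's larger sieve with a uniform bound for the number of residue classes. -/
theorem larger_sieve (S : Finset ℤ) (X : ℝ) (hX : 1 ≤ X) (hS : ∀ a ∈ S, |(a : ℝ)| ≤ X)
    (P : Finset ℕ) (hP : ∀ p ∈ P, p.Prime) (V : ℝ) (hV : 0 < V)
    (hcard : ∀ p ∈ P, ((S.image (fun a : ℤ => (a : ZMod p))).card : ℝ) ≤ V) :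
    ((S.card : ℝ) / V - 1) * ∑ p ∈ P, Real.log p ≤ (S.card : ℝ) * Real.log (2 * X) := by
  rcases Nat.eq_zero_or_pos S.card with h0 | h0
  · rw [h0]
    have : 0 ≤ ∑ p ∈ P, Real.log (p : ℝ) :=
      Finset.sum_nonneg fun p _ => Real.log_natCast_nonneg p
    simp; exact this
  have hM : (0 : ℝ) < S.card := by exact_mod_cast h0
  set Θ := ∑ p ∈ P, Real.log (p : ℝ) with hΘ
  have hlX : 0 ≤ Real.log (2 * X) := Real.log_nonneg (by linarith)
  -- lower bound
  have low : (S.card : ℝ) ^ 2 / V * Θ ≤ ∑ p ∈ P, Real.log p *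
      ∑ a ∈ S, ∑ b ∈ S, (if (a : ZMod p) = (b : ZMod p) then (1 : ℝ) else 0) := by
    rw [hΘ, Finset.mul_sum]
    refine Finset.sum_le_sum fun p hp => ?_
    rw [mul_comm]
    exact mul_le_mul_of_nonneg_left (pair_count p S V hV (hcard p hp))
      (Real.log_natCast_nonneg p)
  -- upper bound
  have hswap : ∑ p ∈ P, Real.log p *
      ∑ a ∈ S, ∑ b ∈ S, (if (a : ZMod p) = (b : ZMod p) then (1 : ℝ) else 0) =
      ∑ a ∈ S, ∑ b ∈ S, ∑ p ∈ P, (if (a : ZMod p) = (b : ZMod p) then Real.log p else 0) := by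
    calc _ = ∑ p ∈ P, ∑ a ∈ S, ∑ b ∈ S,
          (if (a : ZMod p) = (b : ZMod p) then Real.log p else 0) := by
          refine Finset.sum_congr rfl fun p _ => ?_
          rw [Finset.mul_sum]
          refine Finset.sum_congr rfl fun a _ => ?_
          rw [Finset.mul_sum]
          refine Finset.sum_congr rfl fun b _ => ?_
          split_ifs <;> simp
      _ = ∑ a ∈ S, ∑ p ∈ P, ∑ b ∈ S,
          (if (a : ZMod p) = (b : ZMod p) then Real.log p else 0) := Finset.sum_comm
      _ = _ := Finset.sum_congr rfl fun a _ => Finset.sum_comm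
  have hup : ∀ a ∈ S, ∀ b ∈ S,
      ∑ p ∈ P, (if (a : ZMod p) = (b : ZMod p) then Real.log (p : ℝ) else 0) ≤
      (if a = b then Θ else 0) + Real.log (2 * X) := by
    intro a ha b hb
    by_cases hab : a = b
    · subst hab
      simp only [if_true]
      linarith
    · rw [if_neg hab, zero_add, ← Finset.sum_filter]
      have hd : a - b ≠ 0 := sub_ne_zero.2 hab
      refine (sum_log_le (P.filter (fun p : ℕ => (a : ZMod p) = (b : ZMod p)))
        (fun p hp => hP p (Finset.mem_filter.1 hp).1) (a - b) hd ?_).trans ?_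
      · intro p hp
        have := (Finset.mem_filter.1 hp).2
        rw [← ZMod.intCast_zmod_eq_zero_iff_dvd]
        push_cast
        rw [this, sub_self]
      · apply Real.log_le_log
        · exact abs_pos.2 (by exact_mod_cast hd)
        · push_cast
          have h1 := abs_sub (a : ℝ) (b : ℝ)
          have h2 := hS a ha
          have h3 := hS b hb
          linarith
  have up : ∑ a ∈ S, ∑ b ∈ S,
      ∑ p ∈ P, (if (a : ZMod p) = (b : ZMod p) then Real.log (p : ℝ) else 0) ≤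
      (S.card : ℝ) * Θ + (S.card : ℝ) ^ 2 * Real.log (2 * X) := by
    calc _ ≤ ∑ a ∈ S, ∑ b ∈ S, ((if a = b then Θ else 0) + Real.log (2 * X)) :=
          Finset.sum_le_sum fun a ha => Finset.sum_le_sum fun b hb => hup a ha b hb
      _ = ∑ a ∈ S, (Θ + S.card * Real.log (2 * X)) := by
          refine Finset.sum_congr rfl fun a ha => ?_
          rw [Finset.sum_add_distrib, Finset.sum_ite_eq, if_pos ha, Finset.sum_const,
            nsmul_eq_mul]
      _ = _ := by rw [Finset.sum_const, nsmul_eq_mul]; ring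
  rw [hswap] at low
  have h1 := low.trans up
  have h2 : (S.card : ℝ) * (((S.card : ℝ) / V - 1) * Θ) ≤
      (S.card : ℝ) * ((S.card : ℝ) * Real.log (2 * X)) := by
    have h3 : (S.card : ℝ) * (((S.card : ℝ) / V - 1) * Θ) =
        (S.card : ℝ) ^ 2 / V * Θ - (S.card : ℝ) * Θ := by ring
    rw [h3]
    have h4 : (S.card : ℝ) * ((S.card : ℝ) * Real.log (2 * X)) =
        (S.card : ℝ) ^ 2 * Real.log (2 * X) := by ring
    rw [h4]
    linarith
  exact le_of_mul_le_mul_left h2 hM

end Pool.Agent.Helper13.Dn
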