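import Mathlib
import Pool.Agent.Helper13.Dn.Sieve

set_option autoImplicit false

namespace Pool.Agent.Helper13.Dn

open Finset

/-- Chebyshev's lower bound in the form we need. -/
theorem theta_lower (Q : ℕ) (hQ : 10 ^ 8 ≤ Q) :
    (Q : ℝ) / 2 ≤ ∑ p ∈ Q.primesLE, Real.log p := by
  rw [← Chebyshev.theta_eq_sum_primesLE_log]
  have h1 := Chebyshev.theta_ge Q
  have hQR : (10 : ℝ) ^ 8 ≤ Q := by exact_mod_cast hQ
  have hQ0 : (0 : ℝ) < Q := by linarith
  set t : ℝ := (Q : ℝ) ^ (1 / 4 : ℝ) with ht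
  have ht4 : t ^ 4 = Q := by
    rw [ht, ← Real.rpow_natCast, ← Real.rpow_mul hQ0.le]
    norm_num
  have ht0 : 0 < t := Real.rpow_pos_of_pos hQ0 _
  have ht100 : 100 ≤ t := by
    by_contra hcon
    push Not at hcon
    have : t ^ 4 < 100 ^ 4 := pow_lt_pow_left₀ hcon ht0.le (by norm_num)
    rw [ht4] at this
    norm_num at this hQR
    linarith
  have hsq : Real.sqrt Q = t ^ 2 := by
    rw [← ht4, show t ^ 4 = (t ^ 2) ^ 2 by ring, Real.sqrt_sq (by positivity)]
  have hlog : Real.log Q ≤ 4 * t := by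
    have := Real.log_le_rpow_div hQ0.le (show (0 : ℝ) < 1 / 4 by norm_num)
    rw [← ht] at this
    linarith
  have hlog0 : 0 ≤ Real.log Q := Real.log_nonneg (by linarith)
  have hlog1 : Real.log (Q + 1) ≤ 1 + 4 * t := by
    have h2 : Real.log ((Q : ℝ) + 1) ≤ Real.log (2 * Q) :=
      Real.log_le_log (by linarith) (by linarith)
    rw [Real.log_mul (by norm_num) hQ0.ne'] at h2
    have := Real.log_two_lt_d9
    linarith
  have hl2 := Real.log_two_gt_d9
  rw [hsq] at h1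
  have h3 : 2 * t ^ 2 * Real.log Q ≤ 2 * t ^ 2 * (4 * t) :=
    mul_le_mul_of_nonneg_left hlog (by positivity)
  have h4 : (0.69 : ℝ) * Q ≤ Q * Real.log 2 := by
    rw [mul_comm]
    exact mul_le_mul_of_nonneg_left (by linarith) hQ0.le
  have h5 : 19 * t ^ 3 ≤ 0.19 * t ^ 4 := by
    have : t ^ 4 = t ^ 3 * t := by ring
    rw [this]
    nlinarith [pow_pos ht0 3]
  have h6 : 4 * t + 1 ≤ 8 * t ^ 3 := by
    have h7 : t ^ 3 = t * (t * t) := by ring
    rw [h7]
    have h8 : 10000 ≤ t * t := by nlinarith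
    nlinarith
  rw [ht4] at h5
  have h9 : 2 * t ^ 2 * (4 * t) = 8 * t ^ 3 := by ring
  rw [h9] at h3
  have h10 : 0 < t ^ 3 := by positivity
  linarith

/-- A `D(n)`-tuple of nonzero integers has at most `50000 (1 + log |n|)` elements. -/
theorem log_bound (n : ℤ) (hn : n ≠ 0) (S : Finset ℤ) (h0 : ∀ a ∈ S, a ≠ 0)
    (hsq : ∀ a ∈ S, ∀ b ∈ S, a ≠ b → IsSquare (a * b + n)) :
    (S.card : ℝ) ≤ 50000 * (1 + Real.log |(n : ℝ)|) := by
  classical
  have hn1 : (1 : ℝ) ≤ |(n : ℝ)| := by exact_mod_cast Int.one_le_abs hn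
  have hln : 0 ≤ Real.log |(n : ℝ)| := Real.log_nonneg hn1
  have hhuge := huge_count n hn S h0 hsq
  set S' := S.filter (fun a : ℤ => ¬ 2 * |n| ≤ |a|) with hS'
  have hcard : (S.card : ℝ) = ((S.filter (fun a : ℤ => 2 * |n| ≤ |a|)).card : ℝ) + S'.card := by
    have := Finset.card_filter_add_card_filter_not (s := S) (fun a : ℤ => 2 * |n| ≤ |a|)
    exact_mod_cast this.symm
  set L := Real.log (2 * (2 * |(n : ℝ)|)) with hL
  have hLeq : L = Real.log 4 + Real.log |(n : ℝ)| := by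
    rw [hL, ← mul_assoc, Real.log_mul (by norm_num) (by linarith)]
    norm_num
  have hl4 : 1 < Real.log 4 ∧ Real.log 4 < 2 := by
    have h1 : Real.log 4 = 2 * Real.log 2 := by
      rw [show (4 : ℝ) = 2 ^ 2 by norm_num, Real.log_pow]; norm_num
    have := Real.log_two_gt_d9
    have := Real.log_two_lt_d9
    constructor <;> linarith
  have hL1 : 1 < L := by rw [hLeq]; linarith
  obtain ⟨Q, hQ8, hQ8R, hQlow, hQup⟩ : ∃ Q : ℕ, 10 ^ 8 ≤ Q ∧ (10 : ℝ) ^ 8 ≤ Q ∧
      (11 * L) ^ 2 ≤ (Q : ℝ) ∧ (Q : ℝ) ≤ (11 * L + 10001) ^ 2 := by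
    refine ⟨⌈(11 * L) ^ 2⌉₊ + 10 ^ 8, Nat.le_add_left _ _, ?_, ?_, ?_⟩
    · push_cast
      have : (0 : ℝ) ≤ (⌈(11 * L) ^ 2⌉₊ : ℝ) := Nat.cast_nonneg _
      linarith
    · push_cast
      have := Nat.le_ceil ((11 * L) ^ 2)
      linarith
    · push_cast
      have := Nat.ceil_lt_add_one (show 0 ≤ (11 * L) ^ 2 by positivity)
      nlinarith
  have hQ0 : (0 : ℝ) < Q := by linarith
  set s := Real.sqrt Q with hs
  have hss : s * s = Q := Real.mul_self_sqrt hQ0.le
  have hslow : 11 * L ≤ s := Real.le_sqrt_of_sq_le hQlow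
  have hsup : s ≤ 11 * L + 10001 := by
    rw [hs]
    exact Real.sqrt_le_iff.2 ⟨by linarith, hQup⟩
  have hs10 : (10000 : ℝ) ≤ s := by
    apply Real.le_sqrt_of_sq_le
    norm_num at hQ8R ⊢
    exact hQ8R
  -- the primes
  set P := Q.primesLE.filter (fun p : ℕ => p ≠ 2 ∧ ¬ (p : ℤ) ∣ n) with hP
  have hPp : ∀ p ∈ P, p.Prime := fun p hp =>
    (Nat.mem_primesLE.1 (Finset.mem_filter.1 hp).1).2
  have hΘ : (Q : ℝ) / 2 - L ≤ ∑ p ∈ P, Real.log p := by
    have h1 := theta_lower Q hQ8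
    have h2 : ∑ p ∈ Q.primesLE, Real.log p = ∑ p ∈ P, Real.log p +
        ∑ p ∈ Q.primesLE.filter (fun p : ℕ => ¬ (p ≠ 2 ∧ ¬ (p : ℤ) ∣ n)), Real.log p :=
      (Finset.sum_filter_add_sum_filter_not _ _ _).symm
    have h3 : ∑ p ∈ Q.primesLE.filter (fun p : ℕ => ¬ (p ≠ 2 ∧ ¬ (p : ℤ) ∣ n)), Real.log (p : ℝ) ≤
        Real.log |((2 * n : ℤ) : ℝ)| := by
      apply sum_log_le _ _ (2 * n) (mul_ne_zero two_ne_zero hn)
      · intro p hp
        have h4 := (Finset.mem_filter.1 hp).2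
        by_cases h5 : p = 2
        · subst h5; exact Dvd.intro _ rfl
        · have : (p : ℤ) ∣ n := by
            by_contra h6
            exact h4 ⟨h5, h6⟩
          exact Dvd.dvd.mul_left this 2
      · intro p hp
        exact (Nat.mem_primesLE.1 (Finset.mem_filter.1 hp).1).2
    have h4 : Real.log |((2 * n : ℤ) : ℝ)| ≤ L := by
      apply Real.log_le_log
      · exact abs_pos.2 (by exact_mod_cast mul_ne_zero two_ne_zero hn)
      · push_cast
        rw [abs_mul, abs_two]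
        linarith
    linarith
  have himg : ∀ p ∈ P, ((S'.image (fun a : ℤ => (a : ZMod p))).card : ℝ) ≤ 2 * s := by
    intro p hp
    have hpp := hPp p hp
    have : Fact p.Prime := ⟨hpp⟩
    have h2 := (Finset.mem_filter.1 hp).2
    have h3 := paley p h2.1 (n : ZMod p)
      (fun h => h2.2 ((ZMod.intCast_zmod_eq_zero_iff_dvd n p).1 h))
      (S'.image (fun a : ℤ => (a : ZMod p))) (by
        intro x hx y hy hxy
        rw [Finset.mem_image] at hx hy
        obtain ⟨a, ha, rfl⟩ := hx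
        obtain ⟨b, hb, rfl⟩ := hy
        have hab : a ≠ b := fun h => hxy (by rw [h])
        obtain ⟨r, hr⟩ := hsq a (Finset.mem_filter.1 ha).1 b (Finset.mem_filter.1 hb).1 hab
        refine ⟨(r : ZMod p), ?_⟩
        have := congrArg (fun z : ℤ => (z : ZMod p)) hr
        push_cast at this
        exact this)
    have h4 : Real.sqrt p ≤ s := by
      apply Real.sqrt_le_sqrt
      exact_mod_cast (Nat.mem_primesLE.1 (Finset.mem_filter.1 hp).1).1
    linarith
  have hbd : ∀ a ∈ S', |(a : ℝ)| ≤ 2 * |(n : ℝ)| := by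
    intro a ha
    have h1 := (Finset.mem_filter.1 ha).2
    push Not at h1
    exact_mod_cast h1.le
  have hsieve := larger_sieve S' (2 * |(n : ℝ)|) (by linarith) hbd P hPp (2 * s) (by linarith) himg
  rw [← hL] at hsieve
  have hM : (S'.card : ℝ) ≤ 4 * s := by
    by_contra hcon
    push Not at hcon
    have hMpos : (0 : ℝ) < S'.card := by linarith
    have h1 : (S'.card : ℝ) / (4 * s) ≤ (S'.card : ℝ) / (2 * s) - 1 := by
      have h2 : (S'.card : ℝ) / (2 * s) = 2 * ((S'.card : ℝ) / (4 * s)) := by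
        field_simp; ring
      have h3 : 1 ≤ (S'.card : ℝ) / (4 * s) := by
        rw [le_div_iff₀ (by linarith)]; linarith
      linarith
    have hΘ0 : 0 ≤ ∑ p ∈ P, Real.log (p : ℝ) :=
      Finset.sum_nonneg fun p _ => Real.log_natCast_nonneg p
    have h4 : (S'.card : ℝ) / (4 * s) * ∑ p ∈ P, Real.log (p : ℝ) ≤ (S'.card : ℝ) * L :=
      (mul_le_mul_of_nonneg_right h1 hΘ0).trans hsieve
    have h5 : (S'.card : ℝ) * (∑ p ∈ P, Real.log (p : ℝ)) ≤ (S'.card : ℝ) * (4 * s * L) := by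
      have h6 : (S'.card : ℝ) / (4 * s) * ∑ p ∈ P, Real.log (p : ℝ) =
          (S'.card : ℝ) * (∑ p ∈ P, Real.log (p : ℝ)) / (4 * s) := by ring
      rw [h6, div_le_iff₀ (by linarith)] at h4
      linarith
    have h6 := le_of_mul_le_mul_left h5 hMpos
    have h7 : s * s / 2 - L ≤ 4 * s * L := by rw [hss]; linarith
    nlinarith
  rw [hcard]
  rw [hLeq] at hsup
  linarith [hl4.1, hl4.2]

end Pool.Agent.Helper13.Dn
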