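import Mathlib
import Pool.Agent.Helper13.Dn.Density

set_option autoImplicit false

namespace Pool.Agent.Helper13.Dn

open Finset

/-- Sum over the multiples of `q ^ k`. -/
theorem sum_multiples (g : ℕ → ℝ) (Q N : ℕ) (hQ : 1 ≤ Q) (hg : ∀ m, 1 ≤ m → g (Q * m) = g m) :
    ∑ n ∈ (Finset.Icc 1 N).filter (fun n => Q ∣ n), g n = ∑ m ∈ Finset.Icc 1 (N / Q), g m := by
  symm
  refine Finset.sum_bij (fun m _ => Q * m) ?_ ?_ ?_ ?_
  · intro m hm
    rw [Finset.mem_Icc] at hm
    rw [Finset.mem_filter, Finset.mem_Icc]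
    refine ⟨⟨?_, ?_⟩, dvd_mul_right _ _⟩
    · exact Nat.one_le_iff_ne_zero.2 (Nat.mul_ne_zero (by omega) (by omega))
    · calc Q * m ≤ Q * (N / Q) := Nat.mul_le_mul_left _ hm.2
        _ ≤ N := Nat.mul_div_le N Q
  · intro a _ b _ hab
    exact Nat.eq_of_mul_eq_mul_left (by omega) hab
  · intro n hn
    rw [Finset.mem_filter, Finset.mem_Icc] at hn
    obtain ⟨⟨h1, h2⟩, m, rfl⟩ := hn
    refine ⟨m, ?_, rfl⟩
    rw [Finset.mem_Icc]
    refine ⟨Nat.one_le_iff_ne_zero.2 (fun h => by subst h; omega), ?_⟩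
    rw [Nat.le_div_iff_mul_le (by omega)]
    rw [mul_comm]; exact h2
  · intro m hm
    rw [Finset.mem_Icc] at hm
    exact (hg m hm.1).symm

/-- Telescoping for one prime. -/
theorem pow_telescope (x : ℝ) (v K : ℕ) (hv : v ≤ K) :
    x ^ v = 1 + ∑ k ∈ Finset.Icc 1 K, if k ≤ v then x ^ k - x ^ (k - 1) else 0 := by
  have h1 : ∑ k ∈ Finset.Icc 1 K, (if k ≤ v then x ^ k - x ^ (k - 1) else 0) =
      ∑ k ∈ Finset.Icc 1 v, (x ^ k - x ^ (k - 1)) := by
    rw [← Finset.sum_filter]
    congr 1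
    ext k
    simp only [Finset.mem_filter, Finset.mem_Icc]
    omega
  rw [h1]
  clear h1 hv
  induction v with
  | zero => simp
  | succ v ih =>
    rw [Finset.sum_Icc_succ_top (by omega), Nat.add_sub_cancel]
    linarith

theorem geom_bound (x q : ℝ) (hx : 1 ≤ x) (hq : x < q) (K : ℕ) :
    ∑ k ∈ Finset.Icc 1 K, (x ^ k - x ^ (k - 1)) / q ^ k ≤ (x - 1) / (q - x) := by
  have hq0 : 0 < q := by linarith
  have hqx : 0 < q - x := by linarith
  have key : ∀ K : ℕ, ∑ k ∈ Finset.Icc 1 K, (x ^ k - x ^ (k - 1)) / q ^ k =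
      (x - 1) / (q - x) * (1 - (x / q) ^ K) := by
    intro K
    induction K with
    | zero => simp
    | succ K ih =>
      rw [Finset.sum_Icc_succ_top (by omega), Nat.add_sub_cancel, ih]
      have h1 : q ≠ 0 := hq0.ne'
      have h2 : q - x ≠ 0 := hqx.ne'
      rw [div_pow, div_pow, pow_succ, pow_succ]
      field_simp
      ring
  rw [key]
  have h1 : 0 ≤ (x - 1) / (q - x) := div_nonneg (by linarith) hqx.le
  have h2 : 0 ≤ (x / q) ^ K := by positivity
  nlinarith

/-- Mean value of a multiplicative function supported on a finite set of primes. -/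
theorem mean_mul (x : ℕ → ℝ) (P : Finset ℕ) (hP : ∀ p ∈ P, p.Prime) (hx1 : ∀ p ∈ P, 1 ≤ x p)
    (hxp : ∀ p ∈ P, x p < p) : ∀ N : ℕ,
    ∑ n ∈ Finset.Icc 1 N, ∏ p ∈ P, x p ^ n.factorization p ≤
      (∏ p ∈ P, (1 + (x p - 1) / (p - x p))) * N := by
  classical
  induction P using Finset.induction_on with
  | empty => intro N; simp
  | insert q P hqP ih =>
    intro N
    have hq : q.Prime := hP q (Finset.mem_insert_self _ _)
    have ih' := ih (fun p hp => hP p (Finset.mem_insert_of_mem hp))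
      (fun p hp => hx1 p (Finset.mem_insert_of_mem hp))
      (fun p hp => hxp p (Finset.mem_insert_of_mem hp))
    have hxq1 := hx1 q (Finset.mem_insert_self _ _)
    have hxq := hxp q (Finset.mem_insert_self _ _)
    set f : ℕ → ℝ := fun n => ∏ p ∈ P, x p ^ n.factorization p with hf
    set CP : ℝ := ∏ p ∈ P, (1 + (x p - 1) / (p - x p)) with hCP
    have hf0 : ∀ n, 0 ≤ f n := fun n => Finset.prod_nonneg (fun p hp => by
      have := hx1 p (Finset.mem_insert_of_mem hp)
      positivity)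
    have hCP0 : 0 ≤ CP := Finset.prod_nonneg (fun p hp => by
      have h1 := hx1 p (Finset.mem_insert_of_mem hp)
      have h2 := hxp p (Finset.mem_insert_of_mem hp)
      have h3 : 0 ≤ (x p - 1) / (p - x p) := div_nonneg (by linarith) (by linarith)
      linarith)
    have hfq : ∀ k m : ℕ, 1 ≤ m → f (q ^ k * m) = f m := by
      intro k m hm
      simp only [hf]
      refine Finset.prod_congr rfl (fun p hp => ?_)
      have hpp := hP p (Finset.mem_insert_of_mem hp)
      have hne : p ≠ q := fun h => hqP (h ▸ hp)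
      rw [Nat.factorization_mul (pow_ne_zero _ hq.ne_zero) (by omega)]
      rw [Finsupp.add_apply, Nat.factorization_pow, Finsupp.smul_apply, smul_eq_mul,
        hq.factorization, Finsupp.single_apply, if_neg (Ne.symm hne)]
      simp
    have hstep : ∀ n ∈ Finset.Icc 1 N, ∏ p ∈ insert q P, x p ^ n.factorization p =
        f n + ∑ k ∈ Finset.Icc 1 N, (x q ^ k - x q ^ (k - 1)) *
          (if q ^ k ∣ n then f n else 0) := by
      intro n hn
      rw [Finset.mem_Icc] at hn
      rw [Finset.prod_insert hqP]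
      have hv : n.factorization q ≤ N := by
        have := Nat.factorization_lt (p := q) (n := n) (by omega)
        omega
      rw [pow_telescope (x q) _ N hv]
      rw [add_mul, one_mul, Finset.sum_mul]
      congr 1
      refine Finset.sum_congr rfl (fun k _ => ?_)
      have hiff : k ≤ n.factorization q ↔ q ^ k ∣ n :=
        (hq.pow_dvd_iff_le_factorization (by omega)).symm
      by_cases hk : k ≤ n.factorization q
      · rw [if_pos hk, if_pos (hiff.1 hk)]
      · rw [if_neg hk, if_neg (fun h => hk (hiff.2 h))]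
        ring
    rw [Finset.sum_congr rfl hstep, Finset.sum_add_distrib, Finset.sum_comm]
    have hk : ∀ k ∈ Finset.Icc 1 N, ∑ n ∈ Finset.Icc 1 N, (x q ^ k - x q ^ (k - 1)) *
          (if q ^ k ∣ n then f n else 0) ≤
        (CP * N) * ((x q ^ k - x q ^ (k - 1)) / (q : ℝ) ^ k) := by
      intro k hk
      rw [Finset.mem_Icc] at hk
      rw [← Finset.mul_sum, ← Finset.sum_filter,
        sum_multiples f (q ^ k) N (Nat.one_le_pow _ _ hq.pos) (hfq k)]
      have h1 : ∑ m ∈ Finset.Icc 1 (N / q ^ k), f m ≤ CP * (N / (q : ℝ) ^ k) := by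
        refine (ih' (N / q ^ k)).trans ?_
        refine mul_le_mul_of_nonneg_left ?_ hCP0
        refine Nat.cast_div_le.trans (le_of_eq ?_)
        push_cast
        rfl
      have h2 : 0 ≤ x q ^ k - x q ^ (k - 1) := by
        have : x q ^ (k - 1) ≤ x q ^ k := pow_le_pow_right₀ hxq1 (by omega)
        linarith
      calc _ ≤ (x q ^ k - x q ^ (k - 1)) * (CP * (N / (q : ℝ) ^ k)) :=
            mul_le_mul_of_nonneg_left h1 h2
        _ = _ := by ring
    have hsum := Finset.sum_le_sum hk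
    rw [← Finset.mul_sum] at hsum
    have hgeo := geom_bound (x q) q hxq1 hxq N
    have hCN : 0 ≤ CP * N := mul_nonneg hCP0 (Nat.cast_nonneg N)
    rw [Finset.prod_insert hqP]
    calc _ ≤ CP * N + (CP * N) * ((x q - 1) / (q - x q)) :=
          add_le_add (ih' N) (hsum.trans (mul_le_mul_of_nonneg_left hgeo hCN))
      _ = _ := by ring

/-- The mean value of `(n_y)^δ`, `n_y` the `y`-smooth part of `n`. -/
theorem mean_bound (N y : ℕ) (hy : 1 ≤ y) (δ E : ℝ) (hδ0 : 0 ≤ δ) (hδ : δ ≤ 1 / 2)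
    (hE : (y : ℝ) ^ δ ≤ E) :
    ∑ n ∈ Finset.Icc 1 N, ∏ p ∈ y.primesLE, ((p : ℝ) ^ δ) ^ n.factorization p ≤
      Real.exp (4 * δ * E * (Real.log y + Real.log 4)) * N := by
  have hE0 : 0 < E := lt_of_lt_of_le (Real.rpow_pos_of_pos (by exact_mod_cast hy) _) hE
  have hx : ∀ p ∈ y.primesLE, 1 ≤ (p : ℝ) ^ δ ∧ (p : ℝ) ^ δ ≤ 3 / 4 * p ∧ (p : ℝ) ^ δ ≤ E ∧
      (p : ℝ) ^ δ - 1 ≤ (p : ℝ) ^ δ * (δ * Real.log p) := by
    intro p hp
    rw [Nat.mem_primesLE] at hp
    have hp2 : (2 : ℝ) ≤ p := by exact_mod_cast hp.2.two_le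
    refine ⟨Real.one_le_rpow (by linarith) hδ0, ?_, ?_, ?_⟩
    · have h1 : (p : ℝ) ^ δ ≤ (p : ℝ) ^ (1 / 2 : ℝ) :=
        Real.rpow_le_rpow_of_exponent_le (by linarith) hδ
      rw [← Real.sqrt_eq_rpow] at h1
      have h2 : Real.sqrt p * Real.sqrt p = p := Real.mul_self_sqrt (by linarith)
      have h3 : 4 / 3 ≤ Real.sqrt p := by
        apply Real.le_sqrt_of_sq_le
        norm_num
        linarith
      nlinarith
    · refine le_trans ?_ hE
      exact Real.rpow_le_rpow (by linarith) (by exact_mod_cast hp.1) hδ0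
    · have h1 : (p : ℝ) ^ δ = Real.exp (δ * Real.log p) := by
        rw [Real.rpow_def_of_pos (by linarith), mul_comm]
      rw [h1]
      have h2 := Real.add_one_le_exp (-(δ * Real.log p))
      have h3 : Real.exp (δ * Real.log p) * Real.exp (-(δ * Real.log p)) = 1 := by
        rw [← Real.exp_add]; simp
      have h4 := Real.exp_pos (δ * Real.log p)
      nlinarith
  have h1 := mean_mul (fun p : ℕ => (p : ℝ) ^ δ) y.primesLE
    (fun p hp => (Nat.mem_primesLE.1 hp).2) (fun p hp => (hx p hp).1)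
    (fun p hp => by
      have h2 := (hx p hp).2.1
      have h3 : (2 : ℝ) ≤ p := by exact_mod_cast (Nat.mem_primesLE.1 hp).2.two_le
      show (p : ℝ) ^ δ < p
      linarith) N
  refine h1.trans (mul_le_mul_of_nonneg_right ?_ (Nat.cast_nonneg N))
  have h2 : ∀ p ∈ y.primesLE, 1 + ((p : ℝ) ^ δ - 1) / (p - (p : ℝ) ^ δ) ≤
      Real.exp (4 * δ * E * (Real.log p / p)) := by
    intro p hp
    obtain ⟨g1, g2, g3, g4⟩ := hx p hp
    have h3 : (2 : ℝ) ≤ p := by exact_mod_cast (Nat.mem_primesLE.1 hp).2.two_le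
    have hlog : 0 ≤ Real.log p := Real.log_natCast_nonneg p
    have h4 : ((p : ℝ) ^ δ - 1) / (p - (p : ℝ) ^ δ) ≤ 4 * δ * E * (Real.log p / p) := by
      rw [div_le_iff₀ (by linarith)]
      have h5 : (p : ℝ) ^ δ - 1 ≤ E * (δ * Real.log p) :=
        g4.trans (mul_le_mul_of_nonneg_right g3 (mul_nonneg hδ0 hlog))
      have h6 : 4 * δ * E * (Real.log p / p) * (p / 4) = E * (δ * Real.log p) := by
        field_simp
      have h7 : 4 * δ * E * (Real.log p / p) * (p / 4) ≤
          4 * δ * E * (Real.log p / p) * (p - (p : ℝ) ^ δ) := by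
        apply mul_le_mul_of_nonneg_left (by linarith)
        positivity
      linarith
    have h5 := Real.add_one_le_exp (4 * δ * E * (Real.log p / p))
    linarith
  calc ∏ p ∈ y.primesLE, (1 + ((p : ℝ) ^ δ - 1) / (p - (p : ℝ) ^ δ)) ≤
      ∏ p ∈ y.primesLE, Real.exp (4 * δ * E * (Real.log p / p)) := by
        refine Finset.prod_le_prod (fun p hp => ?_) h2
        obtain ⟨g1, g2, g3, g4⟩ := hx p hp
        have h3 : (2 : ℝ) ≤ p := by exact_mod_cast (Nat.mem_primesLE.1 hp).2.two_le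
        have h4 : 0 ≤ ((p : ℝ) ^ δ - 1) / (p - (p : ℝ) ^ δ) :=
          div_nonneg (by linarith) (by linarith)
        linarith
    _ = Real.exp (4 * δ * E * ∑ p ∈ y.primesLE, Real.log p / p) := by
        rw [← Real.exp_sum, Finset.mul_sum]
    _ ≤ _ := by
        apply Real.exp_le_exp.2
        apply mul_le_mul_of_nonneg_left (mertens_upper y hy)
        positivity

theorem sum_inv_sqrt (K : ℕ) : ∑ a ∈ Finset.Icc 1 K, 1 / Real.sqrt a ≤ 2 * Real.sqrt K := by
  induction K with
  | zero => simp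
  | succ K ih =>
    rw [Finset.sum_Icc_succ_top (by omega)]
    have h1 : (0 : ℝ) ≤ K := Nat.cast_nonneg K
    have h2 : 0 < Real.sqrt ((K + 1 : ℕ) : ℝ) := Real.sqrt_pos.2 (by positivity)
    have h3 : Real.sqrt ((K + 1 : ℕ) : ℝ) * Real.sqrt ((K + 1 : ℕ) : ℝ) = K + 1 := by
      rw [Real.mul_self_sqrt (by positivity)]; push_cast; ring
    have h4 : Real.sqrt (K : ℝ) * Real.sqrt (K : ℝ) = K := Real.mul_self_sqrt h1
    have h5 : 0 ≤ Real.sqrt (K : ℝ) := Real.sqrt_nonneg _
    have h6 : 1 / Real.sqrt ((K + 1 : ℕ) : ℝ) ≤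
        2 * Real.sqrt ((K + 1 : ℕ) : ℝ) - 2 * Real.sqrt (K : ℝ) := by
      rw [div_le_iff₀ h2]
      nlinarith [sq_nonneg (Real.sqrt ((K + 1 : ℕ) : ℝ) - Real.sqrt (K : ℝ))]
    linarith

open Classical in
/-- Few integers have even exponents at all primes beyond `y`. -/
theorem count_even (N y : ℕ) (hN : 1 ≤ N) (hy : 1 ≤ y) (δ E : ℝ) (hδ0 : 0 ≤ δ) (hδ : δ ≤ 1 / 2)
    (hE : (y : ℝ) ^ δ ≤ E) :
    (((Finset.Icc 1 N).filter (fun m : ℕ => ∀ p : ℕ, p.Prime → y < p →
      Even (m.factorization p))).card : ℝ) ≤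
      Real.exp (4 * δ * E * (Real.log y + Real.log 4)) * N / (N : ℝ) ^ (δ / 2) +
        2 * (N : ℝ) ^ (3 / 4 : ℝ) := by
  have hNR : (1 : ℝ) ≤ N := by exact_mod_cast hN
  have hN0 : (0 : ℝ) < N := by linarith
  set f : ℕ → ℝ := fun n => ∏ p ∈ y.primesLE, ((p : ℝ) ^ δ) ^ n.factorization p with hf
  have hge1 : ∀ p ∈ y.primesLE, 1 ≤ (p : ℝ) ^ δ := by
    intro p hp
    have h3 : (2 : ℝ) ≤ p := by exact_mod_cast (Nat.mem_primesLE.1 hp).2.two_le
    exact Real.one_le_rpow (by linarith) hδ0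
  have hf0 : ∀ n, 0 ≤ f n := fun n => Finset.prod_nonneg (fun p hp => by
    have := hge1 p hp
    positivity)
  set E0 := (Finset.Icc 1 N).filter (fun m : ℕ => ∀ p : ℕ, p.Prime → y < p →
      Even (m.factorization p)) with hE0
  set E1 := (Finset.Icc 1 N).filter (fun m : ℕ => (N : ℝ) ^ (δ / 2) ≤ f m) with hE1
  set E2 := (Finset.Icc 1 (Nat.sqrt N)).biUnion
    (fun a => (Finset.Icc 1 (Nat.sqrt (N / a))).image (fun b => b ^ 2 * a)) with hE2
  have hsub : E0 ⊆ E1 ∪ E2 := by
    intro m hm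
    rw [hE0, Finset.mem_filter, Finset.mem_Icc] at hm
    obtain ⟨⟨hm1, hmN⟩, hev⟩ := hm
    obtain ⟨a, b, hab, hsqf⟩ := Nat.sq_mul_squarefree m
    have ha0 : a ≠ 0 := by rintro rfl; simp at hab; omega
    have hb0 : b ≠ 0 := by rintro rfl; simp at hab; omega
    rw [Finset.mem_union]
    by_cases h1 : a ≤ Nat.sqrt N
    · right
      rw [hE2, Finset.mem_biUnion]
      refine ⟨a, Finset.mem_Icc.2 ⟨by omega, h1⟩, ?_⟩
      rw [Finset.mem_image]
      refine ⟨b, Finset.mem_Icc.2 ⟨by omega, ?_⟩, hab⟩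
      rw [Nat.le_sqrt', Nat.le_div_iff_mul_le (by omega), hab]
      exact hmN
    · left
      rw [hE1, Finset.mem_filter, Finset.mem_Icc]
      refine ⟨⟨hm1, hmN⟩, ?_⟩
      have hsub2 : a.primeFactors ⊆ y.primesLE := by
        intro p hp
        rw [Nat.mem_primeFactors] at hp
        rw [Nat.mem_primesLE]
        refine ⟨?_, hp.1⟩
        by_contra hcon
        have h2 := hev p hp.1 (by omega)
        have h3 : m.factorization p = 2 * b.factorization p + a.factorization p := by
          rw [← hab, Nat.factorization_mul (pow_ne_zero _ hb0) ha0, Finsupp.add_apply,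
            Nat.factorization_pow, Finsupp.smul_apply, smul_eq_mul]
        have h4 : a.factorization p = 1 := by
          have h5 := (Nat.squarefree_iff_factorization_le_one ha0).1 hsqf p
          have h6 := (hp.1.dvd_iff_one_le_factorization ha0).1 hp.2.1
          omega
        rw [h3, h4] at h2
        exact absurd h2 (by rw [Nat.not_even_iff_odd]; exact ⟨b.factorization p, rfl⟩)
      have hfge : (a : ℝ) ^ δ ≤ f m := by
        calc (a : ℝ) ^ δ = ∏ p ∈ a.primeFactors, (p : ℝ) ^ δ := by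
              rw [Real.finsetProd_rpow _ _ (fun p _ => Nat.cast_nonneg p)]
              congr 1
              rw [← Nat.cast_prod, Nat.prod_primeFactors_of_squarefree hsqf]
          _ ≤ ∏ p ∈ a.primeFactors, ((p : ℝ) ^ δ) ^ m.factorization p := by
              refine Finset.prod_le_prod (fun p hp => ?_) (fun p hp => ?_)
              · have := hge1 p (hsub2 hp); linarith
              · have h2 := hge1 p (hsub2 hp)
                have hpp := Nat.mem_primeFactors.1 hp
                have h3 : 1 ≤ m.factorization p := by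
                  rw [← hpp.1.dvd_iff_one_le_factorization (by omega), ← hab]
                  exact dvd_mul_of_dvd_right hpp.2.1 _
                calc (p : ℝ) ^ δ = ((p : ℝ) ^ δ) ^ 1 := (pow_one _).symm
                  _ ≤ _ := pow_le_pow_right₀ h2 h3
          _ ≤ f m := by
              refine Finset.prod_le_prod_of_subset_of_one_le hsub2 (fun p hp => ?_)
                (fun p hp _ => ?_)
              · have := hge1 p (hsub2 hp); positivity
              · exact one_le_pow₀ (hge1 p hp)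
      refine le_trans ?_ hfge
      have h2 : Real.sqrt N ≤ a := by
        rw [Real.sqrt_le_left (Nat.cast_nonneg a)]
        have h3 : N < a * a := by
          have h4 := Nat.lt_succ_sqrt N
          have h5 : Nat.succ (Nat.sqrt N) ≤ a := by omega
          exact lt_of_lt_of_le h4 (Nat.mul_le_mul h5 h5)
        rw [sq]
        exact_mod_cast h3.le
      calc (N : ℝ) ^ (δ / 2) = (Real.sqrt N) ^ δ := by
            rw [Real.sqrt_eq_rpow, ← Real.rpow_mul hN0.le]
            congr 1; ring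
        _ ≤ _ := Real.rpow_le_rpow (Real.sqrt_nonneg _) h2 hδ0
  have b1 : (E1.card : ℝ) ≤
      Real.exp (4 * δ * E * (Real.log y + Real.log 4)) * N / (N : ℝ) ^ (δ / 2) := by
    rw [le_div_iff₀ (by positivity)]
    calc (E1.card : ℝ) * (N : ℝ) ^ (δ / 2) ≤ ∑ m ∈ E1, f m := by
          rw [← nsmul_eq_mul]
          refine Finset.card_nsmul_le_sum _ _ _ (fun m hm => ?_)
          rw [hE1, Finset.mem_filter] at hm
          exact hm.2
      _ ≤ ∑ m ∈ Finset.Icc 1 N, f m :=
          Finset.sum_le_sum_of_subset_of_nonneg (Finset.filter_subset _ _) (fun m _ _ => hf0 m)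
      _ ≤ _ := mean_bound N y hy δ E hδ0 hδ hE
  have b2 : (E2.card : ℝ) ≤ 2 * (N : ℝ) ^ (3 / 4 : ℝ) := by
    have h1 : (E2.card : ℝ) ≤ ∑ a ∈ Finset.Icc 1 (Nat.sqrt N), ((Nat.sqrt (N / a) : ℕ) : ℝ) := by
      have : E2.card ≤ ∑ a ∈ Finset.Icc 1 (Nat.sqrt N), Nat.sqrt (N / a) := by
        refine Finset.card_biUnion_le.trans (Finset.sum_le_sum (fun a _ => ?_))
        refine Finset.card_image_le.trans ?_
        rw [Nat.card_Icc]; omega
      exact_mod_cast this
    have h2 : ∑ a ∈ Finset.Icc 1 (Nat.sqrt N), ((Nat.sqrt (N / a) : ℕ) : ℝ) ≤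
        ∑ a ∈ Finset.Icc 1 (Nat.sqrt N), Real.sqrt N * (1 / Real.sqrt a) := by
      refine Finset.sum_le_sum (fun a _ => ?_)
      calc ((Nat.sqrt (N / a) : ℕ) : ℝ) ≤ Real.sqrt ((N / a : ℕ) : ℝ) :=
            Real.nat_sqrt_le_real_sqrt
        _ ≤ Real.sqrt ((N : ℝ) / a) := Real.sqrt_le_sqrt Nat.cast_div_le
        _ = _ := by rw [Real.sqrt_div hN0.le]; ring
    rw [← Finset.mul_sum] at h2
    have h3 := sum_inv_sqrt (Nat.sqrt N)
    have h4 : Real.sqrt ((Nat.sqrt N : ℕ) : ℝ) ≤ Real.sqrt (Real.sqrt N) :=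
      Real.sqrt_le_sqrt Real.nat_sqrt_le_real_sqrt
    have h5 : Real.sqrt N * Real.sqrt (Real.sqrt N) = (N : ℝ) ^ (3 / 4 : ℝ) := by
      rw [Real.sqrt_eq_rpow, Real.sqrt_eq_rpow, ← Real.rpow_mul hN0.le,
        ← Real.rpow_add hN0]
      norm_num
    have h6 : 0 ≤ Real.sqrt N := Real.sqrt_nonneg _
    calc (E2.card : ℝ) ≤ _ := h1.trans h2
      _ ≤ Real.sqrt N * (2 * Real.sqrt (Real.sqrt N)) :=
          mul_le_mul_of_nonneg_left (h3.trans (by linarith)) h6
      _ = 2 * (Real.sqrt N * Real.sqrt (Real.sqrt N)) := by ring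
      _ = _ := by rw [h5]
  have hc : (E0.card : ℝ) ≤ E1.card + E2.card := by
    exact_mod_cast (Finset.card_le_card hsub).trans (Finset.card_union_le _ _)
  linarith

/-- The exceptional integers at level `u`. -/
def Bad (N : ℕ) (u : ℝ) : Set ℤ := {n : ℤ | n ≠ 0 ∧ |n| ≤ N ∧ ∃ S : Finset ℤ, (∀ a ∈ S, a ≠ 0) ∧
  (∀ a ∈ S, ∀ b ∈ S, a ≠ b → IsSquare (a * b + n)) ∧
  9000 * (1 + u) * (1 + Real.log (1 + u)) ^ 2 < (S.card : ℝ)}

theorem K_mono (V u : ℝ) (hV0 : 0 ≤ V) (hVu : V ≤ u) :
    9000 * (1 + V) * (1 + Real.log (1 + V)) ^ 2 ≤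
          9000 * (1 + u) * (1 + Real.log (1 + u)) ^ 2 := by
  have h1 : Real.log (1 + V) ≤ Real.log (1 + u) :=
    Real.log_le_log (by linarith) (by linarith)
  have h2 : 0 ≤ Real.log (1 + V) := Real.log_nonneg (by linarith)
  have h3 : (0 : ℝ) ≤ 9000 * (1 + u) := by linarith
  have h4 : (1 + Real.log (1 + V)) ^ 2 ≤ (1 + Real.log (1 + u)) ^ 2 := by
    apply pow_le_pow_left₀ (by linarith)
    linarith
  have h5 : 9000 * (1 + V) ≤ 9000 * (1 + u) := by linarith
  exact mul_le_mul h5 h4 (sq_nonneg _) h3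

theorem Bad_subset (N : ℕ) (u : ℝ) : Bad N u ⊆ ((Finset.Icc (-(N : ℤ)) N : Finset ℤ) : Set ℤ) := by
  rintro n ⟨_, h2, _⟩
  rw [Finset.mem_coe, Finset.mem_Icc]
  exact abs_le.1 h2

theorem Bad_finite (N : ℕ) (u : ℝ) : (Bad N u).Finite :=
  (Finset.finite_toSet _).subset (Bad_subset N u)

theorem Bad_trivial (N : ℕ) (u : ℝ) : ((Bad N u).ncard : ℝ) ≤ 2 * N + 1 := by
  have h1 := Set.ncard_le_ncard (Bad_subset N u) (Finset.finite_toSet _)
  rw [Set.ncard_coe_finset, Int.card_Icc] at h1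
  have h2 : ((N : ℤ) + 1 - -(N : ℤ)).toNat = 2 * N + 1 := by omega
  rw [h2] at h1
  exact_mod_cast h1

theorem Bad_anti (N : ℕ) (u v : ℝ) (hu : 0 ≤ u) (huv : u ≤ v) :
    ((Bad N v).ncard : ℝ) ≤ (Bad N u).ncard := by
  have hsub : Bad N v ⊆ Bad N u := by
    rintro n ⟨h1, h2, S, h3, h4, h5⟩
    exact ⟨h1, h2, S, h3, h4, lt_of_le_of_lt (K_mono u v hu huv) h5⟩
  exact_mod_cast Set.ncard_le_ncard hsub (Bad_finite N u)

theorem tail_core (A : ℝ) (hA : 1 ≤ A) (N : ℕ) (u : ℝ) (hu : 1 ≤ u)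
    (huN : u * (4 * A) ≤ Real.log N) :
    ((Bad N u).ncard : ℝ) ≤
      2 * Real.exp (4 * Real.exp (2 * A) * (2 * A + Real.log 4)) * (N * Real.exp (-A * u)) +
        4 * (N : ℝ) ^ (3 / 4 : ℝ) := by
  classical
  have hu0 : 0 < u := by linarith
  have hA0 : 0 < A := by linarith
  have hlN4 : 4 ≤ Real.log N := by nlinarith
  have hlN : 0 < Real.log N := by linarith
  have hN1 : 1 ≤ N := by
    rcases Nat.eq_zero_or_pos N with h | h
    · subst h; norm_num at hlN
    · exact h
  have hN0 : (0 : ℝ) < N := by exact_mod_cast hN1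
  have hNR : (1 : ℝ) ≤ N := by exact_mod_cast hN1
  have hl4 : 0 < Real.log 4 := Real.log_pos (by norm_num)
  set c : ℝ := 1 / u with hc
  have hc0 : 0 < c := by rw [hc]; positivity
  have hc1 : c ≤ 1 := by rw [hc, div_le_one hu0]; exact hu
  have hcu : c * u = 1 := by rw [hc]; field_simp
  set y := ⌊(N : ℝ) ^ c⌋₊ with hy
  have hNc0 : 0 ≤ (N : ℝ) ^ c := by positivity
  have hyle : (y : ℝ) ≤ (N : ℝ) ^ c := Nat.floor_le hNc0
  have hylt : (N : ℝ) ^ c < y + 1 := Nat.lt_floor_add_one _
  have hNc : 3 ≤ (N : ℝ) ^ c := by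
    have h1 : (N : ℝ) ^ c = Real.exp (Real.log N * c) := Real.rpow_def_of_pos hN0 c
    rw [h1]
    have h2 : 4 ≤ Real.log N * c := by
      have h3 : u * 4 ≤ Real.log N := by nlinarith
      have h4 : u * 4 * c ≤ Real.log N * c := mul_le_mul_of_nonneg_right h3 hc0.le
      nlinarith
    have h5 := Real.add_one_le_exp (Real.log N * c)
    linarith
  have hy3 : 3 ≤ y := by
    rw [hy]; exact Nat.le_floor (by exact_mod_cast hNc)
  have hy1 : 1 ≤ y := by omega
  have hyR : (0 : ℝ) < y := by exact_mod_cast hy1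
  set δ : ℝ := 2 * A * u / Real.log N with hδ
  have hδ0 : 0 ≤ δ := by rw [hδ]; positivity
  have hδ1 : δ ≤ 1 / 2 := by rw [hδ, div_le_iff₀ hlN]; linarith
  have hδl : δ * Real.log N = 2 * A * u := by rw [hδ]; field_simp
  have hE : (y : ℝ) ^ δ ≤ Real.exp (2 * A) := by
    calc (y : ℝ) ^ δ ≤ ((N : ℝ) ^ c) ^ δ := Real.rpow_le_rpow hyR.le hyle hδ0
      _ = (N : ℝ) ^ (c * δ) := (Real.rpow_mul hN0.le _ _).symm
      _ = Real.exp (Real.log N * (c * δ)) := Real.rpow_def_of_pos hN0 _
      _ = Real.exp (2 * A) := by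
          congr 1
          calc Real.log N * (c * δ) = c * (δ * Real.log N) := by ring
            _ = 2 * A * (c * u) := by rw [hδl]; ring
            _ = 2 * A := by rw [hcu, mul_one]
  have hcount := count_even N y hN1 hy1 δ (Real.exp (2 * A)) hδ0 hδ1 hE
  have hlogy : Real.log y ≤ c * Real.log N := by
    have := Real.log_le_log hyR hyle
    rwa [Real.log_rpow hN0] at this
  have hlogy0 : 0 ≤ Real.log y := Real.log_nonneg (by exact_mod_cast hy1)
  have hexp : Real.exp (4 * δ * Real.exp (2 * A) * (Real.log y + Real.log 4)) ≤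
      Real.exp (4 * Real.exp (2 * A) * (2 * A + Real.log 4)) := by
    apply Real.exp_le_exp.2
    have h1 : δ * (Real.log y + Real.log 4) ≤ 2 * A + Real.log 4 := by
      have h2 : δ * Real.log y ≤ δ * (c * Real.log N) := mul_le_mul_of_nonneg_left hlogy hδ0
      have h3 : δ * (c * Real.log N) = 2 * A := by
        calc δ * (c * Real.log N) = c * (δ * Real.log N) := by ring
          _ = 2 * A * (c * u) := by rw [hδl]; ring
          _ = 2 * A := by rw [hcu, mul_one]
      have h4 : δ * Real.log 4 ≤ 1 * Real.log 4 := mul_le_mul_of_nonneg_right (by linarith) hl4.le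
      linarith
    calc 4 * δ * Real.exp (2 * A) * (Real.log y + Real.log 4) =
        4 * Real.exp (2 * A) * (δ * (Real.log y + Real.log 4)) := by ring
      _ ≤ _ := mul_le_mul_of_nonneg_left h1 (by positivity)
  have hpow : (N : ℝ) ^ (δ / 2) = Real.exp (A * u) := by
    rw [Real.rpow_def_of_pos hN0]
    congr 1
    calc Real.log N * (δ / 2) = (δ * Real.log N) / 2 := by ring
      _ = A * u := by rw [hδl]; ring
  set E := (Finset.Icc 1 N).filter (fun m : ℕ => ∀ p : ℕ, p.Prime → y < p →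
      Even (m.factorization p)) with hEd
  have hcount2 : (E.card : ℝ) ≤ Real.exp (4 * Real.exp (2 * A) * (2 * A + Real.log 4)) *
      (N * Real.exp (-A * u)) + 2 * (N : ℝ) ^ (3 / 4 : ℝ) := by
    refine hcount.trans (add_le_add ?_ le_rfl)
    rw [hpow, div_eq_mul_inv, ← Real.exp_neg, mul_assoc]
    rw [show -(A * u) = -A * u by ring]
    exact mul_le_mul_of_nonneg_right hexp (by positivity)
  -- the set is contained in the two copies of E
  have hsub : Bad N u ⊆
      ((E.image (fun m : ℕ => (m : ℤ)) ∪ E.image (fun m : ℕ => -(m : ℤ)) : Finset ℤ) : Set ℤ) := by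
    rintro n ⟨hn, hnN, S, h0, hsq, hbig⟩
    have hnat1 : 1 ≤ n.natAbs := Int.natAbs_pos.2 hn
    have hnatN : n.natAbs ≤ N := by
      have : ((n.natAbs : ℕ) : ℤ) ≤ N := by rw [Int.natCast_natAbs]; exact hnN
      exact_mod_cast this
    have hmem : n.natAbs ∈ E := by
      rw [hEd, Finset.mem_filter, Finset.mem_Icc]
      refine ⟨⟨hnat1, hnatN⟩, ?_⟩
      intro p hp hyp
      by_contra hodd
      rw [Nat.not_even_iff_odd] at hodd
      have hfact : Fact p.Prime := ⟨hp⟩
      have hev : padicValInt p n = n.natAbs.factorization p := by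
        rw [padicValInt, Nat.factorization_def _ hp]
      have hp2 : p ≠ 2 := by omega
      have hplog : c * Real.log N ≤ Real.log p := by
        have h1 : (N : ℝ) ^ c ≤ p := by
          have : (y : ℝ) + 1 ≤ p := by exact_mod_cast hyp
          linarith
        have h2 := Real.log_le_log (by positivity) h1
        rwa [Real.log_rpow hN0] at h2
      have hlogn : Real.log |(n : ℝ)| ≤ Real.log N := by
        apply Real.log_le_log
        · exact abs_pos.2 (by exact_mod_cast hn)
        · exact_mod_cast hnN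
      set V := Real.log |(n : ℝ)| / ((1 : ℕ) * Real.log p) with hV
      have hlp : 0 < Real.log p := lt_of_lt_of_le (by positivity) hplog
      have hVu : V ≤ u := by
        rw [hV, Nat.cast_one, one_mul, div_le_iff₀ hlp]
        have h1 : u * (c * Real.log N) ≤ u * Real.log p :=
          mul_le_mul_of_nonneg_left hplog hu0.le
        have h2 : u * (c * Real.log N) = Real.log N := by
          calc u * (c * Real.log N) = (c * u) * Real.log N := by ring
            _ = _ := by rw [hcu, one_mul]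
        linarith
      have hV0 : 0 ≤ V := by
        rw [hV]
        have : 0 ≤ Real.log |(n : ℝ)| :=
          Real.log_nonneg (by exact_mod_cast Int.one_le_abs hn)
        positivity
      have hwin := window p hp 1 1 le_rfl (Or.inl ⟨hp2, rfl⟩) n hn S h0 hsq V hV
      have hall : S.filter (fun a : ℤ => 2 * padicValInt p a + 1 ≤ padicValInt p n ∨
          padicValInt p n + 1 ≤ 2 * padicValInt p a) = S := by
        rw [Finset.filter_eq_self]
        intro a _
        obtain ⟨k, hk⟩ := hodd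
        rw [hev, hk]
        omega
      rw [hall] at hwin
      have h3 := K_mono V u hV0 hVu
      linarith
    rw [Finset.mem_coe, Finset.mem_union, Finset.mem_image, Finset.mem_image]
    rcases Int.natAbs_eq n with h | h
    · exact Or.inl ⟨n.natAbs, hmem, h.symm⟩
    · exact Or.inr ⟨n.natAbs, hmem, h.symm⟩
  have hcard : (Bad N u).ncard ≤ 2 * E.card := by
    refine (Set.ncard_le_ncard hsub (Finset.finite_toSet _)).trans ?_
    rw [Set.ncard_coe_finset]
    refine (Finset.card_union_le _ _).trans ?_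
    have h1 := Finset.card_image_le (s := E) (f := fun m : ℕ => (m : ℤ))
    have h2 := Finset.card_image_le (s := E) (f := fun m : ℕ => -(m : ℤ))
    omega
  have hcardR : ((Bad N u).ncard : ℝ) ≤ 2 * (E.card : ℝ) := by exact_mod_cast hcard
  linarith

/-- All but very few integers: a tail bound. -/
theorem tail (A : ℝ) : ∃ C : ℝ, ∀ N : ℕ, ∀ u : ℝ, 1 ≤ N → 1 ≤ u →
    ((Bad N u).ncard : ℝ) ≤ C * (N * Real.exp (-A * u) + (N : ℝ) ^ (3 / 4 : ℝ)) := by
  set A' : ℝ := max A 1 with hA'
  have hA1 : 1 ≤ A' := le_max_right _ _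
  have hAA : A ≤ A' := le_max_left _ _
  set C1 : ℝ := Real.exp (4 * Real.exp (2 * A') * (2 * A' + Real.log 4)) with hC1
  have hC10 : 0 < C1 := Real.exp_pos _
  refine ⟨2 * C1 + 4 + 3 * Real.exp (4 * A'), fun N u hN hu => ?_⟩
  have hNR : (1 : ℝ) ≤ N := by exact_mod_cast hN
  have hN0 : (0 : ℝ) < N := by linarith
  have hN34 : 1 ≤ (N : ℝ) ^ (3 / 4 : ℝ) := Real.one_le_rpow hNR (by norm_num)
  have hexpu : Real.exp (-A' * u) ≤ Real.exp (-A * u) := by
    apply Real.exp_le_exp.2
    nlinarith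
  have he0 : 0 < Real.exp (-A * u) := Real.exp_pos _
  have he4 : 0 < Real.exp (4 * A') := Real.exp_pos _
  have hX : 0 ≤ N * Real.exp (-A * u) := by positivity
  rcases le_or_gt (u * (4 * A')) (Real.log N) with h1 | h1
  · have h2 := tail_core A' hA1 N u hu h1
    rw [← hC1] at h2
    have h3 : N * Real.exp (-A' * u) ≤ N * Real.exp (-A * u) :=
      mul_le_mul_of_nonneg_left hexpu hN0.le
    have h4 : 2 * C1 * (N * Real.exp (-A' * u)) ≤ 2 * C1 * (N * Real.exp (-A * u)) :=
      mul_le_mul_of_nonneg_left h3 (by positivity)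
    nlinarith [mul_nonneg he4.le hX, mul_nonneg he4.le (by linarith : 0 ≤ (N : ℝ) ^ (3 / 4 : ℝ)),
      mul_nonneg hC10.le (by linarith : 0 ≤ (N : ℝ) ^ (3 / 4 : ℝ))]
  · rcases le_or_gt (4 * A') (Real.log N) with h5 | h5
    · -- use u0
      set u0 : ℝ := Real.log N / (4 * A') with hu0
      have hu01 : 1 ≤ u0 := by rw [hu0, le_div_iff₀ (by positivity)]; linarith
      have hu0u : u0 ≤ u := by rw [hu0, div_le_iff₀ (by positivity)]; exact h1.le
      have hu0e : u0 * (4 * A') = Real.log N := by rw [hu0]; field_simp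
      have h2 := tail_core A' hA1 N u0 hu01 hu0e.le
      have h3 := Bad_anti N u0 u (by linarith) hu0u
      rw [← hC1] at h2
      have h4 : N * Real.exp (-A' * u0) = (N : ℝ) ^ (3 / 4 : ℝ) := by
        rw [Real.rpow_def_of_pos hN0]
        nth_rewrite 1 [← Real.exp_log hN0]
        rw [← Real.exp_add]
        congr 1
        linarith
      rw [h4] at h2
      nlinarith [mul_nonneg he4.le hX, mul_nonneg he4.le (by linarith : 0 ≤ (N : ℝ) ^ (3 / 4 : ℝ)),
        mul_nonneg hC10.le hX]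
    · -- small N
      have h2 := Bad_trivial N u
      have h3 : (N : ℝ) ≤ Real.exp (4 * A') := by
        rw [← Real.log_le_iff_le_exp hN0]; exact h5.le
      nlinarith [mul_nonneg he4.le hX, mul_nonneg hC10.le hX,
        mul_nonneg hC10.le (by linarith : 0 ≤ (N : ℝ) ^ (3 / 4 : ℝ)),
        mul_nonneg he4.le (by linarith : 0 ≤ (N : ℝ) ^ (3 / 4 : ℝ) - 1)]

theorem young_aux (u : ℝ) (hu : 1 ≤ u) :
    8 * u ^ (5 / 6 : ℝ) * Real.log u ≤ u / 12 + 96 * 1152 ^ 12 := by
  have hu0 : 0 < u := by linarith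
  have h1 : Real.log u ≤ u ^ (1 / 12 : ℝ) / (1 / 12) :=
    Real.log_le_rpow_div hu0.le (by norm_num)
  have h2 : 8 * u ^ (5 / 6 : ℝ) * Real.log u ≤ 96 * u ^ (11 / 12 : ℝ) := by
    calc 8 * u ^ (5 / 6 : ℝ) * Real.log u ≤ 8 * u ^ (5 / 6 : ℝ) * (u ^ (1 / 12 : ℝ) / (1 / 12)) :=
          mul_le_mul_of_nonneg_left h1 (by positivity)
      _ = 96 * (u ^ (5 / 6 : ℝ) * u ^ (1 / 12 : ℝ)) := by ring
      _ = 96 * u ^ (11 / 12 : ℝ) := by
          rw [← Real.rpow_add hu0]; norm_num
  refine h2.trans ?_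
  rcases le_or_gt u (1152 ^ 12) with h3 | h3
  · have h4 : u ^ (11 / 12 : ℝ) ≤ u ^ (1 : ℝ) :=
      Real.rpow_le_rpow_of_exponent_le hu (by norm_num)
    rw [Real.rpow_one] at h4
    linarith
  · have h4 : (1152 : ℝ) ≤ u ^ (1 / 12 : ℝ) := by
      have h5 : ((1152 : ℝ) ^ 12) ^ (1 / 12 : ℝ) ≤ u ^ (1 / 12 : ℝ) :=
        Real.rpow_le_rpow (by positivity) h3.le (by norm_num)
      have h6 : ((1152 : ℝ) ^ 12) ^ (1 / 12 : ℝ) = 1152 := by
        rw [← Real.rpow_natCast, ← Real.rpow_mul (by norm_num)]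
        norm_num
      rwa [h6] at h5
    have h5 : u = u ^ (11 / 12 : ℝ) * u ^ (1 / 12 : ℝ) := by
      rw [← Real.rpow_add hu0]; norm_num
    have h6 : 0 < u ^ (11 / 12 : ℝ) := by positivity
    have h7 : u ^ (11 / 12 : ℝ) * 1152 ≤ u ^ (11 / 12 : ℝ) * u ^ (1 / 12 : ℝ) :=
      mul_le_mul_of_nonneg_left h4 h6.le
    rw [← h5] at h7
    nlinarith

/-- All but very few integers: a tail bound with an absolute constant. -/
theorem tail2 : ∃ C : ℝ, ∀ N : ℕ, ∀ u : ℝ, 1 ≤ N → 1 ≤ u →
    ((Bad N u).ncard : ℝ) ≤ C * (N * u ^ (-u / 3) + (N : ℝ) ^ (4 / 5 : ℝ)) := by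
  set C0 : ℝ := Real.exp (96 * 1152 ^ 12) with hC0
  have hC00 : 0 < C0 := Real.exp_pos _
  set C1 : ℝ := Real.exp (4 * Real.exp (2 * 1) * (2 * 1 + Real.log 4)) with hC1
  have hC10 : 0 < C1 := Real.exp_pos _
  set C2 : ℝ := Real.exp 48 with hC2
  have hC20 : 0 < C2 := Real.exp_pos _
  refine ⟨2 * C0 + 4 + 2 * C1 + 3 * C2 + 3 * 12 ^ 4, fun N u hN hu => ?_⟩
  have hNR : (1 : ℝ) ≤ N := by exact_mod_cast hN
  have hN0 : (0 : ℝ) < N := by linarith
  have hu0 : 0 < u := by linarith
  have hlu : 0 ≤ Real.log u := Real.log_nonneg hu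
  have hlN : 0 ≤ Real.log N := Real.log_nonneg hNR
  have hl4 : 0 < Real.log 4 := Real.log_pos (by norm_num)
  set X : ℝ := N * u ^ (-u / 3) with hX
  set Y : ℝ := (N : ℝ) ^ (4 / 5 : ℝ) with hY
  have hX0 : 0 ≤ X := by positivity
  have hY1 : 1 ≤ Y := Real.one_le_rpow hNR (by norm_num)
  have h34 : (N : ℝ) ^ (3 / 4 : ℝ) ≤ Y :=
    Real.rpow_le_rpow_of_exponent_le hNR (by norm_num)
  have htot : ∀ c d : ℝ, 0 ≤ c → 0 ≤ d → c ≤ 2 * C0 + 4 + 2 * C1 + 3 * C2 + 3 * 12 ^ 4 →
      d ≤ 2 * C0 + 4 + 2 * C1 + 3 * C2 + 3 * 12 ^ 4 → c * X + d * Y ≤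
      (2 * C0 + 4 + 2 * C1 + 3 * C2 + 3 * 12 ^ 4) * (X + Y) := by
    intro c d _ _ hc hd
    have h1 := mul_le_mul_of_nonneg_right hc hX0
    have h2 := mul_le_mul_of_nonneg_right hd (by linarith : 0 ≤ Y)
    linarith
  rcases lt_or_ge u 12 with hu12 | hu12
  · -- small u
    have h1 := Bad_trivial N u
    have h2 : u ^ (u / 3) ≤ 12 ^ 4 := by
      calc u ^ (u / 3) ≤ (12 : ℝ) ^ (u / 3) :=
            Real.rpow_le_rpow hu0.le hu12.le (by positivity)
        _ ≤ (12 : ℝ) ^ (4 : ℝ) :=
            Real.rpow_le_rpow_of_exponent_le (by norm_num) (by linarith)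
        _ = 12 ^ 4 := by norm_num
    have h3 : u ^ (u / 3) * u ^ (-u / 3) = 1 := by
      rw [← Real.rpow_add hu0]
      rw [show u / 3 + -u / 3 = 0 by ring, Real.rpow_zero]
    have h4 : 0 < u ^ (-u / 3) := by positivity
    have h5 : (N : ℝ) ≤ 12 ^ 4 * X := by
      calc (N : ℝ) = (u ^ (u / 3) * u ^ (-u / 3)) * N := by rw [h3, one_mul]
        _ ≤ (12 ^ 4 * u ^ (-u / 3)) * N := by
            apply mul_le_mul_of_nonneg_right _ hN0.le
            exact mul_le_mul_of_nonneg_right h2 h4.le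
        _ = _ := by rw [hX]; ring
    refine le_trans ?_ (htot (3 * 12 ^ 4) 0 (by positivity) le_rfl (by linarith) (by positivity))
    linarith
  · have hlog12 : 12 / 5 ≤ Real.log u := by
      rw [Real.le_log_iff_exp_le hu0]
      have h1 : Real.exp (12 / 5) ≤ 12 := by
        have h2 : Real.exp (12 / 5) = (Real.exp 1) ^ (12 / 5 : ℝ) := by
          rw [← Real.exp_mul]; norm_num
        have h3 : (Real.exp (12 / 5)) ^ 5 = (Real.exp 1) ^ 12 := by
          rw [← Real.exp_nat_mul, ← Real.exp_nat_mul]; norm_num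
        have h4 := Real.exp_one_lt_d9
        have h5 : (Real.exp 1) ^ 12 ≤ (2.7182818286 : ℝ) ^ 12 :=
          pow_le_pow_left₀ (Real.exp_pos 1).le h4.le 12
        have h6 : (2.7182818286 : ℝ) ^ 12 ≤ 12 ^ 5 := by norm_num
        have h7 : (Real.exp (12 / 5)) ^ 5 ≤ 12 ^ 5 := by rw [h3]; linarith
        exact le_of_pow_le_pow_left₀ (by norm_num) (by norm_num) h7
      linarith
    have hl4u : Real.log 4 ≤ Real.log u := Real.log_le_log (by norm_num) (by linarith)
    have hyoung := young_aux u hu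
    have hexpo : ∀ A : ℝ, 1 ≤ A → A ≤ 5 / 12 * Real.log u →
        Real.exp (4 * Real.exp (2 * A) * (2 * A + Real.log 4)) ≤ Real.exp (u / 12) * C0 := by
      intro A hA1 hA2
      rw [hC0, ← Real.exp_add]
      apply Real.exp_le_exp.2
      refine le_trans ?_ hyoung
      have h1 : Real.exp (2 * A) ≤ u ^ (5 / 6 : ℝ) := by
        rw [Real.rpow_def_of_pos hu0]
        apply Real.exp_le_exp.2
        linarith
      have h2 : 2 * A + Real.log 4 ≤ 2 * Real.log u := by linarith
      calc 4 * Real.exp (2 * A) * (2 * A + Real.log 4) ≤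
          4 * u ^ (5 / 6 : ℝ) * (2 * Real.log u) := by
            apply mul_le_mul _ h2 (by linarith) (by positivity)
            linarith
        _ = 8 * u ^ (5 / 6 : ℝ) * Real.log u := by ring
    rcases le_or_gt (u * (4 * (5 / 12 * Real.log u))) (Real.log N) with h1 | h1
    · -- main range
      have hA1 : 1 ≤ 5 / 12 * Real.log u := by linarith
      have h2 := tail_core (5 / 12 * Real.log u) hA1 N u hu h1
      have h3 := hexpo (5 / 12 * Real.log u) hA1 le_rfl
      have h4 : Real.exp (u / 12) * Real.exp (-(5 / 12 * Real.log u) * u) ≤ u ^ (-u / 3) := by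
        rw [Real.rpow_def_of_pos hu0, ← Real.exp_add]
        apply Real.exp_le_exp.2
        nlinarith
      have h5 : 2 * Real.exp (4 * Real.exp (2 * (5 / 12 * Real.log u)) *
          (2 * (5 / 12 * Real.log u) + Real.log 4)) *
          (N * Real.exp (-(5 / 12 * Real.log u) * u)) ≤ 2 * C0 * X := by
        calc _ ≤ 2 * (Real.exp (u / 12) * C0) * (N * Real.exp (-(5 / 12 * Real.log u) * u)) := by
              apply mul_le_mul_of_nonneg_right _ (by positivity)
              linarith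
          _ = 2 * C0 * (N * (Real.exp (u / 12) * Real.exp (-(5 / 12 * Real.log u) * u))) := by ring
          _ ≤ 2 * C0 * (N * u ^ (-u / 3)) := by
              apply mul_le_mul_of_nonneg_left _ (by positivity)
              exact mul_le_mul_of_nonneg_left h4 hN0.le
      refine le_trans ?_ (htot (2 * C0) 4 (by positivity) (by norm_num) (by linarith) (by linarith))
      linarith
    · rcases le_or_gt (4 * u) (Real.log N) with h2 | h2
      · -- intermediate range
        set A : ℝ := Real.log N / (4 * u) with hA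
        have hA1 : 1 ≤ A := by rw [hA, le_div_iff₀ (by positivity)]; linarith
        have hAu : u * (4 * A) = Real.log N := by rw [hA]; field_simp
        have hA2 : A ≤ 5 / 12 * Real.log u := by
          rw [hA, div_le_iff₀ (by positivity)]
          nlinarith
        have h3 := tail_core A hA1 N u hu hAu.le
        have h4 := hexpo A hA1 hA2
        have h5 : Real.exp (u / 12) * (N * Real.exp (-A * u)) ≤ Y := by
          rw [hY, Real.rpow_def_of_pos hN0]
          nth_rewrite 1 [← Real.exp_log hN0]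
          rw [← Real.exp_add, ← Real.exp_add]
          apply Real.exp_le_exp.2
          linarith
        have h6 : 2 * Real.exp (4 * Real.exp (2 * A) * (2 * A + Real.log 4)) *
            (N * Real.exp (-A * u)) ≤ 2 * C0 * Y := by
          calc _ ≤ 2 * (Real.exp (u / 12) * C0) * (N * Real.exp (-A * u)) := by
                apply mul_le_mul_of_nonneg_right _ (by positivity)
                linarith
            _ = 2 * C0 * (Real.exp (u / 12) * (N * Real.exp (-A * u))) := by ring
            _ ≤ _ := mul_le_mul_of_nonneg_left h5 (by positivity)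
        refine le_trans ?_ (htot 0 (2 * C0 + 4) le_rfl (by positivity) (by positivity)
          (by linarith))
        linarith
      · rcases le_or_gt 48 (Real.log N) with h3 | h3
        · -- large u
          set u1 : ℝ := Real.log N / 4 with hu1
          have h4 : u1 * (4 * 1) ≤ Real.log N := by rw [hu1]; linarith
          have h5 := tail_core 1 le_rfl N u1 (by rw [hu1]; linarith) h4
          have h6 := Bad_anti N u1 u (by rw [hu1]; linarith) (by rw [hu1]; linarith)
          rw [← hC1] at h5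
          have h7 : N * Real.exp (-1 * u1) ≤ Y := by
            rw [hY, Real.rpow_def_of_pos hN0]
            nth_rewrite 1 [← Real.exp_log hN0]
            rw [← Real.exp_add]
            apply Real.exp_le_exp.2
            rw [hu1]
            linarith
          have h8 : 2 * C1 * (N * Real.exp (-1 * u1)) ≤ 2 * C1 * Y :=
            mul_le_mul_of_nonneg_left h7 (by positivity)
          refine le_trans ?_ (htot 0 (2 * C1 + 4) le_rfl (by positivity) (by positivity)
            (by linarith))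
          linarith
        · -- small N
          have h4 := Bad_trivial N u
          have h5 : (N : ℝ) ≤ C2 := by
            rw [hC2, ← Real.log_le_iff_le_exp hN0]; exact h3.le
          have h6 : 3 * C2 * 1 ≤ 3 * C2 * Y := mul_le_mul_of_nonneg_left hY1 (by positivity)
          refine le_trans ?_ (htot 0 (3 * C2) le_rfl (by positivity) (by positivity)
            (by linarith))
          linarith

end Pool.Agent.Helper13.Dn
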