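import Mathlib
import Pool.Agent.Helper13.Dn.Tail
import Pool.Agent.Helper13.Dn.LogBound

set_option autoImplicit false

namespace Pool.Agent.Helper13.Dn

open Finset

/-- The integers with a `D(n)`-tuple of more than `K` elements. -/
def Exc (N : ℕ) (K : ℝ) : Set ℤ := {n : ℤ | n ≠ 0 ∧ |n| ≤ N ∧ ∃ S : Finset ℤ, (∀ a ∈ S, a ≠ 0) ∧
  (∀ a ∈ S, ∀ b ∈ S, a ≠ b → IsSquare (a * b + n)) ∧ K < (S.card : ℝ)}

theorem Exc_subset (N : ℕ) (K : ℝ) : Exc N K ⊆ ((Finset.Icc (-(N : ℤ)) N : Finset ℤ) : Set ℤ) := by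
  rintro n ⟨_, h2, _⟩
  rw [Finset.mem_coe, Finset.mem_Icc]
  exact abs_le.1 h2

theorem Exc_trivial (N : ℕ) (K : ℝ) : ((Exc N K).ncard : ℝ) ≤ 2 * N + 1 := by
  have h1 := Set.ncard_le_ncard (Exc_subset N K) (Finset.finite_toSet _)
  rw [Set.ncard_coe_finset, Int.card_Icc] at h1
  have h2 : ((N : ℤ) + 1 - -(N : ℤ)).toNat = 2 * N + 1 := by omega
  rw [h2] at h1
  exact_mod_cast h1

theorem Exc_empty (N : ℕ) (K : ℝ) (hK : 50000 * (1 + Real.log N) < K) :
    Exc N K = ∅ := by
  rw [Set.eq_empty_iff_forall_notMem]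
  rintro n ⟨h1, h2, S, h3, h4, h5⟩
  have h6 := log_bound n h1 S h3 h4
  have h7 : Real.log |(n : ℝ)| ≤ Real.log N := by
    apply Real.log_le_log
    · exact abs_pos.2 (by exact_mod_cast h1)
    · exact_mod_cast h2
  linarith

theorem log_large (K : ℝ) (hK : (1152000 : ℝ) ^ 4 ≤ K) :
    18000 * (Real.log K) ^ 2 ≤ Real.sqrt K ∧ 3 ≤ Real.log K := by
  have hK0 : (0 : ℝ) < K := lt_of_lt_of_le (by positivity) hK
  set t : ℝ := K ^ (1 / 8 : ℝ) with ht
  have ht0 : 0 < t := Real.rpow_pos_of_pos hK0 _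
  have ht8 : t ^ 8 = K := by
    rw [ht, ← Real.rpow_natCast, ← Real.rpow_mul hK0.le]
    norm_num
  have hsq : Real.sqrt K = t ^ 4 := by
    rw [← ht8, show t ^ 8 = (t ^ 4) ^ 2 by ring, Real.sqrt_sq (by positivity)]
  have ht2 : 1152000 ≤ t ^ 2 := by
    by_contra hcon
    push Not at hcon
    have : (t ^ 2) ^ 4 < 1152000 ^ 4 := pow_lt_pow_left₀ hcon (by positivity) (by norm_num)
    rw [show (t ^ 2) ^ 4 = t ^ 8 by ring, ht8] at this
    linarith
  have hlog : Real.log K ≤ 8 * t := by
    have := Real.log_le_rpow_div hK0.le (show (0 : ℝ) < 1 / 8 by norm_num)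
    rw [← ht] at this
    linarith
  have hlog1 : 3 ≤ Real.log K := by
    have h1 : Real.exp 3 ≤ K := by
      have h2 : Real.exp 3 = (Real.exp 1) ^ 3 := by rw [← Real.exp_nat_mul]; norm_num
      have h3 : (Real.exp 1) ^ 3 ≤ 3 ^ 3 :=
        pow_le_pow_left₀ (Real.exp_pos 1).le (by linarith [Real.exp_one_lt_d9]) 3
      have h4 : ((3 : ℝ) ^ 3) ≤ 1152000 ^ 4 := by norm_num
      linarith
    calc (3 : ℝ) = Real.log (Real.exp 3) := (Real.log_exp 3).symm
      _ ≤ _ := Real.log_le_log (Real.exp_pos 3) h1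
  refine ⟨?_, hlog1⟩
  rw [hsq]
  have h2 : (Real.log K) ^ 2 ≤ (8 * t) ^ 2 := pow_le_pow_left₀ (by linarith) hlog 2
  calc 18000 * (Real.log K) ^ 2 ≤ 18000 * (8 * t) ^ 2 := by linarith
    _ = 1152000 * t ^ 2 := by ring
    _ ≤ t ^ 2 * t ^ 2 := mul_le_mul_of_nonneg_right ht2 (by positivity)
    _ = t ^ 4 := by ring

theorem tail3 : ∃ C c : ℝ, c = 1 / 108000 ∧ ∀ N : ℕ, ∀ K : ℝ, 1 ≤ N → 2 ≤ K →
    ((Exc N K).ncard : ℝ) ≤ C * (N * Real.exp (-c * K / Real.log K)) := by
  obtain ⟨C₁, hC₁⟩ := tail2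
  set K₀ : ℝ := 1152000 ^ 4 with hK₀
  set c : ℝ := 1 / 108000 with hc
  have hc0 : 0 < c := by rw [hc]; norm_num
  set C₂ : ℝ := max C₁ 0 with hC₂
  have hC₂0 : 0 ≤ C₂ := le_max_right _ _
  refine ⟨C₂ * (1 + Real.exp 1) + 3 * Real.exp (c * K₀ / Real.log 2), c, hc, ?_⟩
  intro N K hN hK
  have hNR : (1 : ℝ) ≤ N := by exact_mod_cast hN
  have hN0 : (0 : ℝ) < N := by linarith
  have hl2 : 0 < Real.log 2 := Real.log_pos (by norm_num)
  have hK0 : 0 < K := by linarith
  have hlK : Real.log 2 ≤ Real.log K := Real.log_le_log (by norm_num) hK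
  have hlK0 : 0 < Real.log K := by linarith
  have he0 := Real.exp_pos (-c * K / Real.log K)
  have hCe : 0 < Real.exp (c * K₀ / Real.log 2) := Real.exp_pos _
  have he1 := Real.exp_pos 1
  rcases lt_or_ge K K₀ with hsmall | hlarge
  · have h1 := Exc_trivial N K
    have h2 : 1 ≤ Real.exp (c * K₀ / Real.log 2) * Real.exp (-c * K / Real.log K) := by
      rw [← Real.exp_add]
      apply Real.one_le_exp
      have h3 : K / Real.log K ≤ K₀ / Real.log 2 := by
        apply div_le_div₀ _ hsmall.le hl2 hlK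
        rw [hK₀]; positivity
      have h4 : c * K₀ / Real.log 2 + -c * K / Real.log K =
          c * (K₀ / Real.log 2 - K / Real.log K) := by ring
      rw [h4]
      apply mul_nonneg hc0.le
      linarith
    have h5 : (N : ℝ) ≤ Real.exp (c * K₀ / Real.log 2) *
        (N * Real.exp (-c * K / Real.log K)) := by
      calc (N : ℝ) = N * 1 := (mul_one _).symm
        _ ≤ N * (Real.exp (c * K₀ / Real.log 2) * Real.exp (-c * K / Real.log K)) :=
            mul_le_mul_of_nonneg_left h2 hN0.le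
        _ = _ := by ring
    have h6 : 0 ≤ C₂ * (1 + Real.exp 1) * (N * Real.exp (-c * K / Real.log K)) := by positivity
    calc ((Exc N K).ncard : ℝ) ≤ 3 * N := by linarith
      _ ≤ 3 * (Real.exp (c * K₀ / Real.log 2) * (N * Real.exp (-c * K / Real.log K))) := by
          linarith
      _ ≤ _ := by nlinarith
  · obtain ⟨hsq, hlog1⟩ := log_large K hlarge
    set l := Real.log K with hl
    have hpos3 : 0 ≤ 3 * Real.exp (c * K₀ / Real.log 2) *
        (N * Real.exp (-c * K / l)) := by positivity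
    have hpos4 : 0 ≤ C₂ * (1 + Real.exp 1) * (N * Real.exp (-c * K / l)) := by positivity
    rcases lt_or_ge (50000 * (1 + Real.log N)) K with hemp | hlogN
    · rw [Exc_empty N K hemp, Set.ncard_empty, Nat.cast_zero]
      rw [add_mul]
      linarith
    · set u : ℝ := K / (18000 * l ^ 2) with hu
      have hl2pos : 0 < 18000 * l ^ 2 := by positivity
      have hsK : Real.sqrt K * Real.sqrt K = K := Real.mul_self_sqrt hK0.le
      have hsK1 : 1 ≤ Real.sqrt K := by
        rw [Real.one_le_sqrt]; linarith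
      have husq : Real.sqrt K ≤ u := by
        rw [hu, le_div_iff₀ hl2pos]
        calc Real.sqrt K * (18000 * l ^ 2) ≤ Real.sqrt K * Real.sqrt K :=
              mul_le_mul_of_nonneg_left hsq (by linarith)
          _ = K := hsK
      have hu1 : 1 ≤ u := hsK1.trans husq
      have hu0 : 0 < u := by linarith
      have hlogu : l / 2 ≤ Real.log u := by
        have h1 := Real.log_le_log (by linarith) husq
        rw [Real.log_sqrt hK0.le] at h1
        exact h1
      have hul : u * (18000 * l ^ 2) = K := by rw [hu]; field_simp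
      -- the size bound at u is at most K
      have hKu : 9000 * (1 + u) * (1 + Real.log (1 + u)) ^ 2 ≤ K := by
        have h1 : 1 + Real.log (1 + u) ≤ l := by
          have h2 : Real.exp 1 * (1 + u) ≤ K := by
            have h3 := Real.exp_one_lt_d9
            have h4 : 1 ≤ l ^ 2 := one_le_pow₀ (by linarith)
            nlinarith
          have h5 : Real.log (Real.exp 1 * (1 + u)) ≤ l :=
            Real.log_le_log (by positivity) h2
          rw [Real.log_mul he1.ne' (by linarith), Real.log_exp] at h5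
          exact h5
        have h0 : 0 ≤ 1 + Real.log (1 + u) := by
          have := Real.log_nonneg (show (1 : ℝ) ≤ 1 + u by linarith)
          linarith
        have h6 : (1 + Real.log (1 + u)) ^ 2 ≤ l ^ 2 := pow_le_pow_left₀ h0 h1 2
        calc 9000 * (1 + u) * (1 + Real.log (1 + u)) ^ 2 ≤ 9000 * (1 + u) * l ^ 2 :=
              mul_le_mul_of_nonneg_left h6 (by positivity)
          _ ≤ 9000 * (2 * u) * l ^ 2 := by
              apply mul_le_mul_of_nonneg_right _ (by positivity)
              linarith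
          _ = u * (18000 * l ^ 2) := by ring
          _ = K := hul
      have hsub : Exc N K ⊆ {n : ℤ | n ≠ 0 ∧ |n| ≤ N ∧ ∃ S : Finset ℤ, (∀ a ∈ S, a ≠ 0) ∧
          (∀ a ∈ S, ∀ b ∈ S, a ≠ b → IsSquare (a * b + n)) ∧
          9000 * (1 + u) * (1 + Real.log (1 + u)) ^ 2 < (S.card : ℝ)} := by
        rintro n ⟨h1, h2, S, h3, h4, h5⟩
        exact ⟨h1, h2, S, h3, h4, lt_of_le_of_lt hKu h5⟩
      have hcount : ((Exc N K).ncard : ℝ) ≤ C₁ * (N * u ^ (-u / 3) + (N : ℝ) ^ (4 / 5 : ℝ)) := by
        refine le_trans ?_ (hC₁ N u hN hu1)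
        exact_mod_cast Set.ncard_le_ncard hsub (Bad_finite N u)
      -- the two terms
      have t1 : u ^ (-u / 3) ≤ Real.exp (-c * K / l) := by
        rw [Real.rpow_def_of_pos hu0]
        apply Real.exp_le_exp.2
        have h1 : K / (108000 * l) ≤ Real.log u * (u / 3) := by
          have h2 : l / 2 * (u / 3) ≤ Real.log u * (u / 3) :=
            mul_le_mul_of_nonneg_right hlogu (by linarith)
          have h3 : K / (108000 * l) = l / 2 * (u / 3) := by
            rw [← hul]; field_simp; ring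
          rw [h3]; exact h2
        have h4 : c * K / l ≤ K / (108000 * l) := by
          apply le_of_eq
          rw [hc]; field_simp
        have h5 : -c * K / l = -(c * K / l) := by ring
        have h6 : Real.log u * (-u / 3) = -(Real.log u * (u / 3)) := by ring
        rw [h5, h6]
        linarith
      have t2 : (N : ℝ) ^ (4 / 5 : ℝ) ≤ N * (Real.exp 1 * Real.exp (-c * K / l)) := by
        rw [← Real.exp_add, Real.rpow_def_of_pos hN0]
        have h1 : (N : ℝ) * Real.exp (1 + -c * K / l) =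
            Real.exp (Real.log N + (1 + -c * K / l)) := by
          rw [Real.exp_add (Real.log N), Real.exp_log hN0]
        rw [h1]
        apply Real.exp_le_exp.2
        have h2 : c * K / l ≤ K / 250000 := by
          rw [hc, div_le_div_iff₀ hlK0 (by norm_num)]
          have h5 : K * 3 ≤ K * l := mul_le_mul_of_nonneg_left hlog1 hK0.le
          linarith
        have h3 : -c * K / l = -(c * K / l) := by ring
        rw [h3]
        linarith
      have h7 : C₁ * (N * u ^ (-u / 3) + (N : ℝ) ^ (4 / 5 : ℝ)) ≤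
          C₂ * (N * Real.exp (-c * K / l) + N * (Real.exp 1 * Real.exp (-c * K / l))) := by
        have h8 : 0 ≤ N * u ^ (-u / 3) + (N : ℝ) ^ (4 / 5 : ℝ) := by positivity
        calc C₁ * (N * u ^ (-u / 3) + (N : ℝ) ^ (4 / 5 : ℝ)) ≤
            C₂ * (N * u ^ (-u / 3) + (N : ℝ) ^ (4 / 5 : ℝ)) :=
              mul_le_mul_of_nonneg_right (le_max_left _ _) h8
          _ ≤ _ := by
              apply mul_le_mul_of_nonneg_left _ hC₂0
              have := mul_le_mul_of_nonneg_left t1 hN0.le
              linarith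
      have h9 : C₂ * (N * Real.exp (-c * K / l) + N * (Real.exp 1 * Real.exp (-c * K / l))) =
          C₂ * (1 + Real.exp 1) * (N * Real.exp (-c * K / l)) := by ring
      rw [add_mul]
      linarith

end Pool.Agent.Helper13.Dn
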